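import Pool.Agent.BRQ.St

/-!
# BRQ, module Find: climbing
-/

set_option autoImplicit false

namespace Pool.Agent.BRQ

open Finset Real Pool.Agent.BR
open scoped Classical

private theorem Find_le (a s : ℝ) (ha : 0 < a) (hs : 0 ≤ s) (hsa : s ≤ a) :
    a * (s / a) ^ 200 ≤ a := by
  have h1 : s / a ≤ 1 := (div_le_one ha).2 hsa
  have h2 : (s / a) ^ 200 ≤ 1 := pow_le_one₀ (by positivity) h1
  nlinarith

theorem thm_Find (h1 : St_RLa) (h2 : St_TR) (h3 : St_K1) (h4 : St_GbS) (h5 : St_GbC) (h6 : St_GbK)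
    (h7 : St_NumF) : St_Find := by
  intro G _ _ hG B hB hSB n
  induction n with
  | zero =>
    intro A P haP haA hA
    rw [pow_zero, mul_one] at hA
    obtain ⟨e1, e2, e3, e4, e5⟩ := h1 G hG P
    obtain ⟨f1, f2, f3, f4, f5⟩ := h1 G hG P.S
    obtain ⟨t1, t2⟩ := h2 G hG P
    obtain ⟨a, ha⟩ : ∃ a : ℝ, a = aR P := ⟨_, rfl⟩
    obtain ⟨s, hs⟩ : ∃ s : ℝ, s = sR P := ⟨_, rfl⟩
    obtain ⟨sg, hsg⟩ : ∃ sg : ℝ, sg = sR P.S := ⟨_, rfl⟩
    obtain ⟨sC, hsC⟩ : ∃ sC : ℝ, sC = sR P.C := ⟨_, rfl⟩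
    obtain ⟨φ, hφ⟩ : ∃ φ : ℝ, φ = a * (s / a) ^ 200 := ⟨_, rfl⟩
    have hk1 := h3 G hG B P hB hSB
    rw [← ha] at haP haA hA e1 e3
    rw [← hs] at hA e1 e2 e3 e5 t2 hk1
    rw [← hsg] at e5 f2 t2 hk1
    rw [← hsC] at t2 hk1
    rw [← ha, ← hs, ← hφ]
    rw [← hφ] at hA
    have hA0 : 0 < A := by linarith
    have hs0 : 0 < s := by
      rcases e2.lt_or_eq with h | h
      · exact h
      · exfalso
        rw [hφ, ← h, zero_div, zero_pow (by norm_num), mul_zero] at hA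
        linarith
    have hφa : φ ≤ s := by
      rw [hφ]
      have h8 : s / a ≤ 1 := (div_le_one haP).2 e3
      have h9 : (s / a) ^ 200 ≤ (s / a) ^ 1 := pow_le_pow_of_le_one (by positivity) h8 (by norm_num)
      rw [pow_one] at h9
      calc a * (s / a) ^ 200 ≤ a * (s / a) := mul_le_mul_of_nonneg_left h9 haP.le
        _ = s := by field_simp
    have hcS : s * (sg / s) ^ 200 < 27 / 20 * φ := by
      have h8 := Find_le s sg hs0 f2 e5
      linarith
    have hcC : (2 * a - s) * (sC / (2 * a - s)) ^ 200 < 27 / 10 * φ := by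
      obtain ⟨g1, g2, g3, g4, g5⟩ := h1 G hG P.C
      rw [e1, ← hsC] at g3
      rw [← hsC] at g2
      have h8 := Find_le (2 * a - s) sC (by linarith) g2 g3
      linarith
    have hnum := h7 a s sg sC hs0 e3 f2 e5 (by linarith) (by rw [← hφ]; exact hcS)
      (by rw [← hφ]; exact hcC)
    rw [← hφ] at hnum
    refine ⟨0, le_rfl, ?_⟩
    intro Q hQ
    have h8 := h6 G hG B Q.C P.C hB (h5 G hG Q P hQ)
    show 1 / 4 * 2 ^ 0 * φ ≤ kR B Q.C
    rw [pow_zero, mul_one]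
    linarith
  | succ n ih =>
    intro A P haP haA hA
    obtain ⟨e1, e2, e3, e4, e5⟩ := h1 G hG P
    obtain ⟨f1, f2, f3, f4, f5⟩ := h1 G hG P.S
    obtain ⟨t1, t2⟩ := h2 G hG P
    have ihS := ih A P.S
    have ihC := ih (2 * A) P.C
    obtain ⟨a, ha⟩ : ∃ a : ℝ, a = aR P := ⟨_, rfl⟩
    obtain ⟨s, hs⟩ : ∃ s : ℝ, s = sR P := ⟨_, rfl⟩
    obtain ⟨sg, hsg⟩ : ∃ sg : ℝ, sg = sR P.S := ⟨_, rfl⟩
    obtain ⟨sC, hsC⟩ : ∃ sC : ℝ, sC = sR P.C := ⟨_, rfl⟩
    obtain ⟨φ, hφ⟩ : ∃ φ : ℝ, φ = a * (s / a) ^ 200 := ⟨_, rfl⟩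
    have haS : aR P.S = s := hs.symm
    have hk1 := h3 G hG B P hB hSB
    rw [← ha] at haP haA hA e1 e3
    rw [← hs] at hA e1 e2 e3 e5 t2 hk1
    rw [← hsg] at e5 f2 t2 hk1
    rw [← hsC] at t2 hk1
    rw [← ha, ← hs, ← hφ]
    rw [← hφ] at hA
    rw [haS, ← hsg] at ihS
    rw [e1, ← hsC] at ihC
    have hA0 : 0 < A := by linarith
    have hAn : 0 < A * (20 / 27 : ℝ) ^ (n + 1) := by positivity
    have hφ0 : 0 < φ := by linarith
    have hs0 : 0 < s := by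
      rcases e2.lt_or_eq with h | h
      · exact h
      · exfalso
        rw [hφ, ← h, zero_div, zero_pow (by norm_num), mul_zero] at hφ0
        exact lt_irrefl _ hφ0
    have hAn' : A * (20 / 27 : ℝ) ^ (n + 1) = 20 / 27 * (A * (20 / 27 : ℝ) ^ n) := by
      rw [pow_succ]
      ring
    rw [hAn'] at hA
    rcases lt_or_ge (s * (sg / s) ^ 200) (27 / 20 * φ) with hcS | hcS
    · rcases lt_or_ge ((2 * a - s) * (sC / (2 * a - s)) ^ 200) (27 / 10 * φ) with hcC | hcC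
      · have hnum := h7 a s sg sC hs0 e3 f2 e5 (by linarith) (by rw [← hφ]; exact hcS)
          (by rw [← hφ]; exact hcC)
        rw [← hφ] at hnum
        refine ⟨0, Nat.zero_le _, ?_⟩
        intro Q hQ
        have h8 := h6 G hG B Q.C P.C hB (h5 G hG Q P hQ)
        show 1 / 4 * 2 ^ 0 * φ ≤ kR B Q.C
        rw [pow_zero, mul_one]
        linarith
      · obtain ⟨j, hj, hjQ⟩ := ihC (by linarith) (by linarith) (by
          have h8 : 2 * A * (20 / 27 : ℝ) ^ n = 2 * (A * (20 / 27 : ℝ) ^ n) := by ring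
          rw [h8]
          linarith)
        refine ⟨j + 1, by omega, ?_⟩
        intro Q hQ
        have h8 := hjQ Q.C (h5 G hG Q P hQ)
        rw [Function.iterate_succ_apply]
        refine le_trans ?_ h8
        have h9 : (0 : ℝ) < 2 ^ j := by positivity
        have h10 : 1 / 4 * 2 ^ (j + 1) * φ = 1 / 4 * 2 ^ j * (2 * φ) := by
          rw [pow_succ]
          ring
        rw [h10]
        apply mul_le_mul_of_nonneg_left _ (by positivity)
        linarith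
    · obtain ⟨j, hj, hjQ⟩ := ihS hs0 (by linarith) (by linarith)
      refine ⟨j, by omega, ?_⟩
      intro Q hQ
      have h8 := hjQ Q ((h4 G hG Q P P.S).2 hQ (h4 G hG P P P).1)
      refine le_trans ?_ h8
      apply mul_le_mul_of_nonneg_left _ (by positivity)
      linarith

end Pool.Agent.BRQ
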