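import Pool.Agent.BRQ.St

/-!
BRQ, module GbC: garbling is compatible with the move `C`.
-/

set_option autoImplicit false

namespace Pool.Agent.BRQ

open Finset Real Pool.Agent.BR
open scoped Classical

section

variable {G : Type} [AddCommGroup G] [Fintype G]

omit [AddCommGroup G] in
/-- reordering of a sum over pairs of classes, a value and pairs of seeds -/
theorem GbC_sum {Ω Z : Type} [Fintype Ω] [Fintype Z] (T : ((Ω × Ω) × G) × (Z × Z) → ℝ) :
    ∑ t, T t = ∑ s : Ω × Z, ∑ r : Ω × Z, ∑ u : G, T (((s.1, r.1), u), (s.2, r.2)) := by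
  rw [← Fintype.sum_prod_type' (f := fun (s r : Ω × Z) => ∑ u : G, T (((s.1, r.1), u), (s.2, r.2))),
    ← Fintype.sum_prod_type' (f := fun (q : (Ω × Z) × (Ω × Z)) (u : G) =>
      T (((q.1.1, q.2.1), u), (q.1.2, q.2.2)))]
  exact (Fintype.sum_equiv
    (⟨fun q => (((q.1.1.1, q.1.2.1), q.2), (q.1.1.2, q.1.2.2)),
      fun t => (((t.1.1.1, t.2.1), (t.1.1.2, t.2.2)), t.1.2), fun _ => rfl, fun _ => rfl⟩ :
      (((Ω × Z) × (Ω × Z)) × G) ≃ ((Ω × Ω) × G) × (Z × Z)) _ _ (fun _ => rfl)).symm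

/-- joint law of a fibre, with weights -/
theorem GbC_fib (R : RL G) (a b : R.Ω) (z x : G) :
    R.w a * R.w b * conv (R.p a) (R.p b) z * fib (R.p a) (R.p b) z x =
      (R.w a * R.p a x) * (R.w b * R.p b (x + z)) := by
  by_cases h : R.w a * R.w b = 0
  · rcases mul_eq_zero.1 h with h1 | h1
    · rw [h1]; ring
    · rw [h1]; ring
  · rw [mul_assoc, conv_mul_fib (R.hp _ (left_ne_zero_of_mul h)) (R.hp _ (right_ne_zero_of_mul h))]
    ring

/-- the sum over the value has one term -/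
theorem GbC_single (h2 : ∀ x : G, x + x = 0) {Ω' : Type} (A B a b : Ω') (v p q : G) (f : G → ℝ) :
    ∑ u : G, (if ((a, b), u + p + q) = ((A, B), v) then f u else 0) =
      (if a = A then (if b = B then f (v + p + q) else 0) else 0) := by
  by_cases h1 : a = A
  · by_cases h3 : b = B
    · rw [if_pos h1, if_pos h3, sum_eq_single (v + p + q)]
      · rw [if_pos]
        rw [h1, h3]
        congr 1
        have e : v + p + q + p + q = v + ((p + p) + (q + q)) := by abel
        rw [e, h2, h2, add_zero, add_zero]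
      · intro u _ hu
        rw [if_neg]
        intro h
        apply hu
        rw [← (Prod.mk.inj h).2]
        have e : u + p + q + p + q = u + ((p + p) + (q + q)) := by abel
        rw [e, h2, h2, add_zero, add_zero]
      · intro h
        exact absurd (mem_univ _) h
    · rw [if_pos h1, if_neg h3]
      refine sum_eq_zero fun u _ => if_neg fun h => h3 ?_
      exact (Prod.mk.inj (Prod.mk.inj h).1).2
  · rw [if_neg h1]
    refine sum_eq_zero fun u _ => if_neg fun h => h1 ?_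
    exact (Prod.mk.inj (Prod.mk.inj h).1).1

end

theorem thm_GbC : St_GbC := by
  intro G _ _ h2 R Q hRQ
  obtain ⟨Z, hZ, ζ, α, β, hζ, hαβ⟩ := hRQ
  refine ⟨Z × Z, inferInstance, fun z => ζ z.1 * ζ z.2,
    fun t => ((α (t.1.1.1, t.2.1), α (t.1.1.2, t.2.2)),
      t.1.2 + β (t.1.1.1, t.2.1) + β (t.1.1.2, t.2.2)),
    fun t => β (t.1.1.1, t.2.1), isLaw_prod hζ hζ, ?_⟩
  rintro ⟨⟨A, B⟩, v⟩ x
  have hL : Q.C.w ((A, B), v) * Q.C.p ((A, B), v) x =
      (Q.w A * Q.p A x) * (Q.w B * Q.p B (x + v)) := GbC_fib Q A B v x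
  rw [hL, hαβ A x, hαβ B (x + v), sum_mul_sum]
  have hR : ∀ s r : R.Ω × Z, (if α s = A then R.w s.1 * ζ s.2 * R.p s.1 (x + β s) else 0) *
      (if α r = B then R.w r.1 * ζ r.2 * R.p r.1 (x + v + β r) else 0) =
      ∑ u : G, (if ((α s, α r), u + β s + β r) = ((A, B), v) then
        R.w s.1 * R.w r.1 * conv (R.p s.1) (R.p r.1) u * (ζ s.2 * ζ r.2) *
          fib (R.p s.1) (R.p r.1) u (x + β s) else 0) := by
    intro s r
    rw [GbC_single h2]
    have h3 : R.w s.1 * R.w r.1 * conv (R.p s.1) (R.p r.1) (v + β s + β r) * (ζ s.2 * ζ r.2) *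
        fib (R.p s.1) (R.p r.1) (v + β s + β r) (x + β s) =
        (R.w s.1 * ζ s.2 * R.p s.1 (x + β s)) * (R.w r.1 * ζ r.2 * R.p r.1 (x + v + β r)) := by
      have h4 := GbC_fib R s.1 r.1 (v + β s + β r) (x + β s)
      have e : x + β s + (v + β s + β r) = x + v + β r := by
        have e1 : x + β s + (v + β s + β r) = x + v + β r + (β s + β s) := by abel
        rw [e1, h2, add_zero]
      rw [e] at h4
      linear_combination (ζ s.2 * ζ r.2) * h4
    rw [h3]
    split_ifs <;> ring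
  simp only [hR]
  refine (GbC_sum (fun t : ((R.Ω × R.Ω) × G) × (Z × Z) =>
    if ((α (t.1.1.1, t.2.1), α (t.1.1.2, t.2.2)),
      t.1.2 + β (t.1.1.1, t.2.1) + β (t.1.1.2, t.2.2)) = ((A, B), v) then
      R.w t.1.1.1 * R.w t.1.1.2 * conv (R.p t.1.1.1) (R.p t.1.1.2) t.1.2 * (ζ t.2.1 * ζ t.2.2) *
        fib (R.p t.1.1.1) (R.p t.1.1.2) t.1.2 (x + β (t.1.1.1, t.2.1)) else 0)).symm.trans ?_
  refine sum_congr rfl fun t _ => ?_
  by_cases h : ((α (t.1.1.1, t.2.1), α (t.1.1.2, t.2.2)),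
      t.1.2 + β (t.1.1.1, t.2.1) + β (t.1.1.2, t.2.2)) = ((A, B), v)
  · exact (if_pos h).trans (if_pos h).symm
  · exact (if_neg h).trans (if_neg h).symm

end Pool.Agent.BRQ
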