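import Pool.Agent.BRQ.St
import Pool.Agent.BR.Fib

/-!
BRQ, GbK: monotonicity of the gain under garblings.
-/

set_option autoImplicit false

namespace Pool.Agent.BRQ

open Finset Real Pool.Agent.BR
open scoped Classical

/-- the joint law of class, value and noise -/
def GbK_M {G : Type} [AddCommGroup G] [Fintype G] (R : RL G) {Z : Type} (ζ : Z → ℝ)
    (y : (R.Ω × G) × Z) : ℝ := mR R y.1 * ζ y.2

/-- the map to class and value of the garbled law -/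
def GbK_psi {G : Type} [AddCommGroup G] [Fintype G] {R Q : RL G} {Z : Type}
    (α : R.Ω × Z → Q.Ω) (β : R.Ω × Z → G) (y : (R.Ω × G) × Z) : Q.Ω × G :=
  (α (y.1.1, y.2), y.1.2 + β (y.1.1, y.2))

theorem GbK_push {G : Type} [AddCommGroup G] [Fintype G] (h2 : ∀ x : G, x + x = 0) {R Q : RL G}
    {Z : Type} [Fintype Z] (ζ : Z → ℝ) (α : R.Ω × Z → Q.Ω) (β : R.Ω × Z → G)
    (h : ∀ (ω' : Q.Ω) (x : G), Q.w ω' * Q.p ω' x =
      ∑ a : R.Ω × Z, if α a = ω' then R.w a.1 * ζ a.2 * R.p a.1 (x + β a) else 0)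
    (a : Q.Ω × G) : mR Q a = pr (GbK_M R ζ) (GbK_psi α β) a := by
  obtain ⟨ω', x⟩ := a
  show Q.w ω' * Q.p ω' x = _
  rw [h, pr, sum_filter, Fintype.sum_prod_type, Fintype.sum_prod_type, Fintype.sum_prod_type]
  refine sum_congr rfl fun ω _ => ?_
  rw [sum_comm]
  refine sum_congr rfl fun z _ => ?_
  rw [sum_eq_single (x + β (ω, z))]
  · by_cases hα : α (ω, z) = ω'
    · rw [if_pos hα, if_pos]
      · simp only [GbK_M, mR]
        ring
      · simp only [GbK_psi, Prod.mk.injEq]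
        exact ⟨hα, add_add_self h2 _ _⟩
    · rw [if_neg hα, if_neg]
      simp only [GbK_psi, Prod.mk.injEq]
      exact fun hc => hα hc.1
  · intro g _ hg
    rw [if_neg]
    simp only [GbK_psi, Prod.mk.injEq]
    rintro ⟨-, hc⟩
    apply hg
    rw [← hc, add_add_self h2]
  · intro hc
    exact absurd (mem_univ _) hc

theorem GbK_isLaw_mR {G : Type} [AddCommGroup G] [Fintype G] (R : RL G) : IsLaw (mR R) := by
  refine ⟨fun a => ?_, ?_⟩
  · unfold mR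
    by_cases h : R.w a.1 = 0
    · rw [h, zero_mul]
    · exact mul_nonneg (R.hw.nn _) ((R.hp _ h).nn _)
  · rw [Fintype.sum_prod_type]
    unfold mR
    simp only [← mul_sum]
    rw [← R.hw.sum]
    refine sum_congr rfl fun ω _ => ?_
    by_cases h : R.w ω = 0
    · rw [h, zero_mul]
    · rw [(R.hp _ h).sum, mul_one]

theorem GbK_fst {Z : Type} [Fintype Z] {ζ : Z → ℝ} (hζ : IsLaw ζ) :
    H (fun ω : Z × Z => ζ ω.1 * ζ ω.2) (fun ω => ω.1) = H ζ (fun z => z) := by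
  symm
  refine H_push (P := fun ω : Z × Z => ζ ω.1 * ζ ω.2) (Q := ζ) (fun ω => ω.1) (fun a => ?_)
    (fun z => z)
  rw [pr, sum_filter, Fintype.sum_prod_type, sum_eq_single a]
  · simp only [if_true]
    rw [← mul_sum, hζ.sum, mul_one]
  · intro b _ hb
    exact sum_eq_zero fun c _ => if_neg hb
  · intro hc
    exact absurd (mem_univ _) hc

theorem GbK_snd {Z : Type} [Fintype Z] {ζ : Z → ℝ} (hζ : IsLaw ζ) :
    H (fun ω : Z × Z => ζ ω.1 * ζ ω.2) (fun ω => ω.2) = H ζ (fun z => z) := by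
  symm
  refine H_push (P := fun ω : Z × Z => ζ ω.1 * ζ ω.2) (Q := ζ) (fun ω => ω.2) (fun a => ?_)
    (fun z => z)
  rw [pr, sum_filter, Fintype.sum_prod_type, sum_comm, sum_eq_single a]
  · simp only [if_true]
    rw [← sum_mul, hζ.sum, one_mul]
  · intro b _ hb
    exact sum_eq_zero fun c _ => if_neg hb
  · intro hc
    exact absurd (mem_univ _) hc

/-- reordering of the coordinates -/
def GbK_e (Y Z G : Type) : ((Y × Z) × (Y × Z)) × G ≃ ((Y × Y) × G) × (Z × Z) where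
  toFun x := (((x.1.1.1, x.1.2.1), x.2), (x.1.1.2, x.1.2.2))
  invFun x := (((x.1.1.1, x.2.1), (x.1.1.2, x.2.2)), x.1.2)
  left_inv _ := rfl
  right_inv _ := rfl

theorem thm_GbK (hK : St_KRep) : St_GbK := by
  intro G _ _ h2 B R Q hB hG
  obtain ⟨Z, iZ, ζ, α, β, hζ, h⟩ := hG
  rw [hK G h2 B R hB, hK G h2 B Q hB]
  have hM : IsLaw (GbK_M R ζ) := isLaw_prod (GbK_isLaw_mR R) hζ
  have hR : IsLaw (lawR B R) := isLaw_prod (isLaw_prod (GbK_isLaw_mR R) (GbK_isLaw_mR R)) hB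
  have hZZ : IsLaw (fun ω : Z × Z => ζ ω.1 * ζ ω.2) := isLaw_prod hζ hζ
  set P0 : (((R.Ω × G) × (R.Ω × G)) × G) × (Z × Z) → ℝ :=
    fun x => lawR B R x.1 * (ζ x.2.1 * ζ x.2.2) with hP0
  have hP : IsLaw P0 := isLaw_prod hR hZZ
  set P1 : (((R.Ω × G) × Z) × ((R.Ω × G) × Z)) × G → ℝ :=
    fun x => GbK_M R ζ x.1.1 * GbK_M R ζ x.1.2 * B x.2 with hP1
  set Φ : (((R.Ω × G) × Z) × ((R.Ω × G) × Z)) × G → ((Q.Ω × G) × (Q.Ω × G)) × G :=
    fun x => ((GbK_psi α β x.1.1, GbK_psi α β x.1.2), x.2) with hΦ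
  have hpush : ∀ a, lawR B Q a = pr P1 Φ a := by
    rintro ⟨⟨a1, a2⟩, b⟩
    have e1 := pr_prod (fun x : ((R.Ω × G) × Z) × ((R.Ω × G) × Z) =>
      GbK_M R ζ x.1 * GbK_M R ζ x.2) B (fun x => (GbK_psi α β x.1, GbK_psi (Q := Q) α β x.2))
      (fun x => x) (a1, a2) b
    rw [pr_prod (GbK_M R ζ) (GbK_M R ζ) (GbK_psi (Q := Q) α β) (GbK_psi α β) a1 a2,
      ← GbK_push h2 ζ α β h a1, ← GbK_push h2 ζ α β h a2,
      pr_single (P := B) (X := fun x => x) (a := b) b fun _ => Iff.rfl] at e1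
    exact e1.symm
  have hQ : ∀ {γ : Type} (X : ((Q.Ω × G) × (Q.Ω × G)) × G → γ),
      H (lawR B Q) X = H P0 (fun x => X (Φ ((GbK_e (R.Ω × G) Z G).symm x))) := by
    intro γ X
    rw [H_push Φ hpush X, H_equiv (GbK_e (R.Ω × G) Z G)]
    · rfl
    · intro x
      simp only [hP0, hP1, GbK_M, GbK_e, lawR, Equiv.coe_fn_mk]
      ring
  set U1 : (((R.Ω × G) × (R.Ω × G)) × G) × (Z × Z) → (R.Ω × Z) × G :=
    fun x => ((x.1.1.1.1, x.2.1), x.1.1.1.2 + β (x.1.1.1.1, x.2.1) + x.1.2) with hU1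
  set U2 : (((R.Ω × G) × (R.Ω × G)) × G) × (Z × Z) → (R.Ω × Z) × G :=
    fun x => ((x.1.1.2.1, x.2.2), x.1.1.2.2 + β (x.1.1.2.1, x.2.2) + x.1.2) with hU2
  have hd := dpi hP U1 U2 (fun u => (α u.1, u.2)) (fun u => (α u.1, u.2))
  have hU1e : H P0 U1 = H (lawR B R) (fun x => (x.1.1.1, x.1.1.2 + x.2)) + H ζ (fun z => z) := by
    rw [← GbK_fst hζ, ← H_prod hR hZZ]
    refine H_eq fun x x' => ?_
    simp only [hU1, Prod.mk.injEq]
    constructor
    · rintro ⟨⟨h3, h4⟩, h5⟩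
      rw [h3, h4] at h5
      refine ⟨⟨h3, ?_⟩, h4⟩
      rw [add_right_comm, add_right_comm (x'.1.1.1.2)] at h5
      exact add_right_cancel h5
    · rintro ⟨⟨h3, h5⟩, h4⟩
      refine ⟨⟨h3, h4⟩, ?_⟩
      rw [h3, h4, add_right_comm, h5, add_right_comm]
  have hU2e : H P0 U2 = H (lawR B R) (fun x => (x.1.2.1, x.1.2.2 + x.2)) + H ζ (fun z => z) := by
    rw [← GbK_snd hζ, ← H_prod hR hZZ]
    refine H_eq fun x x' => ?_
    simp only [hU2, Prod.mk.injEq]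
    constructor
    · rintro ⟨⟨h3, h4⟩, h5⟩
      rw [h3, h4] at h5
      refine ⟨⟨h3, ?_⟩, h4⟩
      rw [add_right_comm, add_right_comm (x'.1.1.2.2)] at h5
      exact add_right_cancel h5
    · rintro ⟨⟨h3, h5⟩, h4⟩
      refine ⟨⟨h3, h4⟩, ?_⟩
      rw [h3, h4, add_right_comm, h5, add_right_comm]
  have hU12 : H P0 (fun x => (U1 x, U2 x)) =
      H (lawR B R) (fun x => ((x.1.1.1, x.1.1.2 + x.2), (x.1.2.1, x.1.2.2 + x.2))) +
        (H ζ (fun z => z) + H ζ (fun z => z)) := by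
    rw [← H_prod hζ hζ, ← H_prod hR hZZ]
    refine H_eq fun x x' => ?_
    simp only [hU1, hU2, Prod.mk.injEq]
    constructor
    · rintro ⟨⟨⟨h3, h4⟩, h5⟩, ⟨h6, h7⟩, h8⟩
      rw [h3, h4] at h5
      rw [h6, h7] at h8
      rw [add_right_comm, add_right_comm (x'.1.1.1.2)] at h5
      rw [add_right_comm, add_right_comm (x'.1.1.2.2)] at h8
      exact ⟨⟨⟨h3, add_right_cancel h5⟩, ⟨h6, add_right_cancel h8⟩⟩, h4, h7⟩
    · rintro ⟨⟨⟨h3, h5⟩, ⟨h6, h8⟩⟩, h4, h7⟩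
      refine ⟨⟨⟨h3, h4⟩, ?_⟩, ⟨h6, h7⟩, ?_⟩
      · rw [h3, h4, add_right_comm, h5, add_right_comm]
      · rw [h6, h7, add_right_comm, h8, add_right_comm]
  rw [hQ, hQ, hQ]
  rw [hU1e, hU2e, hU12] at hd
  refine (le_of_eq ?_).trans (hd.trans (by linarith))
  rfl

end Pool.Agent.BRQ
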