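import Pool.Agent.BRQ.St

/-!
BRQ, module GbS: the sum of two copies is a covariant garbling, and garblings compose.
-/

set_option autoImplicit false

namespace Pool.Agent.BRQ

open Finset Real Pool.Agent.BR
open scoped Classical

theorem GbS_law {G : Type} [AddCommGroup G] [Fintype G] (R : RL G) : IsLaw (mR R) := by
  refine ⟨?_, ?_⟩
  · rintro ⟨a, x⟩
    unfold mR
    by_cases h : R.w a = 0
    · simp [h]
    · exact mul_nonneg (R.hw.nn _) ((R.hp a h).nn _)
  · rw [Fintype.sum_prod_type]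
    unfold mR
    have h1 : ∀ a : R.Ω, ∑ x, R.w a * R.p a x = R.w a := by
      intro a
      rw [← mul_sum]
      by_cases h : R.w a = 0
      · rw [h, zero_mul]
      · rw [(R.hp a h).sum, mul_one]
    simp only [h1]
    exact R.hw.sum

theorem GbS_self {G : Type} [AddCommGroup G] [Fintype G] (h2 : ∀ x : G, x + x = 0) (R : RL G) :
    Gb R R.S := by
  refine ⟨R.Ω × G, inferInstance, mR R, fun a => (a.1, a.2.1), fun a => a.2.2, GbS_law R, ?_⟩
  rintro ⟨a, b⟩ x
  have h0 : (R.S.w (a, b) * R.S.p (a, b) x : ℝ) = R.w a * R.w b * conv (R.p a) (R.p b) x := rfl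
  rw [h0, conv_comm h2]
  rw [Fintype.sum_prod_type]
  have h1 : ∀ a' : R.Ω, (∑ z : R.Ω × G, if ((a', z.1) : R.Ω × R.Ω) = (a, b) then
      R.w a' * mR R z * R.p a' (x + z.2) else 0) =
      if a' = a then R.w a' * R.w b * ∑ y, R.p b y * R.p a' (x + y) else 0 := by
    intro a'
    rw [Fintype.sum_prod_type]
    by_cases h : a' = a
    · rw [if_pos h]
      have h3 : ∀ b' : R.Ω, (∑ y : G, if ((a', b') : R.Ω × R.Ω) = (a, b) then
          R.w a' * mR R (b', y) * R.p a' (x + y) else 0) =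
          if b' = b then ∑ y : G, R.w a' * mR R (b', y) * R.p a' (x + y) else 0 := by
        intro b'
        by_cases hb : b' = b
        · rw [if_pos hb]
          refine sum_congr rfl fun y _ => ?_
          rw [if_pos (by rw [h, hb])]
        · rw [if_neg hb]
          refine sum_eq_zero fun y _ => ?_
          rw [if_neg (fun h4 => hb (Prod.mk.inj h4).2)]
      simp only [h3]
      rw [sum_ite_eq' univ b, if_pos (mem_univ _), mul_sum]
      refine sum_congr rfl fun y _ => ?_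
      unfold mR
      ring
    · rw [if_neg h]
      refine sum_eq_zero fun b' _ => sum_eq_zero fun y _ => ?_
      rw [if_neg (fun h4 => h (Prod.mk.inj h4).1)]
  symm
  trans (∑ a' : R.Ω, if a' = a then R.w a' * R.w b * ∑ y, R.p b y * R.p a' (x + y) else 0)
  · refine sum_congr rfl fun a' _ => ?_
    rw [← h1 a']
    refine sum_congr rfl fun z _ => ?_
    by_cases hz : ((a', z.1) : R.Ω × R.Ω) = (a, b)
    · exact (if_pos hz).trans (if_pos hz).symm
    · exact (if_neg hz).trans (if_neg hz).symm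
  · rw [sum_ite_eq' univ a, if_pos (mem_univ _)]
    rfl

theorem GbS_trans {G : Type} [AddCommGroup G] [Fintype G] (R Q T : RL G) (hRQ : Gb R Q)
    (hQT : Gb Q T) : Gb R T := by
  obtain ⟨Z₁, _, ζ₁, α₁, β₁, hζ₁, h1⟩ := hRQ
  obtain ⟨Z₂, _, ζ₂, α₂, β₂, hζ₂, h2⟩ := hQT
  refine ⟨Z₁ × Z₂, inferInstance, fun z => ζ₁ z.1 * ζ₂ z.2,
    fun a => α₂ (α₁ (a.1, a.2.1), a.2.2),
    fun a => β₁ (a.1, a.2.1) + β₂ (α₁ (a.1, a.2.1), a.2.2), isLaw_prod hζ₁ hζ₂, ?_⟩
  intro t x
  rw [h2 t x]
  set f : Q.Ω → Z₂ → R.Ω × Z₁ → ℝ := fun q z b =>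
    if α₂ (q, z) = t then R.w b.1 * ζ₁ b.2 * R.p b.1 (x + β₂ (q, z) + β₁ b) * ζ₂ z else 0 with hf
  calc ∑ a : Q.Ω × Z₂, (if α₂ a = t then Q.w a.1 * ζ₂ a.2 * Q.p a.1 (x + β₂ a) else 0)
      = ∑ q, ∑ z, ∑ b : R.Ω × Z₁, if α₁ b = q then f q z b else 0 := by
        rw [Fintype.sum_prod_type]
        refine sum_congr rfl fun q _ => sum_congr rfl fun z _ => ?_
        by_cases h : α₂ (q, z) = t
        · simp only [hf, if_pos h]
          have h3 := h1 q (x + β₂ (q, z))
          calc Q.w q * ζ₂ z * Q.p q (x + β₂ (q, z))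
              = (Q.w q * Q.p q (x + β₂ (q, z))) * ζ₂ z := by ring
            _ = _ := by
              rw [h3, sum_mul]
              refine sum_congr rfl fun b _ => ?_
              by_cases hb : α₁ b = q
              · rw [if_pos hb, if_pos hb]
              · rw [if_neg hb, if_neg hb, zero_mul]
        · simp only [hf, if_neg h, ite_self, sum_const_zero]
    _ = ∑ z, ∑ q, ∑ b : R.Ω × Z₁, (if α₁ b = q then f q z b else 0) := sum_comm
    _ = ∑ z, ∑ b : R.Ω × Z₁, ∑ q, (if α₁ b = q then f q z b else 0) :=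
        sum_congr rfl fun z _ => sum_comm
    _ = ∑ z, ∑ b : R.Ω × Z₁, f (α₁ b) z b := by
        refine sum_congr rfl fun z _ => sum_congr rfl fun b _ => ?_
        rw [sum_ite_eq univ (α₁ b), if_pos (mem_univ _)]
    _ = ∑ b : R.Ω × Z₁, ∑ z, f (α₁ b) z b := sum_comm
    _ = _ := by
        rw [Fintype.sum_prod_type, Fintype.sum_prod_type]
        refine sum_congr rfl fun r _ => ?_
        rw [Fintype.sum_prod_type]
        refine sum_congr rfl fun z₁ _ => sum_congr rfl fun z₂ _ => ?_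
        simp only [hf]
        by_cases h : α₂ (α₁ (r, z₁), z₂) = t
        · rw [if_pos h, if_pos h]
          have h4 : x + β₂ (α₁ (r, z₁), z₂) + β₁ (r, z₁) =
              x + (β₁ (r, z₁) + β₂ (α₁ (r, z₁), z₂)) := by abel
          rw [h4]
          ring
        · rw [if_neg h, if_neg h]

theorem thm_GbS : St_GbS := fun _ _ _ h2 R Q T => ⟨GbS_self h2 R, GbS_trans R Q T⟩

end Pool.Agent.BRQ
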