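import Pool.Agent.BRQ.St
import Pool.Agent.BR.Fin

/-!
BRQ (MP_68cffc_co), module Iter: iteration of the step.
-/

set_option autoImplicit false

namespace Pool.Agent.BRQ

open Finset Real Pool.Agent.BR
open scoped Classical

/-- Transport of a state along an isomorphism. -/
private theorem Iter_state {G G' : Type} [AddCommGroup G] [Fintype G] [AddCommGroup G']
    [Fintype G'] (f : G ≃+ G') (g : G → ℝ) (g' : G' → ℝ) (hg : ∀ x, g' (f x) = g x) (l e : ℝ)
    (h : State G g l e) : State G' g' l e := by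
  obtain ⟨h2, g0, g1, p, q, hp, hq, hD, ha⟩ := h
  have hcard : Fintype.card G' = Fintype.card G := Fintype.card_congr f.symm.toEquiv
  have hs : ∀ F : G → ℝ, ∑ x : G', F (f.symm x) = ∑ x, F x := fun F =>
    Fintype.sum_equiv f.symm.toEquiv (fun x : G' => F (f.symm x)) F fun x => rfl
  have hlaw : ∀ p : G → ℝ, IsLaw p → IsLaw (fun x : G' => p (f.symm x)) := fun p hp =>
    ⟨fun x => hp.nn _, (hs p).trans hp.sum⟩
  have hDf : ∀ p : G → ℝ, Df (fun x : G' => p (f.symm x)) = Df p := by
    intro p
    unfold Df ent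
    rw [hcard, hs (fun x => negMulLog (p x))]
  have hx : ∀ x : G', f (f.symm x) = x := fun x => f.apply_symm_apply x
  refine ⟨fun x => ?_, fun x => ?_, fun x => ?_, fun x => p (f.symm x), fun x => q (f.symm x),
    hlaw p hp, hlaw q hq, ?_, ?_⟩
  · have := congrArg f (h2 (f.symm x))
    rwa [map_add, hx, map_zero] at this
  · have := g0 (f.symm x)
    rwa [← hg, hx] at this
  · have := g1 (f.symm x)
    rwa [← hg, hx] at this
  · rw [hDf, hDf]
    exact hD
  · refine le_trans (le_of_eq ?_) ha
    unfold avv av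
    have e1 : ∀ x : G', ∑ y : G', q (f.symm y) * g' (x + y) =
        ∑ y, q y * g (f.symm x + y) := by
      intro x
      rw [← hs (fun y => q y * g (f.symm x + y))]
      refine sum_congr rfl fun y _ => ?_
      rw [← hg, map_add, hx, hx]
    simp only [e1]
    exact hs (fun x => p x * ∑ y, q y * g (x + y))

private theorem Iter_sub {G : Type} [AddCommGroup G] [Fintype G] (W1 : AddSubgroup G)
    (W2 : AddSubgroup W1) (g : G → ℝ) (c1 : G) (c2 : W1) (l e : ℝ)
    (h : State W2 (fun w : W2 => (fun w : W1 => g (c1 + w)) (c2 + w)) l e) :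
    ∃ W : AddSubgroup G,
      State W (fun w => g ((c1 + c2) + w)) l e ∧ cod W = cod W1 + cod W2 := by
  have hcard : Nat.card (W2.map W1.subtype) = Nat.card W2 :=
    Nat.card_congr (W2.equivMapOfInjective W1.subtype W1.subtype_injective).symm.toEquiv
  refine ⟨W2.map W1.subtype, ?_, ?_⟩
  · refine Iter_state (W2.equivMapOfInjective W1.subtype W1.subtype_injective) _ _ ?_ l e h
    intro w
    show g (c1 + c2 + ((w : W1) : G)) = g (c1 + ((c2 + (w : W1) : W1) : G))
    rw [AddSubgroup.coe_add, add_assoc]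
  · unfold cod
    rw [hcard, Nat.card_eq_fintype_card (α := W1)]
    ring

theorem thm_Iter (h : St_Step2) : St_Iter := by
  obtain ⟨C, hC, hS⟩ := h
  refine ⟨C, hC, fun m => ?_⟩
  induction m with
  | zero =>
    intro G _ _ g e xi hst he hxi h6
    refine ⟨⊤, 0, ?_, ?_⟩
    · have h1 : State (⊤ : AddSubgroup G) (fun w => g (0 + w)) (1 / 16) e := by
        refine Iter_state (AddSubgroup.topEquiv (G := G)).symm g _ ?_ (1 / 16) e ?_
        · intro x
          show g (0 + x) = g x
          rw [zero_add]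
        · have h2 := hst
          rw [pow_zero] at h2
          exact h2
      exact fin_state_mono h1 le_rfl (by linarith)
    · have h1 : cod (⊤ : AddSubgroup G) = 0 := by
        unfold cod
        rw [AddSubgroup.card_top, Nat.card_eq_fintype_card, sub_self]
      rw [h1]
      positivity
  | succ m ih =>
    intro G _ _ g e xi hst he hxi h6
    have h4 : (1 : ℝ) ≤ 4 ^ (m + 1) := one_le_pow₀ (by norm_num)
    obtain ⟨W1, c1, hW1, hc1⟩ := hS G g (4 ^ (m + 1) / 16) e xi hst (by linarith) he (by linarith)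
      hxi (by linarith)
    have el : (4 : ℝ) ^ (m + 1) / 16 / 4 = 4 ^ m / 16 := by
      rw [pow_succ]
      ring
    rw [el] at hW1
    obtain ⟨W2, c2, hW2, hc2⟩ := ih W1 (fun w => g (c1 + w)) (e + 2 * xi) (2 / 3 * xi) hW1
      (by linarith) (by linarith) (by linarith)
    obtain ⟨W, hW, hcod⟩ := Iter_sub W1 W2 g c1 c2 _ _ hW2
    refine ⟨W, c1 + c2, ?_, ?_⟩
    · have ee : e + 2 * xi + 6 * (2 / 3 * xi) = e + 6 * xi := by ring
      rw [ee] at hW
      exact hW
    · rw [hcod]
      obtain ⟨R, hR⟩ : ∃ R : ℝ, R = C * 16 ^ m / xi ^ 4 := ⟨_, rfl⟩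
      have hR0 : 0 ≤ R := by
        rw [hR]
        positivity
      have e1 : C * (4 ^ (m + 1) / 16) ^ 2 / xi ^ 4 = 1 / 16 * R := by
        have e0 : ((4 : ℝ) ^ m) ^ 2 = 16 ^ m := by
          rw [← pow_mul, mul_comm, pow_mul]
          norm_num
        rw [hR, pow_succ, ← e0]
        field_simp
        ring
      have e2 : C * 16 ^ m / (2 / 3 * xi) ^ 4 = 81 / 16 * R := by
        rw [hR]
        field_simp
        ring
      have e3 : C * 16 ^ (m + 1) / xi ^ 4 = 16 * R := by
        rw [hR, pow_succ]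
        ring
      rw [e1] at hc1
      rw [e2] at hc2
      rw [e3]
      linarith

end Pool.Agent.BRQ
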