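import Pool.Agent.BRQ.St
import Pool.Agent.BR.Fib

/-!
BRQ, module K1: the gain of two independent copies of the fibre law.
-/

set_option autoImplicit false

namespace Pool.Agent.BRQ

open Finset Real Pool.Agent.BR
open scoped Classical

theorem K1_sR {G : Type} [AddCommGroup G] [Fintype G] (R : RL G) :
    sR R = ∑ a : R.Ω, ∑ b : R.Ω, R.w a * R.w b * Df (conv (R.p a) (R.p b)) := by
  unfold sR aR
  exact Fintype.sum_prod_type
    (fun x : R.Ω × R.Ω => R.w x.1 * R.w x.2 * Df (conv (R.p x.1) (R.p x.2)))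

/-- The pointwise bound. -/
theorem K1_pt (h3 : St_K2mono) (h4 : Pool.Agent.BR.St_ThmA) {G : Type} [AddCommGroup G]
    [Fintype G] (h2 : ∀ x : G, x + x = 0) {B p q : G → ℝ} (hB : IsLaw B) (hS : Spread B)
    (hp : IsLaw p) (hq : IsLaw q) :
    3 / 4 * Df (conv p q) - 7 * (ent (conv (conv p q) (conv p q)) - ent (conv p q)) ≤
      K2 B p q := by
  have ht : IsLaw (conv p q) := conv_law hp hq
  have e1 := h3 G h2 B p q q p hB hp hq hq hp
  rw [conv_comm h2 q p] at e1
  have e2 := (thm_FibI G h2 B (conv p q) (conv p q) hB ht ht).2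
  have e3 := h4 G h2 B (conv p q) (conv p q) hB hS ht ht
  unfold K2 at e1
  unfold dd at e3
  have e4 : K2 B p q = Ib B p + Ib B q - ∑ z, conv p q z * Ib B (fib p q z) := rfl
  rw [e4]
  linarith

theorem thm_K1 (h1 : St_RLi) (h2 : St_TR) (h3 : St_K2mono) (h4 : Pool.Agent.BR.St_ThmA) :
    St_K1 := by
  intro G _ _ hG B R hB hS
  obtain ⟨-, -, e1⟩ := h1 G hG B R.C hB
  obtain ⟨-, e2⟩ := h2 G hG R
  have e3 : 3 / 4 * sR R.C - 7 * dR R ≤ kR B R.C := by
    rw [e1, K1_sR, dR, mul_sum, mul_sum, ← sum_sub_distrib]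
    refine sum_le_sum fun a _ => ?_
    rw [mul_sum, mul_sum, ← sum_sub_distrib]
    refine sum_le_sum fun b _ => ?_
    by_cases h : R.C.w a * R.C.w b = 0
    · rw [h]; simp
    · have hw : 0 ≤ R.C.w a * R.C.w b := mul_nonneg (R.C.hw.nn a) (R.C.hw.nn b)
      have h5 := K1_pt h3 h4 hG hB hS (R.C.hp a (left_ne_zero_of_mul h))
        (R.C.hp b (right_ne_zero_of_mul h))
      have h6 := mul_le_mul_of_nonneg_left h5 hw
      calc _ = R.C.w a * R.C.w b * (3 / 4 * Df (conv (R.C.p a) (R.C.p b)) -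
            7 * (ent (conv (conv (R.C.p a) (R.C.p b)) (conv (R.C.p a) (R.C.p b))) -
              ent (conv (R.C.p a) (R.C.p b)))) := by ring
        _ ≤ _ := h6
  linarith

end Pool.Agent.BRQ
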