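import Pool.Agent.BRQ.St
import Pool.Agent.BR.Fib

/-!
BRQ, module K2Rep: `K2` as a mutual information.
-/

set_option autoImplicit false

namespace Pool.Agent.BRQ

open Finset Real Pool.Agent.BR
open scoped Classical

theorem thm_K2Rep : St_K2Rep := by
  intro G _ _ h2 B p q hB hp hq
  set P : (G × G) × G → ℝ := fun ω => (conv p q ω.1.1 * fib p q ω.1.1 ω.1.2) * B ω.2 with hP
  set P0 : (G × G) × G → ℝ := fun ω => (p ω.1.1 * q ω.1.2) * B ω.2 with hP0
  have hl0 : IsLaw P0 := isLaw_prod (isLaw_prod hp hq) hB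
  have hPP : ∀ {α : Type} (X : (G × G) × G → α), H P X =
      H P0 (fun ω => X ((ω.1.1 + ω.1.2, ω.1.1), ω.2)) := by
    intro α X
    refine H_equiv (e := ⟨fun ω => ((ω.1.1 + ω.1.2, ω.1.1), ω.2),
      fun ω => ((ω.1.2, ω.1.2 + ω.1.1), ω.2), ?_, ?_⟩) ?_ X
    · rintro ⟨⟨a, b⟩, c⟩
      simp only [self_add_add h2]
    · rintro ⟨⟨a, b⟩, c⟩
      simp only [self_add_add h2]
    · rintro ⟨⟨a, b⟩, c⟩
      show (conv p q (a + b) * fib p q (a + b) a) * B c = (p a * q b) * B c
      rw [conv_mul_fib hp hq, self_add_add h2]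
  have hZ : ∀ z, pr P (fun ω => ω.1.1) z = conv p q z := by
    intro z
    have hS : conv p q z * ∑ x, fib p q z x = conv p q z := by
      rcases eq_or_ne (conv p q z) 0 with h0 | h0
      · rw [h0, zero_mul]
      · rw [(fib_law hp hq h0).sum, mul_one]
    refine Eq.trans ?_ hS
    unfold pr
    rw [sum_filter, Fintype.sum_prod_type, Fintype.sum_prod_type, sum_eq_single z]
    · rw [mul_sum]
      refine sum_congr rfl fun x _ => ?_
      simp only [hP, if_true]
      rw [← mul_sum, hB.sum, mul_one]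
    · intro c _ hc
      exact sum_eq_zero fun x _ => sum_eq_zero fun y _ => if_neg hc
    · simp
  have hR : ∀ z b, pr P (fun ω => (ω.1.1, ω.1.2 + ω.2)) (z, b) =
      pr P (fun ω => ω.1.1) z * conv (fib p q z) B b := by
    intro z b
    rw [hZ]
    unfold pr
    rw [sum_filter, Fintype.sum_prod_type, Fintype.sum_prod_type, sum_eq_single z]
    · unfold conv
      rw [mul_sum]
      refine sum_congr rfl fun x _ => ?_
      rw [sum_eq_single (b + x)]
      · rw [if_pos (by
          show (z, x + (b + x)) = (z, b)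
          rw [add_comm b x, self_add_add h2])]
        simp only [hP, conv]
        ring
      · intro x' _ hx'
        rw [if_neg]
        intro hh
        simp only [Prod.mk.injEq] at hh
        exact hx' ((add_eq_iff h2 _ _ _).1 hh.2)
      · simp
    · intro c _ hc
      refine sum_eq_zero fun x' _ => sum_eq_zero fun y _ => ?_
      rw [if_neg]
      intro hh
      simp only [Prod.mk.injEq] at hh
      exact hc hh.1
    · simp
  have h := H_fib (P := P) (fun ω => ω.1.1) (fun ω => ω.1.2 + ω.2)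
    (fun z => conv (fib p q z) B) (fun z hz => by
      rw [hZ] at hz
      exact (conv_law (fib_law hp hq hz) hB).sum) hR
  simp only [hZ] at h
  have e2 : H P (fun ω => ω.1.1) = ent (conv p q) := by
    rw [H_eq_univ]
    simp only [hZ]
    rfl
  rw [e2] at h
  have e1 : H P (fun ω => (ω.1.1, ω.1.2 + ω.2)) =
      H P0 (fun ω => (ω.1.1 + ω.1.2, ω.1.1 + ω.2)) := hPP _
  rw [e1] at h
  have e3 : H P0 (fun ω => ω.1.1 + ω.2) = ent (conv p B) := by
    have := H_add h2 (fun ω : G × G => p ω.1 * q ω.2) B (fun ω => ω.1) (fun x => x)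
    rw [pr_fst p hq, pr_id] at this
    exact this
  have e4 : H P0 (fun ω => ω.1.2 + ω.2) = ent (conv q B) := by
    have := H_add h2 (fun ω : G × G => p ω.1 * q ω.2) B (fun ω => ω.2) (fun x => x)
    rw [pr_snd q hp, pr_id] at this
    exact this
  have e6 : H P0 (fun ω => (ω.1.1 + ω.2, ω.1.2 + ω.2)) =
      H P0 (fun ω => (ω.1.1 + ω.1.2, ω.1.1 + ω.2)) := by
    refine H_eq ?_
    rintro ⟨⟨a, b⟩, c⟩ ⟨⟨a', b'⟩, c'⟩
    simp only [Prod.mk.injEq]
    constructor
    · rintro ⟨h1, h3⟩
      refine ⟨?_, h1⟩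
      have : (a + c) + (b + c) = (a' + c') + (b' + c') := by rw [h1, h3]
      have e : ∀ u v w : G, (u + w) + (v + w) = u + v := by
        intro u v w
        rw [add_add_add_comm, h2 w, add_zero]
      rwa [e, e] at this
    · rintro ⟨h1, h3⟩
      refine ⟨h3, ?_⟩
      have : (a + b) + (a + c) = (a' + b') + (a' + c') := by rw [h1, h3]
      have e : ∀ u v w : G, (u + v) + (u + w) = v + w := by
        intro u v w
        rw [add_add_add_comm, h2 u, zero_add]
      rwa [e, e] at this
  have e7 : H (law3 p q B) (fun x => (x.1 + x.2.2, x.2.1 + x.2.2)) =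
      H P0 (fun ω => (ω.1.1 + ω.2, ω.1.2 + ω.2)) := by
    refine H_equiv (e := Equiv.prodAssoc G G G) ?_ (fun x => (x.1 + x.2.2, x.2.1 + x.2.2))
    rintro ⟨⟨a, b⟩, c⟩
    show p a * (q b * B c) = (p a * q b) * B c
    ring
  rw [e7, e6]
  have hF := thm_FibEnt G h2 p q hp hq
  have hsum : ∑ z, conv p q z * Ib B (fib p q z) =
      ∑ z, conv p q z * ent (conv (fib p q z) B) - ∑ z, conv p q z * ent (fib p q z) := by
    rw [← sum_sub_distrib]
    refine sum_congr rfl fun z _ => ?_
    unfold Ib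
    ring
  unfold K2
  rw [hsum, hF]
  unfold Ib
  linarith

end Pool.Agent.BRQ
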