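import Pool.Agent.BRQ.St
import Pool.Agent.BR.Fib

/-!
K2mono: the mutual information of `X + B` and `Y + B` decreases when independent summands are added.
-/

set_option autoImplicit false

namespace Pool.Agent.BRQ

open Finset Real Pool.Agent.BR
open scoped Classical

section

variable {G : Type} [AddCommGroup G] [Fintype G]

omit [AddCommGroup G] in
theorem K2mono_law {p q B : G → ℝ} (hp : IsLaw p) (hq : IsLaw q) (hB : IsLaw B) :
    IsLaw (law3 p q B) := by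
  have h := isLaw_prod hp (isLaw_prod hq hB)
  exact h

theorem K2mono_snd (h2 : ∀ x : G, x + x = 0) {p : G → ℝ} (q B : G → ℝ) (hp : IsLaw p) :
    H (law3 p q B) (fun x => x.2.1 + x.2.2) = ent (conv q B) := by
  have h := H_push (P := law3 p q B) (Q := fun ω : G × G => q ω.1 * B ω.2) (fun x => x.2)
    (fun ω' => (congrFun (pr_snd (fun ω : G × G => q ω.1 * B ω.2) hp) ω').symm)
    (fun ω => ω.1 + ω.2)
  rw [← h, H_add' h2]

theorem K2mono_fst (h2 : ∀ x : G, x + x = 0) (p : G → ℝ) {q : G → ℝ} (B : G → ℝ)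
    (hq : IsLaw q) :
    H (law3 p q B) (fun x => x.1 + x.2.2) = ent (conv p B) := by
  have h := H_push (P := law3 p q B) (Q := fun ω : G × G => p ω.1 * B ω.2)
    (fun x => (x.1, x.2.2)) (fun ω' => ?_) (fun ω => ω.1 + ω.2)
  · rw [← h, H_add' h2]
  · obtain ⟨a, b⟩ := ω'
    have h1 := pr_prod p (fun ω : G × G => q ω.1 * B ω.2) (fun x => x) (fun ω => ω.2) a b
    rw [pr_snd B hq, pr_id] at h1
    exact h1.symm

theorem K2mono_push (h2 : ∀ x : G, x + x = 0) (B p q r s : G → ℝ) {α : Type}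
    (X : G × G × G → α) :
    H (fun ω : (G × G × G) × (G × G) => law3 p q B ω.1 * (r ω.2.1 * s ω.2.2))
      (fun ω => X (ω.1.1 + ω.2.1, ω.1.2.1 + ω.2.2, ω.1.2.2)) =
      H (law3 (conv p r) (conv q s) B) X := by
  have h1 := H_push (P := fun w : (G × G) × ((G × G) × G) =>
      (p w.1.1 * r w.1.2) * ((q w.2.1.1 * s w.2.1.2) * B w.2.2))
    (Q := law3 (conv p r) (conv q s) B)
    (fun w => (w.1.1 + w.1.2, (w.2.1.1 + w.2.1.2, w.2.2))) (fun ω' => by
      obtain ⟨a, b, c⟩ := ω'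
      have h3 := pr_prod (fun ω : G × G => p ω.1 * r ω.2)
        (fun ω : (G × G) × G => (q ω.1.1 * s ω.1.2) * B ω.2) (fun ω => ω.1 + ω.2)
        (fun ω => (ω.1.1 + ω.1.2, ω.2)) a (b, c)
      have h4 := pr_prod (fun ω : G × G => q ω.1 * s ω.2) B (fun ω => ω.1 + ω.2) (fun x => x) b c
      rw [h4, pr_sum h2, pr_sum h2, pr_id] at h3
      exact h3.symm) X
  rw [h1]
  have h5 := H_equiv (P := fun ω : (G × G × G) × (G × G) => law3 p q B ω.1 * (r ω.2.1 * s ω.2.2))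
    (Q := fun w : (G × G) × ((G × G) × G) =>
      (p w.1.1 * r w.1.2) * ((q w.2.1.1 * s w.2.1.2) * B w.2.2))
    (⟨fun ω => ((ω.1.1, ω.2.1), ((ω.1.2.1, ω.2.2), ω.1.2.2)),
      fun w => ((w.1.1, w.2.1.1, w.2.2), (w.1.2, w.2.1.2)), fun _ => rfl, fun _ => rfl⟩ :
      (G × G × G) × (G × G) ≃ (G × G) × ((G × G) × G)) (fun ω => by
        show (p ω.1.1 * r ω.2.1) * ((q ω.1.2.1 * s ω.2.2) * B ω.1.2.2) =
          (p ω.1.1 * (q ω.1.2.1 * B ω.1.2.2)) * (r ω.2.1 * s ω.2.2)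
        ring)
    (fun w => X (w.1.1 + w.1.2, (w.2.1.1 + w.2.1.2, w.2.2)))
  exact h5.symm

end

theorem thm_K2mono (h : St_K2Rep) : St_K2mono := by
  intro G _ _ h2 B p q r s hB hp hq hr hs
  rw [h G h2 B p q hB hp hq, h G h2 B (conv p r) (conv q s) hB (conv_law hp hr) (conv_law hq hs)]
  set P : (G × G × G) × (G × G) → ℝ := fun ω => law3 p q B ω.1 * (r ω.2.1 * s ω.2.2) with hP
  have hl3 : IsLaw (law3 p q B) := K2mono_law hp hq hB
  have hrs : IsLaw (fun ω : G × G => r ω.1 * s ω.2) := isLaw_prod hr hs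
  have hl : IsLaw P := isLaw_prod hl3 hrs
  have hd := dpi hl (fun ω => (ω.1.1 + ω.1.2.2, ω.2.1)) (fun ω => (ω.1.2.1 + ω.1.2.2, ω.2.2))
    (fun u => u.1 + u.2) (fun u => u.1 + u.2)
  -- the entropies of `U`, `V`, `(U, V)`
  have eU : H P (fun ω => (ω.1.1 + ω.1.2.2, ω.2.1)) = ent (conv p B) + ent r := by
    have h1 := H_prod hl3 hrs (fun x : G × G × G => x.1 + x.2.2) (fun ω : G × G => ω.1)
    refine h1.trans ?_
    rw [K2mono_fst h2 p B hq, H_eq_ent, pr_fst r hs]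
  have eV : H P (fun ω => (ω.1.2.1 + ω.1.2.2, ω.2.2)) = ent (conv q B) + ent s := by
    have h1 := H_prod hl3 hrs (fun x : G × G × G => x.2.1 + x.2.2) (fun ω : G × G => ω.2)
    refine h1.trans ?_
    rw [K2mono_snd h2 q B hp, H_eq_ent, pr_snd s hr]
  have eUV : H P (fun ω => ((ω.1.1 + ω.1.2.2, ω.2.1), (ω.1.2.1 + ω.1.2.2, ω.2.2))) =
      H (law3 p q B) (fun x => (x.1 + x.2.2, x.2.1 + x.2.2)) + (ent r + ent s) := by
    have h1 := H_prod hl3 hrs (fun x : G × G × G => (x.1 + x.2.2, x.2.1 + x.2.2))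
      (fun ω : G × G => (ω.1, ω.2))
    have h3 := H_prod hr hs (fun x : G => x) (fun x : G => x)
    rw [← ent_eq_H r, ← ent_eq_H s] at h3
    rw [h3] at h1
    refine Eq.trans (H_eq ?_) h1
    intro ω ω'
    simp only [Prod.mk.injEq]
    tauto
  -- the entropies after the sums
  have fU : H P (fun ω => (ω.1.1 + ω.1.2.2) + ω.2.1) = ent (conv (conv p r) B) := by
    rw [← K2mono_fst h2 (conv p r) B (conv_law hq hs), ← K2mono_push h2 B p q r s]
    congr 1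
    funext ω
    show (ω.1.1 + ω.1.2.2) + ω.2.1 = (ω.1.1 + ω.2.1) + ω.1.2.2
    exact add_right_comm _ _ _
  have fV : H P (fun ω => (ω.1.2.1 + ω.1.2.2) + ω.2.2) = ent (conv (conv q s) B) := by
    rw [← K2mono_snd h2 (conv q s) B (conv_law hp hr), ← K2mono_push h2 B p q r s]
    congr 1
    funext ω
    show (ω.1.2.1 + ω.1.2.2) + ω.2.2 = (ω.1.2.1 + ω.2.2) + ω.1.2.2
    exact add_right_comm _ _ _
  have fUV : H P (fun ω => ((ω.1.1 + ω.1.2.2) + ω.2.1, (ω.1.2.1 + ω.1.2.2) + ω.2.2)) =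
      H (law3 (conv p r) (conv q s) B) (fun x => (x.1 + x.2.2, x.2.1 + x.2.2)) := by
    rw [← K2mono_push h2 B p q r s]
    congr 1
    funext ω
    show ((ω.1.1 + ω.1.2.2) + ω.2.1, (ω.1.2.1 + ω.1.2.2) + ω.2.2) =
      ((ω.1.1 + ω.2.1) + ω.1.2.2, (ω.1.2.1 + ω.2.2) + ω.1.2.2)
    rw [add_right_comm ω.1.1, add_right_comm ω.1.2.1]
  rw [eU, eV, eUV] at hd
  change H P (fun ω => (ω.1.1 + ω.1.2.2) + ω.2.1) + H P (fun ω => (ω.1.2.1 + ω.1.2.2) + ω.2.2) -
    H P (fun ω => ((ω.1.1 + ω.1.2.2) + ω.2.1, (ω.1.2.1 + ω.1.2.2) + ω.2.2)) ≤ _ at hd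
  rw [fU, fV, fUV] at hd
  linarith

end Pool.Agent.BRQ
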