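import Pool.Agent.BRQ.St
import Pool.Agent.BR.LemT

/-!
BRQ, module KRep: `kR` as a mutual information.
-/

set_option autoImplicit false

namespace Pool.Agent.BRQ

open Finset Real Pool.Agent.BR
open scoped Classical

variable {G : Type} [AddCommGroup G] [Fintype G]

theorem KRep_mR_law (R : RL G) : IsLaw (mR R) := lemT_kern_law R.hw R.hp

omit [AddCommGroup G] in
theorem KRep_law3 {p q B : G → ℝ} (hp : IsLaw p) (hq : IsLaw q) (hB : IsLaw B) :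
    IsLaw (law3 p q B) :=
  isLaw_prod hp (isLaw_prod hq hB)

/-- one class and value, and `B` -/
theorem KRep_one (h2 : ∀ x : G, x + x = 0) {B : G → ℝ} (hB : IsLaw B) (R : RL G) :
    H (fun x : (R.Ω × G) × G => mR R x.1 * B x.2) (fun x => (x.1.1, x.1.2 + x.2)) =
      ent R.w + ∑ ω, R.w ω * ent (conv (R.p ω) B) := by
  have h := lemT_H_kern (M := R.w) (κ := fun ω (c : G × G) => R.p ω c.1 * B c.2)
    (fun ω hω => isLaw_prod (R.hp ω hω) hB) (fun c => c.1 + c.2)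
  simp only [pr_sum h2] at h
  rw [← h]
  refine H_equiv (P := fun ω : R.Ω × (G × G) => R.w ω.1 * (R.p ω.1 ω.2.1 * B ω.2.2))
    (Q := fun x : (R.Ω × G) × G => mR R x.1 * B x.2)
    (⟨fun ω => ((ω.1, ω.2.1), ω.2.2), fun x => (x.1.1, (x.1.2, x.2)), fun _ => rfl,
      fun _ => rfl⟩ : R.Ω × (G × G) ≃ (R.Ω × G) × G) (fun ω => ?_)
    (fun x => (x.1.1, x.1.2 + x.2))
  show R.w ω.1 * R.p ω.1 ω.2.1 * B ω.2.2 = R.w ω.1 * (R.p ω.1 ω.2.1 * B ω.2.2)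
  ring

theorem KRep_fst {B : G → ℝ} (R : RL G) :
    H (lawR B R) (fun x => (x.1.1.1, x.1.1.2 + x.2)) =
      H (fun x : (R.Ω × G) × G => mR R x.1 * B x.2) (fun x => (x.1.1, x.1.2 + x.2)) := by
  have h := lemT_marg_fst (M := fun x : (R.Ω × G) × G => mR R x.1 * B x.2)
    (κ := fun _ (c : R.Ω × G) => mR R c) (fun _ _ => KRep_mR_law R)
    (fun x => (x.1.1, x.1.2 + x.2))
  rw [← h]
  refine H_equiv
    (P := fun ω : ((R.Ω × G) × G) × (R.Ω × G) => (mR R ω.1.1 * B ω.1.2) * mR R ω.2)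
    (Q := lawR B R)
    (⟨fun ω => ((ω.1.1, ω.2), ω.1.2), fun x => ((x.1.1, x.2), x.1.2), fun _ => rfl,
      fun _ => rfl⟩ : ((R.Ω × G) × G) × (R.Ω × G) ≃ ((R.Ω × G) × (R.Ω × G)) × G) (fun ω => ?_)
    (fun x => (x.1.1.1, x.1.1.2 + x.2))
  show mR R ω.1.1 * mR R ω.2 * B ω.1.2 = mR R ω.1.1 * B ω.1.2 * mR R ω.2
  ring

theorem KRep_snd {B : G → ℝ} (R : RL G) :
    H (lawR B R) (fun x => (x.1.2.1, x.1.2.2 + x.2)) =
      H (fun x : (R.Ω × G) × G => mR R x.1 * B x.2) (fun x => (x.1.1, x.1.2 + x.2)) := by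
  have h := lemT_marg_fst (M := fun x : (R.Ω × G) × G => mR R x.1 * B x.2)
    (κ := fun _ (c : R.Ω × G) => mR R c) (fun _ _ => KRep_mR_law R)
    (fun x => (x.1.1, x.1.2 + x.2))
  rw [← h]
  refine H_equiv
    (P := fun ω : ((R.Ω × G) × G) × (R.Ω × G) => (mR R ω.1.1 * B ω.1.2) * mR R ω.2)
    (Q := lawR B R)
    (⟨fun ω => ((ω.2, ω.1.1), ω.1.2), fun x => ((x.1.2, x.2), x.1.1), fun _ => rfl,
      fun _ => rfl⟩ : ((R.Ω × G) × G) × (R.Ω × G) ≃ ((R.Ω × G) × (R.Ω × G)) × G) (fun ω => ?_)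
    (fun x => (x.1.2.1, x.1.2.2 + x.2))
  show mR R ω.2 * mR R ω.1.1 * B ω.1.2 = mR R ω.1.1 * B ω.1.2 * mR R ω.2
  ring

theorem KRep_pair {B : G → ℝ} (hB : IsLaw B) (R : RL G) :
    H (lawR B R) (fun x => ((x.1.1.1, x.1.1.2 + x.2), (x.1.2.1, x.1.2.2 + x.2))) =
      2 * ent R.w + ∑ a : R.Ω, ∑ b : R.Ω, R.w a * R.w b *
        H (law3 (R.p a) (R.p b) B) (fun x => (x.1 + x.2.2, x.2.1 + x.2.2)) := by
  have h := lemT_H_kern (M := fun z : R.Ω × R.Ω => R.w z.1 * R.w z.2)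
    (κ := fun z (c : G × G × G) => law3 (R.p z.1) (R.p z.2) B c)
    (fun z hz => KRep_law3 (R.hp _ (left_ne_zero_of_mul hz)) (R.hp _ (right_ne_zero_of_mul hz)) hB)
    (fun x => (x.1 + x.2.2, x.2.1 + x.2.2))
  simp only [← H_eq_ent] at h
  rw [Fintype.sum_prod_type, lemT_ent_prod R.hw R.hw, ← two_mul] at h
  rw [← h]
  have h3 := H_equiv
    (P := fun ω : (R.Ω × R.Ω) × (G × G × G) =>
      (R.w ω.1.1 * R.w ω.1.2) * law3 (R.p ω.1.1) (R.p ω.1.2) B ω.2)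
    (Q := lawR B R)
    (⟨fun ω => (((ω.1.1, ω.2.1), (ω.1.2, ω.2.2.1)), ω.2.2.2),
      fun x => ((x.1.1.1, x.1.2.1), (x.1.1.2, x.1.2.2, x.2)), fun _ => rfl,
      fun _ => rfl⟩ : (R.Ω × R.Ω) × (G × G × G) ≃ ((R.Ω × G) × (R.Ω × G)) × G) (fun ω => by
      show R.w ω.1.1 * R.p ω.1.1 ω.2.1 * (R.w ω.1.2 * R.p ω.1.2 ω.2.2.1) * B ω.2.2.2 =
        R.w ω.1.1 * R.w ω.1.2 * (R.p ω.1.1 ω.2.1 * (R.p ω.1.2 ω.2.2.1 * B ω.2.2.2))
      ring)
    (fun x => ((x.1.1.1, x.1.1.2 + x.2), (x.1.2.1, x.1.2.2 + x.2)))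
  rw [h3]
  refine H_eq fun ω ω' => ?_
  simp only [Equiv.coe_fn_mk, Prod.ext_iff]
  tauto

theorem thm_KRep (h1 : St_RLi) (h2 : St_K2Rep) : St_KRep := by
  intro G _ _ hx B R hB
  rw [(h1 G hx B R hB).2.2, KRep_fst, KRep_snd, KRep_one hx hB, KRep_pair hB]
  have e : ∀ a b : R.Ω, R.w a * R.w b * K2 B (R.p a) (R.p b) =
      R.w b * (R.w a * ent (conv (R.p a) B)) + R.w a * (R.w b * ent (conv (R.p b) B)) -
      R.w a * R.w b * H (law3 (R.p a) (R.p b) B) (fun x => (x.1 + x.2.2, x.2.1 + x.2.2)) := by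
    intro a b
    by_cases h0 : R.w a * R.w b = 0
    · rw [h0, zero_mul, zero_mul, sub_zero]
      rcases mul_eq_zero.1 h0 with h | h <;> rw [h] <;> ring
    · rw [h2 G hx B _ _ hB (R.hp _ (left_ne_zero_of_mul h0)) (R.hp _ (right_ne_zero_of_mul h0))]
      ring
  simp only [e, sum_sub_distrib, sum_add_distrib, ← mul_sum, ← sum_mul]
  rw [R.hw.sum]
  ring

end Pool.Agent.BRQ
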