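import Pool.Agent.BRQ.St
import Pool.Agent.BR.LemT

/-!
Lemma T for four laws (helper21).
-/

set_option autoImplicit false

namespace Pool.Agent.BRQ

open Finset Real Pool.Agent.BR
open scoped Classical

variable {G : Type} [AddCommGroup G] [Fintype G]

/-- the space of a pair of fibres in original coordinates -/
theorem LemT4_coord (h2 : ∀ x : G, x + x = 0) {p q p' q' : G → ℝ} (hp : IsLaw p) (hq : IsLaw q)
    (hp' : IsLaw p') (hq' : IsLaw q') {α : Type} (X : (G × G) × (G × G) → α) :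
    H (fun ω : (G × G) × (G × G) => (conv p q ω.1.1 * conv p' q' ω.1.2) *
        (fib p q ω.1.1 ω.2.1 * fib p' q' ω.1.2 ω.2.2)) X =
      H (law4 p q p' q') (fun x => X ((x.1 + x.2.1, x.2.2.1 + x.2.2.2), (x.1, x.2.2.1))) := by
  refine Eq.trans ?_
    (pair_coord h2 hp hq hp' hq' (fun ω => X ((ω.1.1, ω.2.1), (ω.1.2, ω.2.2))))
  refine H_equiv (P := fun ω : (G × G) × (G × G) => (conv p q ω.1.1 * fib p q ω.1.1 ω.1.2) *
        (conv p' q' ω.2.1 * fib p' q' ω.2.1 ω.2.2))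
    (Q := fun ω : (G × G) × (G × G) => (conv p q ω.1.1 * conv p' q' ω.1.2) *
        (fib p q ω.1.1 ω.2.1 * fib p' q' ω.1.2 ω.2.2))
    (⟨fun ω => ((ω.1.1, ω.2.1), (ω.1.2, ω.2.2)),
    fun ω => ((ω.1.1, ω.2.1), (ω.1.2, ω.2.2)), fun _ => rfl, fun _ => rfl⟩ :
      (G × G) × (G × G) ≃ (G × G) × (G × G)) (fun ω => ?_) X
  show (conv p q ω.1.1 * conv p' q' ω.2.1) * (fib p q ω.1.1 ω.1.2 * fib p' q' ω.2.1 ω.2.2) =
    (conv p q ω.1.1 * fib p q ω.1.1 ω.1.2) * (conv p' q' ω.2.1 * fib p' q' ω.2.1 ω.2.2)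
  exact mul_mul_mul_comm _ _ _ _

/-- `H(x + x' + z, z + z')` -/
theorem LemT4_V (h2 : ∀ x : G, x + x = 0) {p q p' q' : G → ℝ} (hp : IsLaw p) (hq : IsLaw q)
    (hp' : IsLaw p') (hq' : IsLaw q') :
    H (law4 p q p' q') (fun x => (x.1 + x.2.2.1 + (x.1 + x.2.1),
      (x.1 + x.2.1) + (x.2.2.1 + x.2.2.2))) = ent (conv q p') + ent (conv p q') := by
  rw [perm24]
  have h : H (law4 p q' p' q) (fun x => (x.1 + x.2.2.1 + (x.1 + x.2.2.2),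
      (x.1 + x.2.2.2) + (x.2.2.1 + x.2.1))) =
      H (law4 p q' p' q) (fun x => (x.1 + x.2.1, x.2.2.1 + x.2.2.2)) := by
    refine H_eq ?_
    rintro ⟨a, b, c, d⟩ ⟨a', b', c', d'⟩
    simp only [Prod.mk.injEq]
    have e : ∀ a b c d : G, (a + d) + (c + b) = (a + b) + (c + d) := by
      intro a b c d
      rw [add_comm c b, add_add_add_comm, add_comm d c]
    rw [tri' h2 a c d, tri' h2 a' c' d', e a b c d, e a' b' c' d']
    constructor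
    · rintro ⟨h1, h3⟩
      refine ⟨?_, h1⟩
      rw [h1] at h3
      exact add_right_cancel h3
    · rintro ⟨h1, h3⟩
      exact ⟨h3, by rw [h1, h3]⟩
  refine Eq.trans h ?_
  rw [H_two h2 hp hq' hp' hq, conv_comm h2 p' q]
  ring

/-- `H(x + x', z + z')` -/
theorem LemT4_W (h2 : ∀ x : G, x + x = 0) {p q p' q' : G → ℝ} (hp : IsLaw p) (hq : IsLaw q)
    (hp' : IsLaw p') (hq' : IsLaw q') :
    H (law4 p q p' q') (fun x => (x.1 + x.2.2.1, (x.1 + x.2.1) + (x.2.2.1 + x.2.2.2))) =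
      ent (conv p p') + ent (conv q q') := by
  rw [perm23]
  rw [← H_two h2 hp hp' hq hq']
  refine H_eq ?_
  rintro ⟨a, b, c, d⟩ ⟨a', b', c', d'⟩
  simp only [Prod.mk.injEq]
  rw [add_add_add_comm a c b d, add_add_add_comm a' c' b' d']
  constructor
  · rintro ⟨h1, h3⟩
    refine ⟨h1, ?_⟩
    rw [h1] at h3
    exact add_left_cancel h3
  · rintro ⟨h1, h3⟩
    exact ⟨h1, by rw [h1, h3]⟩

theorem thm_LemT4 : St_LemT4 := by
  intro G _ _ h2 p q p' q' hp hq hp' hq'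
  set M : G × G → ℝ := fun ζ => conv p q ζ.1 * conv p' q' ζ.2 with hMd
  set ρ : G × G → G × G → ℝ := fun ζ a => fib p q ζ.1 a.1 * fib p' q' ζ.2 a.2 with hρd
  have hm := conv_law hp hq
  have hm' := conv_law hp' hq'
  have hM : IsLaw M := isLaw_prod hm hm'
  have hρ : ∀ ζ, M ζ ≠ 0 → IsLaw (ρ ζ) := fun ζ h =>
    isLaw_prod (fib_law hp hq (left_ne_zero_of_mul h)) (fib_law hp' hq' (right_ne_zero_of_mul h))
  set κ : G × G → (G × G) × (G × G) → ℝ := fun ζ c => ρ ζ c.1 * ρ ζ c.2 with hκd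
  have hκ : ∀ ζ, M ζ ≠ 0 → IsLaw (κ ζ) := fun ζ h => isLaw_prod (hρ ζ h) (hρ ζ h)
  set P : (G × G) × ((G × G) × (G × G)) → ℝ := fun ω => M ω.1 * κ ω.1 ω.2 with hPd
  have hP : IsLaw P := lemT_kern_law hM hκ
  have hF : ∀ ζ, pr (ρ ζ) (fun a => a.1 + a.2) = conv (fib p q ζ.1) (fib p' q' ζ.2) :=
    fun ζ => pr_sum h2 _ _
  have hF2 : ∀ ζ, pr (κ ζ) (fun c => (c.1.1 + c.1.2, c.2.1 + c.2.2)) =
      fun u => conv (fib p q ζ.1) (fib p' q' ζ.2) u.1 * conv (fib p q ζ.1) (fib p' q' ζ.2) u.2 := by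
    intro ζ
    funext u
    have h := pr_prod (ρ ζ) (ρ ζ) (fun a => a.1 + a.2) (fun a => a.1 + a.2) u.1 u.2
    rw [hF] at h
    exact h
  have hF3 : ∀ ζ, pr (κ ζ) (fun c => (c.1.1 + c.1.2) + (c.2.1 + c.2.2)) =
      conv (conv (fib p q ζ.1) (fib p' q' ζ.2)) (conv (fib p q ζ.1) (fib p' q' ζ.2)) := by
    intro ζ
    have h := pr_add h2 (ρ ζ) (ρ ζ) (fun a => a.1 + a.2) (fun a => a.1 + a.2)
    rw [hF] at h
    exact h
  have entM : ent M = ent (conv p q) + ent (conv p' q') := by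
    rw [hMd, lemT_ent_prod hm hm']
  -- the two kernels
  have E1 : H P (fun ω => (ω.1, (ω.2.1.1 + ω.2.1.2, ω.2.2.1 + ω.2.2.2))) =
      ent M + 2 * ∑ z, ∑ z', conv p q z * conv p' q' z' * ent (conv (fib p q z) (fib p' q' z')) := by
    have h := lemT_H_kern (M := M) hκ (fun c => (c.1.1 + c.1.2, c.2.1 + c.2.2))
    refine h.trans ?_
    congr 1
    rw [Fintype.sum_prod_type, mul_sum]
    refine sum_congr rfl fun z _ => ?_
    rw [mul_sum]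
    refine sum_congr rfl fun z' _ => ?_
    rw [hF2]
    show conv p q z * conv p' q' z' * _ = _
    rcases eq_or_ne (conv p q z * conv p' q' z') 0 with h0 | h0
    · rw [h0]
      ring
    · have ht := conv_law (fib_law hp hq (left_ne_zero_of_mul h0))
        (fib_law hp' hq' (right_ne_zero_of_mul h0))
      rw [lemT_ent_prod ht ht]
      ring
  have E2 : H P (fun ω => (ω.1, (ω.2.1.1 + ω.2.1.2) + (ω.2.2.1 + ω.2.2.2))) =
      ent M + ∑ z, ∑ z', conv p q z * conv p' q' z' *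
        ent (conv (conv (fib p q z) (fib p' q' z')) (conv (fib p q z) (fib p' q' z'))) := by
    have h := lemT_H_kern (M := M) hκ (fun c => (c.1.1 + c.1.2) + (c.2.1 + c.2.2))
    refine h.trans ?_
    congr 1
    rw [Fintype.sum_prod_type]
    refine sum_congr rfl fun z _ => sum_congr rfl fun z' _ => ?_
    rw [hF3]
  -- entropies of the basic variables
  have eS : H P (fun ω => ω.1.1 + ω.1.2) = ent (conv (conv p q) (conv p' q')) := by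
    have h := lemT_marg_fst (M := M) hκ (fun ζ => ζ.1 + ζ.2)
    refine h.trans ?_
    exact H_add' h2 _ _
  have eZ : H P (fun ω => ω.1) = ent M := by
    have h := lemT_marg_fst (M := M) hκ (fun ζ => ζ)
    refine h.trans ?_
    rw [← ent_eq_H]
  have eV1 : H P (fun ω => (ω.2.1.1 + ω.2.1.2 + ω.1.1, ω.1.1 + ω.1.2)) =
      ent (conv q p') + ent (conv p q') := by
    have h := lemT_marg hρ (fun ω : (G × G) × (G × G) =>
      (ω.2.1 + ω.2.2 + ω.1.1, ω.1.1 + ω.1.2))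
    refine h.trans ?_
    rw [← LemT4_V h2 hp hq hp' hq']
    exact LemT4_coord h2 hp hq hp' hq' _
  have eV2 : H P (fun ω => (ω.2.2.1 + ω.2.2.2 + ω.1.1, ω.1.1 + ω.1.2)) =
      ent (conv q p') + ent (conv p q') := by
    have h := lemT_marg' hρ (fun ω : (G × G) × (G × G) =>
      (ω.2.1 + ω.2.2 + ω.1.1, ω.1.1 + ω.1.2))
    refine h.trans ?_
    rw [← LemT4_V h2 hp hq hp' hq']
    exact LemT4_coord h2 hp hq hp' hq' _
  have eW1 : H P (fun ω => (ω.2.1.1 + ω.2.1.2, ω.1.1 + ω.1.2)) =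
      ent (conv p p') + ent (conv q q') := by
    have h := lemT_marg hρ (fun ω : (G × G) × (G × G) => (ω.2.1 + ω.2.2, ω.1.1 + ω.1.2))
    refine h.trans ?_
    rw [← LemT4_W h2 hp hq hp' hq']
    exact LemT4_coord h2 hp hq hp' hq' _
  have eW2 : H P (fun ω => (ω.2.2.1 + ω.2.2.2, ω.1.1 + ω.1.2)) =
      ent (conv p p') + ent (conv q q') := by
    have h := lemT_marg' hρ (fun ω : (G × G) × (G × G) => (ω.2.1 + ω.2.2, ω.1.1 + ω.1.2))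
    refine h.trans ?_
    rw [← LemT4_W h2 hp hq hp' hq']
    exact LemT4_coord h2 hp hq hp' hq' _
  -- submodularity
  have s1 := H_submod hP
    (U := fun ω => (ω.2.1.1 + ω.2.1.2 + ω.1.1, ω.2.2.1 + ω.2.2.2, ω.1.1 + ω.1.2))
    (V := fun ω => (ω.2.2.1 + ω.2.2.2 + ω.1.1, ω.2.1.1 + ω.2.1.2, ω.1.1 + ω.1.2))
    (Z := fun ω => ((ω.2.1.1 + ω.2.1.2) + (ω.2.2.1 + ω.2.2.2) + ω.1.1, ω.1.1 + ω.1.2)) (by
      rintro ⟨⟨z, z'⟩, ⟨x, x'⟩, y, y'⟩ ⟨⟨w, w'⟩, ⟨u, u'⟩, v, v'⟩ h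
      simp only [Prod.mk.injEq] at h ⊢
      obtain ⟨h1, h3, h4⟩ := h
      exact ⟨by rw [add_right_comm, h1, h3, add_right_comm], h4⟩) (by
      rintro ⟨⟨z, z'⟩, ⟨x, x'⟩, y, y'⟩ ⟨⟨w, w'⟩, ⟨u, u'⟩, v, v'⟩ h
      simp only [Prod.mk.injEq] at h ⊢
      obtain ⟨h1, h3, h4⟩ := h
      exact ⟨by rw [add_assoc (x + x'), h1, h3, add_assoc (u + u')], h4⟩)
  have s2 := H_submod hP
    (U := fun ω => (ω.2.1.1 + ω.2.1.2 + ω.1.1, ω.1.1 + ω.1.2))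
    (V := fun ω => (ω.2.2.1 + ω.2.2.2, ω.1.1 + ω.1.2))
    (Z := fun ω => ω.1.1 + ω.1.2) (fun ω ω' h => (Prod.mk.inj h).2)
    (fun ω ω' h => (Prod.mk.inj h).2)
  have s3 := H_submod hP
    (U := fun ω => (ω.2.2.1 + ω.2.2.2 + ω.1.1, ω.1.1 + ω.1.2))
    (V := fun ω => (ω.2.1.1 + ω.2.1.2, ω.1.1 + ω.1.2))
    (Z := fun ω => ω.1.1 + ω.1.2) (fun ω ω' h => (Prod.mk.inj h).2)
    (fun ω ω' h => (Prod.mk.inj h).2)
  have s4 := H_submod hP (U := fun ω => ω.1)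
    (V := fun ω => ((ω.2.1.1 + ω.2.1.2) + (ω.2.2.1 + ω.2.2.2) + ω.1.1, ω.1.1 + ω.1.2))
    (Z := fun ω => ω.1.1 + ω.1.2) (fun ω ω' h => by
      show ω.1.1 + ω.1.2 = ω'.1.1 + ω'.1.2
      rw [h]) (fun ω ω' h => (Prod.mk.inj h).2)
  have l1 : H P (fun ω => ((ω.2.1.1 + ω.2.1.2 + ω.1.1, ω.2.2.1 + ω.2.2.2, ω.1.1 + ω.1.2),
      (ω.2.2.1 + ω.2.2.2 + ω.1.1, ω.2.1.1 + ω.2.1.2, ω.1.1 + ω.1.2))) =
      H P (fun ω => (ω.1, (ω.2.1.1 + ω.2.1.2, ω.2.2.1 + ω.2.2.2))) := by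
    refine H_eq ?_
    rintro ⟨⟨z, z'⟩, ⟨x, x'⟩, y, y'⟩ ⟨⟨w, w'⟩, ⟨u, u'⟩, v, v'⟩
    simp only [Prod.mk.injEq]
    constructor
    · rintro ⟨⟨h1, h3, h4⟩, h5, h6, -⟩
      rw [h6] at h1
      have h7 := add_left_cancel h1
      rw [h7] at h4
      exact ⟨⟨h7, add_left_cancel h4⟩, h6, h3⟩
    · rintro ⟨⟨h1, h3⟩, h4, h5⟩
      exact ⟨⟨by rw [h4, h1], h5, by rw [h1, h3]⟩, by rw [h5, h1], h4, by rw [h1, h3]⟩
  have l2 : H P (fun ω => ((ω.2.1.1 + ω.2.1.2 + ω.1.1, ω.1.1 + ω.1.2),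
      (ω.2.2.1 + ω.2.2.2, ω.1.1 + ω.1.2))) =
      H P (fun ω => (ω.2.1.1 + ω.2.1.2 + ω.1.1, ω.2.2.1 + ω.2.2.2, ω.1.1 + ω.1.2)) := by
    refine H_eq ?_
    intro ω ω'
    simp only [Prod.mk.injEq]
    constructor
    · rintro ⟨⟨h1, h3⟩, h4, -⟩
      exact ⟨h1, h4, h3⟩
    · rintro ⟨h1, h3, h4⟩
      exact ⟨⟨h1, h4⟩, h3, h4⟩
  have l3 : H P (fun ω => ((ω.2.2.1 + ω.2.2.2 + ω.1.1, ω.1.1 + ω.1.2),
      (ω.2.1.1 + ω.2.1.2, ω.1.1 + ω.1.2))) =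
      H P (fun ω => (ω.2.2.1 + ω.2.2.2 + ω.1.1, ω.2.1.1 + ω.2.1.2, ω.1.1 + ω.1.2)) := by
    refine H_eq ?_
    intro ω ω'
    simp only [Prod.mk.injEq]
    constructor
    · rintro ⟨⟨h1, h3⟩, h4, -⟩
      exact ⟨h1, h4, h3⟩
    · rintro ⟨h1, h3, h4⟩
      exact ⟨⟨h1, h4⟩, h3, h4⟩
  have l4 : H P (fun ω => (ω.1, ((ω.2.1.1 + ω.2.1.2) + (ω.2.2.1 + ω.2.2.2) + ω.1.1,
      ω.1.1 + ω.1.2))) =
      H P (fun ω => (ω.1, (ω.2.1.1 + ω.2.1.2) + (ω.2.2.1 + ω.2.2.2))) := by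
    refine H_eq ?_
    rintro ⟨⟨z, z'⟩, a⟩ ⟨⟨w, w'⟩, b⟩
    simp only [Prod.mk.injEq]
    constructor
    · rintro ⟨⟨h1, h3⟩, h4, -⟩
      rw [h1] at h4
      exact ⟨⟨h1, h3⟩, add_right_cancel h4⟩
    · rintro ⟨⟨h1, h3⟩, h4⟩
      exact ⟨⟨h1, h3⟩, by rw [h4, h1], by rw [h1, h3]⟩
  rw [l1, E1] at s1
  rw [l2, eS, eV1, eW2] at s2
  rw [l3, eS, eV2, eW1] at s3
  rw [l4, E2, eS, eZ] at s4
  rw [entM] at s1 s4
  linarith

end Pool.Agent.BRQ
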