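import Pool.Agent.BRQ.St

/-!
# BRQ [NumF]: the numbers of the climbing step
-/

set_option autoImplicit false

namespace Pool.Agent.BRQ

open Finset Real Pool.Agent.BR
open scoped Classical

/-- Bernoulli: if `c * (1 + d) ≤ x` then `c ^ 200 * (1 + 200 * d) ≤ x ^ 200` -/
theorem NumF_bern {c d x : ℝ} (hc : 0 ≤ c) (hd : 0 ≤ d) (hx : c * (1 + d) ≤ x) :
    c ^ 200 * (1 + 200 * d) ≤ x ^ 200 := by
  have h1 : (1 : ℝ) + ((200 : ℕ) : ℝ) * d ≤ (1 + d) ^ 200 :=
    one_add_mul_le_pow (by linarith) 200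
  have h2 : (c * (1 + d)) ^ 200 ≤ x ^ 200 :=
    pow_le_pow_left₀ (mul_nonneg hc (by linarith)) hx 200
  rw [mul_pow] at h2
  refine le_trans ?_ h2
  refine mul_le_mul_of_nonneg_left ?_ (pow_nonneg hc 200)
  have h3 : ((200 : ℕ) : ℝ) = 200 := by norm_num
  rw [h3] at h1
  exact h1

theorem NumF_one {r x : ℝ} (hr : 0 < r) (h : x ^ 200 < 27 / 20 * r ^ 199) :
    x ≤ r + 27 / 4000 := by
  by_contra hn
  have hn' : r * (1 + 27 / (4000 * r)) ≤ x := by
    have h1 : r * (1 + 27 / (4000 * r)) = r + 27 / 4000 := by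
      field_simp
    rw [h1]
    exact (not_le.1 hn).le
  have h2 := NumF_bern hr.le (by positivity) hn'
  have h3 : r ^ 200 * (1 + 200 * (27 / (4000 * r))) = r ^ 200 + 27 / 20 * r ^ 199 := by
    rw [show (200 : ℝ) * (27 / (4000 * r)) = 27 / 20 / r by field_simp; norm_num, mul_add, mul_one,
      pow_succ r 199]
    field_simp
  rw [h3] at h2
  have h4 : 0 < r ^ 200 := pow_pos hr 200
  linarith

theorem NumF_two {r y : ℝ} (hr : 0 < r) (hr1 : r ≤ 1) (h : (2 - r) * y ^ 200 < 27 / 10 * r ^ 200) :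
    y ≤ r * (1 + 17 / (2000 * (2 - r))) := by
  by_contra hn
  have h0 : (0 : ℝ) < 2 - r := by linarith
  have h2 := NumF_bern hr.le (by positivity) (not_le.1 hn).le
  have h3 : (2 - r) * (r ^ 200 * (1 + 200 * (17 / (2000 * (2 - r))))) =
      r ^ 200 * (2 - r + 17 / 10) := by
    rw [show (200 : ℝ) * (17 / (2000 * (2 - r))) = 17 / 10 / (2 - r) by field_simp; norm_num]
    field_simp
  have h4 := mul_le_mul_of_nonneg_left h2 h0.le
  rw [h3] at h4
  have h5 : 0 < r ^ 200 := pow_pos hr 200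
  have h6 : r ^ 200 * (27 / 10) ≤ r ^ 200 * (2 - r + 17 / 10) :=
    mul_le_mul_of_nonneg_left (by linarith) h5.le
  linarith

/-- NumF -/
theorem thm_NumF : St_NumF := by
  intro a s sg sC hs hsa hsg0 hsg1 hsC h1 h2
  have ha : 0 < a := lt_of_lt_of_le hs hsa
  have hr0 : 0 < s / a := div_pos hs ha
  have hr1 : s / a ≤ 1 := (div_le_one ha).2 hsa
  have hda : 0 < 2 * a - s := by linarith
  have has : a * (s / a) ^ 200 = s * (s / a) ^ 199 := by
    rw [pow_succ (s / a) 199]
    field_simp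
  -- first
  have hx : (sg / s) ^ 200 < 27 / 20 * (s / a) ^ 199 := by
    rw [has] at h1
    have h3 : s * (sg / s) ^ 200 < s * (27 / 20 * (s / a) ^ 199) := by
      calc s * (sg / s) ^ 200 < 27 / 20 * (s * (s / a) ^ 199) := h1
        _ = s * (27 / 20 * (s / a) ^ 199) := by ring
    exact lt_of_mul_lt_mul_left h3 hs.le
  have hx2 := NumF_one hr0 hx
  have hsg : sg ≤ s * (s / a + 27 / 4000) := by
    rw [div_le_iff₀ hs] at hx2
    linarith
  -- second
  have h2a : 2 * a - s = a * (2 - s / a) := by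
    field_simp
  have hy : (2 - s / a) * (sC / (2 * a - s)) ^ 200 < 27 / 10 * (s / a) ^ 200 := by
    have h3 : a * ((2 - s / a) * (sC / (2 * a - s)) ^ 200) < a * (27 / 10 * (s / a) ^ 200) := by
      calc a * ((2 - s / a) * (sC / (2 * a - s)) ^ 200)
          = a * (2 - s / a) * (sC / (2 * a - s)) ^ 200 := by rw [mul_assoc]
        _ = (2 * a - s) * (sC / (2 * a - s)) ^ 200 := by rw [← h2a]
        _ < 27 / 10 * (a * (s / a) ^ 200) := h2
        _ = a * (27 / 10 * (s / a) ^ 200) := by rw [mul_left_comm]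
    exact lt_of_mul_lt_mul_left h3 ha.le
  have hy2 := NumF_two hr0 hr1 hy
  have hsC2 : sC ≤ s * (2 - s / a + 17 / 2000) := by
    rw [div_le_iff₀ hda] at hy2
    have h0 : (0 : ℝ) < 2 - s / a := by linarith
    have h4 : s / a * (1 + 17 / (2000 * (2 - s / a))) * (2 * a - s) =
        s * (2 - s / a + 17 / 2000) := by
      rw [h2a]
      generalize hρ : s / a = ρ at *
      have hsρ : s = a * ρ := by
        rw [← hρ]
        field_simp
      rw [hsρ]
      field_simp
    rwa [h4] at hy2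
  have h5 : (s / a) ^ 199 ≤ 1 := pow_le_one₀ hr0.le hr1
  have h6 : s * (s / a) ^ 199 ≤ s := by
    calc s * (s / a) ^ 199 ≤ s * 1 := mul_le_mul_of_nonneg_left h5 hs.le
      _ = s := mul_one s
  rw [has]
  have h7 : s ≤ sC := by linarith
  have h8 : sg + sC ≤ s * (2 + 61 / 4000) := by
    calc sg + sC ≤ s * (s / a + 27 / 4000) + s * (2 - s / a + 17 / 2000) := add_le_add hsg hsC2
      _ = s * (2 + 61 / 4000) := by ring
  linarith

end Pool.Agent.BRQ
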