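import Pool.Agent.BRQ.St
import Pool.Agent.BR.OV

/-!
BRQ (MP_68cffc_co), module OV2: the one variable step with the linear inequality.
-/

set_option autoImplicit false

namespace Pool.Agent.BRQ

open Finset Real Pool.Agent.BR
open scoped Classical

theorem thm_OV2 (h1 : St_LemS) (h2 : St_Core) (h3 : St_Inv) (h5 : Pool.Agent.BR.St_DW)
    (h4 : St_SDPI) : St_OV2 := by
  obtain ⟨c0, hc0, hS⟩ := h4
  refine ⟨min c0 1, lt_min hc0 one_pos, min_le_right _ _, ?_⟩
  intro G _ _ hG K N g q hK hN hg0 hg1 hq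
  obtain ⟨B, ps, hB, hps, hpos, hD, hKL⟩ := h1 G hG K N g q hK hN hg0 hg1 hq
  obtain ⟨W, b, hm, hsp, hcod⟩ := h2 G hG B hB
  set ph := gib K (av g q) with hphd
  have hph : IsLaw ph := gib_law _ _
  have hW : IsLaw (fw W B b) := fw_law_of_pos hB.nn hm
  have hinv := h3 G hG W b (fw W B b) ph ps (K ^ 2 / N) hW hph hps hpos (fun w hw => by
    apply hKL
    intro h
    apply hw
    unfold fw
    rw [h, zero_div])
  refine ⟨W, by linarith, ?_⟩
  have hGW : ∀ x : W, x + x = 0 := by
    intro x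
    apply Subtype.ext
    exact hG _
  have hfw : ∀ x, IsLaw (fw W ph x) := fun x =>
    (h5 G W W ph hph).1 x (gib_pos _ _ x).ne'
  have hx : ∀ x, min c0 1 * Df (fw W ph x) ≤ Ib (fw W B b) (fw W ph x) := by
    intro x
    refine le_trans ?_ (hS W hGW (fw W B b) (fw W ph x) hW hsp (hfw x))
    exact mul_le_mul_of_nonneg_right (min_le_left _ _) (Df_nonneg (hfw x))
  calc min c0 1 * DW W ph = ∑ x, ph x * (min c0 1 * Df (fw W ph x)) := by
        unfold DW
        rw [mul_sum]
        refine sum_congr rfl fun x _ => by ring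
    _ ≤ ∑ x, ph x * Ib (fw W B b) (fw W ph x) :=
        sum_le_sum fun x _ => mul_le_mul_of_nonneg_left (hx x) (hph.nn x)
    _ ≤ K ^ 2 / N := hinv

end Pool.Agent.BRQ
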