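import Pool.Agent.BRQ.St
import Pool.Agent.BR.Fin

/-!
# BRQ: module Quad, quadratic codimension
-/

set_option autoImplicit false

namespace Pool.Agent.BRQ

open Finset Real Pool.Agent.BR
open scoped Classical

/-- a power of four near `16 l` -/
private theorem Quad_pow {l : ℝ} (hl : 1 ≤ l) : ∃ m : ℕ, 16 * l ≤ 4 ^ m ∧ (4 : ℝ) ^ m ≤ 64 * l := by
  obtain ⟨m0, hm0⟩ := pow_unbounded_of_one_lt (16 * l) (show (1 : ℝ) < 4 by norm_num)
  have hex : ∃ m : ℕ, 16 * l ≤ 4 ^ m := ⟨m0, hm0.le⟩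
  refine ⟨Nat.find hex, Nat.find_spec hex, ?_⟩
  have h0 : Nat.find hex ≠ 0 := by
    intro h
    have h1 := Nat.find_spec hex
    rw [h, pow_zero] at h1
    linarith
  obtain ⟨j, hj⟩ := Nat.exists_eq_succ_of_ne_zero h0
  have h2 : ¬ 16 * l ≤ (4 : ℝ) ^ j := Nat.find_min hex (by omega)
  rw [hj, Nat.succ_eq_add_one, pow_succ]
  push Not at h2
  linarith

theorem thm_Quad (h1 : St_Iter) (h2 : Pool.Agent.BR.St_End) : St_Quad := by
  obtain ⟨C, hC, hI⟩ := h1
  have hlog2 : (0 : ℝ) < log 2 := log_pos one_lt_two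
  refine ⟨C * 48 ^ 4 * 64 ^ 2 * 4 / log 2, by positivity, ?_⟩
  intro n A al hal hal1 hA
  have hinv : (1 : ℝ) ≤ 1 / al := by
    rw [le_div_iff₀ hal]
    linarith
  have hla : 0 ≤ log (1 / al) := log_nonneg hinv
  obtain ⟨l, hl⟩ : ∃ l, l = 2 * log (1 / al) + 1 := ⟨_, rfl⟩
  have hl1 : 1 ≤ l := by rw [hl]; linarith
  have hS := fin_state n A al hal hA
  rw [← hl] at hS
  obtain ⟨m, hm1, hm2⟩ := Quad_pow hl1
  have hS' := fin_state_mono (l' := 4 ^ m / 16) (e' := 0) hS (by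
    rw [le_div_iff₀ (by norm_num)]
    linarith) le_rfl
  obtain ⟨W, c, hW, hcod⟩ := hI m _ _ 0 (1 / 48) hS' le_rfl (by norm_num) (by norm_num)
  have hav : avc W (fun x => if ∃ a ∈ A, ∃ b ∈ A, x = a + b then (0 : ℝ) else 1) c ≤ 3 / 8 := by
    have h4 := h2 W _ _ hW
    unfold avc
    rw [Nat.card_eq_fintype_card]
    refine h4.trans ?_
    norm_num
  refine ⟨AddSubgroup.toZModSubmodule 2 W, fun v hv => fin_four n A W c hav v hv, ?_⟩
  have hc : (Nat.card W : ℝ) = 2 ^ Module.finrank (ZMod 2) (AddSubgroup.toZModSubmodule 2 W) := by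
    have h1 := Module.natCard_eq_pow_finrank (K := ZMod 2) (V := AddSubgroup.toZModSubmodule 2 W)
    rw [Nat.card_zmod] at h1
    have h2 : Nat.card W = Nat.card (AddSubgroup.toZModSubmodule 2 W) := rfl
    rw [h2, h1]
    push_cast
    ring
  have hcardG : (Fintype.card (Fin n → ZMod 2) : ℝ) = 2 ^ n := by
    rw [Fintype.card_fun, ZMod.card, Fintype.card_fin]
    push_cast
    ring
  have hcw : cod W = (n - Module.finrank (ZMod 2) (AddSubgroup.toZModSubmodule 2 W)) * log 2 := by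
    unfold cod
    rw [hc, hcardG, log_pow, log_pow]
    ring
  have hl2 : l ≤ 2 * log (2 / al) := by
    have h1 : log (2 / al) = log 2 + log (1 / al) := by
      rw [← log_mul (by norm_num) (by positivity)]
      congr 1
      ring
    rw [h1, hl]
    have := Real.log_two_gt_d9
    linarith
  have h16 : (16 : ℝ) ^ m ≤ (64 * l) ^ 2 := by
    have h5 : (16 : ℝ) ^ m = (4 ^ m) ^ 2 := by
      rw [← pow_mul, mul_comm m 2, pow_mul]
      norm_num
    rw [h5]
    exact pow_le_pow_left₀ (by positivity) hm2 2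
  have hl3 : (64 * l) ^ 2 ≤ 64 ^ 2 * (4 * log (2 / al) ^ 2) := by
    have h6 : l ^ 2 ≤ (2 * log (2 / al)) ^ 2 := pow_le_pow_left₀ (by linarith) hl2 2
    nlinarith
  have hfin : cod W ≤ C * 48 ^ 4 * 64 ^ 2 * 4 * log (2 / al) ^ 2 := by
    calc cod W ≤ C * 16 ^ m / (1 / 48) ^ 4 := hcod
      _ = C * 48 ^ 4 * 16 ^ m := by ring
      _ ≤ C * 48 ^ 4 * (64 ^ 2 * (4 * log (2 / al) ^ 2)) :=
          mul_le_mul_of_nonneg_left (h16.trans hl3) (by positivity)
      _ = C * 48 ^ 4 * 64 ^ 2 * 4 * log (2 / al) ^ 2 := by ring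
  rw [hcw] at hfin
  rw [div_mul_eq_mul_div, le_div_iff₀ hlog2]
  exact hfin

end Pool.Agent.BRQ
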