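import Pool.Agent.BRQ.St
import Pool.Agent.BR.Fib

/-!
BRQ RLa: average deficiencies of random laws.
-/

set_option autoImplicit false

namespace Pool.Agent.BRQ

open Finset Real Pool.Agent.BR
open scoped Classical

section

variable {G : Type} [AddCommGroup G] [Fintype G]

theorem RLa_nonneg (R : RL G) : 0 ≤ aR R := by
  unfold aR
  refine sum_nonneg fun ω _ => ?_
  by_cases h : R.w ω = 0
  · rw [h, zero_mul]
  · exact mul_nonneg (R.hw.nn ω) (Df_nonneg (R.hp ω h))

theorem RLa_S (R : RL G) : sR R =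
    ∑ a, ∑ b, R.w a * R.w b * Df (conv (R.p a) (R.p b)) := by
  show ∑ ω : R.Ω × R.Ω, R.w ω.1 * R.w ω.2 * Df (conv (R.p ω.1) (R.p ω.2)) = _
  rw [Fintype.sum_prod_type]

theorem RLa_fst (R : RL G) (f : R.Ω → ℝ) :
    ∑ a, ∑ b, R.w a * R.w b * f a = ∑ a, R.w a * f a := by
  refine sum_congr rfl fun a _ => ?_
  have h1 : ∀ b, R.w a * R.w b * f a = R.w b * (R.w a * f a) := fun b => by ring
  simp only [h1]
  rw [← sum_mul, R.hw.sum, one_mul]

theorem RLa_snd (R : RL G) (f : R.Ω → ℝ) :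
    ∑ a, ∑ b, R.w a * R.w b * f b = ∑ a, R.w a * f a := by
  rw [← RLa_fst R f, sum_comm]
  exact sum_congr rfl fun a _ => sum_congr rfl fun b _ => by ring

theorem RLa_le (h2 : ∀ x : G, x + x = 0) (R : RL G) : sR R ≤ aR R := by
  rw [RLa_S, aR, ← RLa_fst R fun a => Df (R.p a)]
  refine sum_le_sum fun a _ => sum_le_sum fun b _ => ?_
  by_cases h : R.w a * R.w b = 0
  · rw [h, zero_mul, zero_mul]
  · exact mul_le_mul_of_nonneg_left
      (Df_conv_le h2 (R.hp a (left_ne_zero_of_mul h)) (R.hp b (right_ne_zero_of_mul h)))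
      (mul_nonneg (R.hw.nn a) (R.hw.nn b))

theorem RLa_C (h2 : ∀ x : G, x + x = 0) (R : RL G) : aR R.C = 2 * aR R - sR R := by
  have h1 : aR R.C = ∑ a, ∑ b, ∑ z, R.w a * R.w b * conv (R.p a) (R.p b) z *
      Df (fib (R.p a) (R.p b) z) := by
    show ∑ ω : (R.Ω × R.Ω) × G, R.w ω.1.1 * R.w ω.1.2 * conv (R.p ω.1.1) (R.p ω.1.2) ω.2 *
      Df (fib (R.p ω.1.1) (R.p ω.1.2) ω.2) = _
    rw [Fintype.sum_prod_type, Fintype.sum_prod_type]
  have h3 : aR R.C = ∑ a, ∑ b, (R.w a * R.w b * Df (R.p a) + R.w a * R.w b * Df (R.p b) -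
      R.w a * R.w b * Df (conv (R.p a) (R.p b))) := by
    rw [h1]
    refine sum_congr rfl fun a _ => sum_congr rfl fun b _ => ?_
    by_cases h : R.w a * R.w b = 0
    · simp only [h, zero_mul, sum_const_zero, add_zero, sub_zero]
    · have hp := R.hp a (left_ne_zero_of_mul h)
      have hq := R.hp b (right_ne_zero_of_mul h)
      have h4 := thm_FibEnt G h2 (R.p a) (R.p b) hp hq
      have h5 := (conv_law hp hq).sum
      have h6 : ∑ z, conv (R.p a) (R.p b) z * Df (fib (R.p a) (R.p b) z) =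
          log (Fintype.card G) - ∑ z, conv (R.p a) (R.p b) z * ent (fib (R.p a) (R.p b) z) := by
        unfold Df
        simp only [mul_sub]
        rw [sum_sub_distrib, ← sum_mul, h5, one_mul]
      have h7 : ∑ z, R.w a * R.w b * conv (R.p a) (R.p b) z * Df (fib (R.p a) (R.p b) z) =
          R.w a * R.w b * ∑ z, conv (R.p a) (R.p b) z * Df (fib (R.p a) (R.p b) z) := by
        rw [mul_sum]
        exact sum_congr rfl fun z _ => by ring
      rw [h7, h6, h4]
      unfold Df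
      ring
  rw [h3]
  simp only [sum_sub_distrib, sum_add_distrib]
  rw [RLa_fst R fun a => Df (R.p a), RLa_snd R fun a => Df (R.p a), ← RLa_S, aR]
  ring

theorem RLa_log (R : RL G) : aR R ≤ log (Fintype.card G) := by
  have h1 : aR R ≤ ∑ ω, R.w ω * log (Fintype.card G) := by
    unfold aR
    refine sum_le_sum fun ω _ => ?_
    by_cases h : R.w ω = 0
    · rw [h, zero_mul, zero_mul]
    · exact mul_le_mul_of_nonneg_left (Df_le (R.hp ω h)) (R.hw.nn ω)
  rwa [← sum_mul, R.hw.sum, one_mul] at h1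

end

/-- RLa -/
theorem thm_RLa : St_RLa := by
  intro G _ _ h2 R
  exact ⟨RLa_C h2 R, RLa_nonneg R.S, RLa_le h2 R, RLa_log R, RLa_le h2 R.S⟩

end Pool.Agent.BRQ
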