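import Pool.Agent.BRQ.St
import Pool.Agent.BR.Fib

/-!
BRQ, RLi: the average gain of a random law and the average of `K2`.
-/

set_option autoImplicit false

namespace Pool.Agent.BRQ

open Finset Real Pool.Agent.BR
open scoped Classical

theorem RLi_iRC {G : Type} [AddCommGroup G] [Fintype G] (B : G → ℝ) (R : RL G) :
    iR B R.C = ∑ a : R.Ω, ∑ b : R.Ω, R.w a * R.w b *
      ∑ z, conv (R.p a) (R.p b) z * Ib B (fib (R.p a) (R.p b) z) := by
  have h1 : iR B R.C = ∑ x : (R.Ω × R.Ω) × G, R.w x.1.1 * R.w x.1.2 *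
      conv (R.p x.1.1) (R.p x.1.2) x.2 * Ib B (fib (R.p x.1.1) (R.p x.1.2) x.2) := rfl
  rw [h1, Fintype.sum_prod_type, Fintype.sum_prod_type]
  refine sum_congr rfl fun a _ => sum_congr rfl fun b _ => ?_
  rw [mul_sum]
  refine sum_congr rfl fun z _ => ?_
  ring

theorem RLi_iR {G : Type} [AddCommGroup G] [Fintype G] (B : G → ℝ) (R : RL G) :
    2 * iR B R = ∑ a : R.Ω, ∑ b : R.Ω, R.w a * R.w b * (Ib B (R.p a) + Ib B (R.p b)) := by
  have h1 : ∑ a : R.Ω, ∑ b : R.Ω, R.w a * R.w b * Ib B (R.p a) = iR B R := by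
    unfold iR
    refine sum_congr rfl fun a _ => ?_
    have : ∀ b : R.Ω, R.w a * R.w b * Ib B (R.p a) = R.w b * (R.w a * Ib B (R.p a)) := by
      intro b
      ring
    simp only [this]
    rw [← sum_mul, R.hw.sum, one_mul]
  have h2 : ∑ a : R.Ω, ∑ b : R.Ω, R.w a * R.w b * Ib B (R.p b) = iR B R := by
    unfold iR
    rw [sum_comm]
    refine sum_congr rfl fun b _ => ?_
    have : ∀ a : R.Ω, R.w a * R.w b * Ib B (R.p b) = R.w a * (R.w b * Ib B (R.p b)) := by
      intro a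
      ring
    simp only [this]
    rw [← sum_mul, R.hw.sum, one_mul]
  simp only [mul_add, sum_add_distrib]
  rw [h1, h2]
  ring

theorem thm_RLi : St_RLi := by
  intro G _ _ h2 B R hB
  have e : kR B R = ∑ a : R.Ω, ∑ b : R.Ω, R.w a * R.w b * K2 B (R.p a) (R.p b) := by
    unfold kR
    rw [RLi_iR, RLi_iRC, ← sum_sub_distrib]
    refine sum_congr rfl fun a _ => ?_
    rw [← sum_sub_distrib]
    refine sum_congr rfl fun b _ => ?_
    unfold K2
    ring
  refine ⟨?_, ?_, e⟩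
  · unfold iR
    refine sum_nonneg fun ω _ => ?_
    by_cases h : R.w ω = 0
    · rw [h, zero_mul]
    · exact mul_nonneg (R.hw.nn ω) (Ib_nonneg h2 hB (R.hp ω h))
  · rw [e]
    refine sum_nonneg fun a _ => sum_nonneg fun b _ => ?_
    by_cases ha : R.w a = 0
    · rw [ha, zero_mul, zero_mul]
    by_cases hb : R.w b = 0
    · rw [hb, mul_zero, zero_mul]
    refine mul_nonneg (mul_nonneg (R.hw.nn a) (R.hw.nn b)) ?_
    have := (thm_FibI G h2 B (R.p a) (R.p b) hB (R.hp a ha) (R.hp b hb)).1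
    unfold K2
    linarith

end Pool.Agent.BRQ
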