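import Pool.Agent.BRQ.St

/-!
# BRQ, module SDPI: constant strong data processing
-/

set_option autoImplicit false

namespace Pool.Agent.BRQ

open Finset Real Pool.Agent.BR
open scoped Classical

theorem thm_SDPI (h1 : St_RLa) (h2 : St_RLi) (h3 : St_TR) (h4 : St_K1) (h5 : St_GbS)
    (h6 : St_Find) (h7 : St_Seq) : St_SDPI := by
  obtain ⟨m, hm⟩ := exists_pow_lt_of_lt_one (show (0 : ℝ) < (1 / 50) ^ 200 by positivity)
    (show (20 / 27 : ℝ) < 1 by norm_num)
  obtain ⟨e, he⟩ : ∃ e : ℝ, e = (1 / 50) ^ 200 := ⟨_, rfl⟩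
  have he0 : 0 < e := by
    rw [he]
    positivity
  have he1 : e ≤ 1 := by
    rw [he]
    exact pow_le_one₀ (by norm_num) (by norm_num)
  rw [← he] at hm
  refine ⟨(1 / 50) * (e / 8) / (3 * (((m + 1 : ℕ) : ℝ) + 1)), by positivity, ?_⟩
  intro G _ _ hG B p hB hSB hp
  obtain ⟨R, hR⟩ : ∃ R : ℕ → RL G, R = fun k => (RL.C : RL G → RL G)^[k] (RL.one p hp) := ⟨_, rfl⟩
  have hR0 : R 0 = RL.one p hp := by rw [hR]; rfl
  have hRs : ∀ k, R (k + 1) = (R k).C := by
    intro k
    rw [hR]
    exact Function.iterate_succ_apply' _ _ _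
  have hRj : ∀ k j, R (k + j) = (RL.C : RL G → RL G)^[j] (R k) := by
    intro k j
    rw [hR]
    show (RL.C : RL G → RL G)^[k + j] (RL.one p hp) =
      (RL.C : RL G → RL G)^[j] ((RL.C : RL G → RL G)^[k] (RL.one p hp))
    rw [← Function.iterate_add_apply, add_comm]
  have ha0 : aR (R 0) = Df p := by
    rw [hR0]
    show ∑ ω : Unit, (1 : ℝ) * Df p = Df p
    simp
  have hi0 : iR B (R 0) = Ib B p := by
    rw [hR0]
    show ∑ ω : Unit, (1 : ℝ) * Ib B p = Ib B p
    simp
  have hmain := h7 (fun k => sR (R k)) (fun k => kR B (R k)) (Df p) (Ib B p)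
    (log (Fintype.card G)) (1 / 50) (e / 8) (m + 1) (by norm_num) (by norm_num) (by positivity)
    (by
      have h8 := h1 G hG (R 0)
      linarith [h8.2.1, h8.2.2.1, h8.2.2.2.1])
    (fun n => (h1 G hG (R n)).2.1)
    (fun n => by
      have h8 := h1 G hG (R n)
      show sR (R n) ≤ log (Fintype.card G)
      linarith [h8.2.2.1, h8.2.2.2.1])
    (fun n => (h2 G hG B (R n) hB).2.1)
    (by
      intro K
      have h8 : ∀ K : ℕ, iR B (R K) / 2 ^ K + ∑ n ∈ range K, kR B (R n) / 2 ^ (n + 1) = Ib B p := by
        intro K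
        induction K with
        | zero => rw [hi0, pow_zero, div_one, Finset.range_zero, Finset.sum_empty, add_zero]
        | succ K ih =>
          rw [Finset.sum_range_succ, ← ih]
          have h9 : kR B (R K) = 2 * iR B (R K) - iR B (R (K + 1)) := by
            rw [hRs]
            rfl
          rw [h9, pow_succ]
          have h10 : (0 : ℝ) < 2 ^ K := by positivity
          field_simp
          ring
      have h11 := h8 K
      have h12 : 0 ≤ iR B (R K) / 2 ^ K := div_nonneg (h2 G hG B (R K) hB).1 (by positivity)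
      show ∑ n ∈ range K, kR B (R n) / 2 ^ (n + 1) ≤ Ib B p
      linarith)
    (by
      intro K
      have h8 : ∀ K : ℕ, aR (R K) / 2 ^ K + ∑ n ∈ range K, sR (R n) / 2 ^ (n + 1) = Df p := by
        intro K
        induction K with
        | zero => rw [ha0, pow_zero, div_one, Finset.range_zero, Finset.sum_empty, add_zero]
        | succ K ih =>
          rw [Finset.sum_range_succ, ← ih]
          have h9 : aR (R (K + 1)) = 2 * aR (R K) - sR (R K) := by
            rw [hRs]
            exact (h1 G hG (R K)).1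
          rw [h9, pow_succ]
          have h10 : (0 : ℝ) < 2 ^ K := by positivity
          field_simp
          ring
      have h11 := h8 K
      have h12 : aR (R K) / 2 ^ K ≤ log (Fintype.card G) / 2 ^ K :=
        div_le_div_of_nonneg_right (h1 G hG (R K)).2.2.2.1 (by positivity)
      show Df p ≤ log (Fintype.card G) / 2 ^ K + ∑ n ∈ range K, sR (R n) / 2 ^ (n + 1)
      linarith)
    (by
      intro n
      show (∃ j ≤ m + 1, e / 8 * 2 ^ j * sR (R n) ≤ kR B (R (n + j))) ∨
        (2 + 1 / 50) * sR (R n) ≤ sR (R (n + 1))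
      have hs0 := (h1 G hG (R n)).2.1
      have hsg0 := (h1 G hG (R n).S).2.1
      rcases hs0.lt_or_eq with hs | hs
      · rcases le_or_gt ((1 / 50) * sR (R n)) (sR (R n).S) with hc | hc
        · left
          have haS : aR (R n).S = sR (R n) := rfl
          have hpow : e ≤ (sR (R n).S / sR (R n)) ^ 200 := by
            rw [he]
            apply pow_le_pow_left₀ (by norm_num)
            rw [le_div_iff₀ hs]
            exact hc
          obtain ⟨j, hj, hjQ⟩ := h6 G hG B hB hSB m (sR (R n)) (R n).S (by rw [haS]; exact hs)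
            (by rw [haS]) (by
              rw [haS]
              exact mul_le_mul_of_nonneg_left (hm.le.trans hpow) hs.le)
          have h8 := hjQ (R n) (h5 G hG (R n) (R n) (R n)).1
          rw [haS, ← hRj] at h8
          refine ⟨j + 1, by omega, ?_⟩
          refine le_trans ?_ h8
          have h9 : e / 8 * 2 ^ (j + 1) * sR (R n) = 1 / 4 * 2 ^ j * (sR (R n) * e) := by
            rw [pow_succ]
            ring
          rw [h9]
          apply mul_le_mul_of_nonneg_left _ (by positivity)
          exact mul_le_mul_of_nonneg_left hpow hs.le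
        · rcases le_or_gt ((2 + 1 / 50) * sR (R n)) (sR (R (n + 1))) with hd | hd
          · exact Or.inr hd
          · left
            obtain ⟨t1, t2⟩ := h3 G hG (R n)
            have hk := h4 G hG B (R n) hB hSB
            rw [← hRs] at t2 hk
            refine ⟨1, by omega, ?_⟩
            rw [pow_one]
            nlinarith
      · left
        refine ⟨0, Nat.zero_le _, ?_⟩
        rw [← hs, mul_zero]
        exact (h2 G hG B (R (n + 0)) hB).2.1)
  have hden : (0 : ℝ) < 3 * (((m + 1 : ℕ) : ℝ) + 1) := by positivity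
  have hnum : (0 : ℝ) < 1 / 50 * (e / 8) := by positivity
  have h9 : 3 * (((m + 1 : ℕ) : ℝ) + 1) / (1 / 50 * (e / 8)) * Ib B p =
      Ib B p / ((1 / 50) * (e / 8) / (3 * (((m + 1 : ℕ) : ℝ) + 1))) := by
    field_simp
  rw [h9, le_div_iff₀ (by positivity)] at hmain
  linarith

end Pool.Agent.BRQ
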