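import Pool.Agent.BRQ.St

set_option autoImplicit false

/-!
# BRQ, Seq: the sequences of the proof of Theorem SDPI
-/

namespace Pool.Agent.BRQ

open Finset Real Pool.Agent.BR Filter Topology
open scoped Classical

lemma Seq_step {s k : ℕ → ℝ} {c1 c2 : ℝ} {N : ℕ} (hc1 : 0 < c1) (hc1' : c1 ≤ 1) (hc2 : 0 < c2)
    (hs : ∀ n, 0 ≤ s n) (hk : ∀ n, 0 ≤ k n) (n : ℕ)
    (h : (∃ j ≤ N, c2 * 2 ^ j * s n ≤ k (n + j)) ∨ (2 + c1) * s n ≤ s (n + 1)) :
    (2 + c1) * (s n / 2 ^ (n + 1)) ≤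
      3 / c2 * ∑ i ∈ range (N + 1), k (n + i) / 2 ^ (n + i + 1) + 2 * (s (n + 1) / 2 ^ (n + 2)) := by
  have hu : 0 ≤ s n / 2 ^ (n + 1) := div_nonneg (hs n) (by positivity)
  have hu' : 0 ≤ s (n + 1) / 2 ^ (n + 2) := div_nonneg (hs _) (by positivity)
  have hv : ∀ i, 0 ≤ k (n + i) / 2 ^ (n + i + 1) := fun i => div_nonneg (hk _) (by positivity)
  rcases h with ⟨j, hj, h⟩ | h
  · have h1 : k (n + j) / 2 ^ (n + j + 1) ≤ ∑ i ∈ range (N + 1), k (n + i) / 2 ^ (n + i + 1) :=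
      single_le_sum (f := fun i => k (n + i) / 2 ^ (n + i + 1)) (fun i _ => hv i)
        (mem_range.2 (by omega))
    have h2 : c2 * (s n / 2 ^ (n + 1)) ≤ k (n + j) / 2 ^ (n + j + 1) := by
      rw [le_div_iff₀ (by positivity)]
      refine le_trans (le_of_eq ?_) h
      rw [show n + j + 1 = (n + 1) + j by ring, pow_add _ (n + 1) j]
      field_simp
    have h3 : s n / 2 ^ (n + 1) ≤ 1 / c2 * ∑ i ∈ range (N + 1), k (n + i) / 2 ^ (n + i + 1) := by
      rw [one_div, inv_mul_eq_div, le_div_iff₀ hc2, mul_comm]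
      exact h2.trans h1
    have h4 : 3 / c2 * ∑ i ∈ range (N + 1), k (n + i) / 2 ^ (n + i + 1) =
        3 * (1 / c2 * ∑ i ∈ range (N + 1), k (n + i) / 2 ^ (n + i + 1)) := by ring
    rw [h4]
    nlinarith
  · have h1 : (2 + c1) * (s n / 2 ^ (n + 1)) ≤ 2 * (s (n + 1) / 2 ^ (n + 2)) := by
      have e : 2 * (s (n + 1) / 2 ^ (n + 2)) = s (n + 1) / 2 ^ (n + 1) := by
        rw [show n + 2 = (n + 1) + 1 by ring, pow_succ (2 : ℝ) (n + 1)]
        field_simp
      rw [e, ← mul_div_assoc]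
      gcongr
    have h2 : 0 ≤ 3 / c2 * ∑ i ∈ range (N + 1), k (n + i) / 2 ^ (n + i + 1) :=
      mul_nonneg (by positivity) (sum_nonneg fun i _ => hv i)
    linarith

theorem thm_Seq : St_Seq := by
  intro s k a0 i0 L c1 c2 N hc1 hc1' hc2 hL hs hsL hk hi ha h
  have hi0 : 0 ≤ i0 := by simpa using hi 0
  have hv : ∀ n, 0 ≤ k n / 2 ^ (n + 1) := fun i => div_nonneg (hk _) (by positivity)
  have key : ∀ K : ℕ, a0 ≤ L / 2 ^ K + (3 * ((N + 1) * i0 / c2) + L / 2 ^ K) / c1 := by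
    intro K
    refine (ha K).trans ?_
    gcongr
    rw [le_div_iff₀ hc1]
    have h1 := sum_le_sum fun n (_ : n ∈ range K) => Seq_step hc1 hc1' hc2 hs hk n (h n)
    rw [sum_add_distrib, ← mul_sum, ← mul_sum, ← mul_sum, sum_comm] at h1
    have h2 : ∑ i ∈ range (N + 1), ∑ n ∈ range K, k (n + i) / 2 ^ (n + i + 1) ≤ (N + 1) * i0 := by
      have h3 : ∀ i ∈ range (N + 1), ∑ n ∈ range K, k (n + i) / 2 ^ (n + i + 1) ≤ i0 := by
        intro i _
        have h4 : ∑ n ∈ range (i + K), k n / 2 ^ (n + 1) ≤ i0 := hi (i + K)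
        rw [sum_range_add] at h4
        have h5 : 0 ≤ ∑ n ∈ range i, k n / 2 ^ (n + 1) := sum_nonneg fun n _ => hv n
        have h6 : ∑ n ∈ range K, k (n + i) / 2 ^ (n + i + 1) =
            ∑ n ∈ range K, k (i + n) / 2 ^ (i + n + 1) :=
          sum_congr rfl fun n _ => by rw [add_comm n i]
        rw [h6]
        linarith
      refine (sum_le_sum h3).trans ?_
      simp
    have h3 : ∑ n ∈ range K, s (n + 1) / 2 ^ (n + 2) ≤
        ∑ n ∈ range K, s n / 2 ^ (n + 1) + s K / 2 ^ (K + 1) := by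
      have h4 : ∑ n ∈ range (K + 1), s n / 2 ^ (n + 1) =
          ∑ n ∈ range K, s (n + 1) / 2 ^ (n + 2) + s 0 / 2 ^ 1 := by
        rw [sum_range_succ']
      have h5 : 0 ≤ s 0 / 2 ^ 1 := div_nonneg (hs 0) (by positivity)
      rw [sum_range_succ] at h4
      linarith
    have h4 : s K / 2 ^ (K + 1) ≤ L / 2 ^ K / 2 := by
      rw [pow_succ, ← div_div]
      gcongr
      exact hsL K
    have h5 : 3 / c2 * ∑ i ∈ range (N + 1), ∑ n ∈ range K, k (n + i) / 2 ^ (n + i + 1) ≤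
        3 * ((N + 1) * i0 / c2) := by
      rw [show 3 * ((N + 1) * i0 / c2) = 3 / c2 * ((N + 1) * i0) by ring]
      gcongr
    nlinarith
  have hlim : Tendsto (fun K : ℕ => L / 2 ^ K + (3 * ((N + 1) * i0 / c2) + L / 2 ^ K) / c1) atTop
      (𝓝 (0 + (3 * ((N + 1) * i0 / c2) + 0) / c1)) := by
    have h0 : Tendsto (fun K : ℕ => L / 2 ^ K) atTop (𝓝 0) := by
      have := tendsto_pow_atTop_nhds_zero_of_lt_one (r := (1 / 2 : ℝ)) (by norm_num) (by norm_num)
      have h2 := this.const_mul L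
      rw [mul_zero] at h2
      refine h2.congr fun K => ?_
      rw [one_div, inv_pow, div_eq_mul_inv]
    exact h0.add ((tendsto_const_nhds.add h0).div_const _)
  have hfin := ge_of_tendsto' hlim key
  refine hfin.trans (le_of_eq ?_)
  field_simp
  ring

end Pool.Agent.BRQ
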