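import Pool.Agent.BRQ.St
import Pool.Agent.BR.Step

/-!
BRQ (MP_68cffc_co), module Step2: the step of the iteration with quadratic codimension.
-/

set_option autoImplicit false

namespace Pool.Agent.BRQ

open Finset Real Pool.Agent.BR
open scoped Classical

/-- The numerical end of the step. -/
private lemma Step2_num (c xi l N dq dp : ℝ) (hc : 0 < c) (hxi0 : 0 < xi) (hxi1 : xi ≤ 1)
    (hl : 1 / 16 ≤ l) (hN0 : 0 ≤ N) (hN : N ≤ 24 * l / (c * xi ^ 3) + 1) (hq : dq ≤ l)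
    (hp : dp ≤ 2 * (l / xi)) :
    8 * N * dq + 8 * log 2 + (8 * N * dp + 8 * log 2) ≤ (576 / c + 4480) * l ^ 2 / xi ^ 4 := by
  have hl0 : 0 < l := by linarith
  have hlog : log 2 ≤ 1 := by
    have := Real.log_two_lt_d9
    linarith
  obtain ⟨R, hR⟩ : ∃ R : ℝ, R = l ^ 2 / xi ^ 4 := ⟨_, rfl⟩
  have hx4 : 0 < xi ^ 4 := by positivity
  have hx41 : xi ^ 4 ≤ xi := by
    calc xi ^ 4 ≤ xi ^ 1 := pow_le_pow_of_le_one hxi0.le hxi1 (by norm_num)
      _ = xi := pow_one _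
  have hR1 : l / xi ≤ 16 * R := by
    rw [hR, ← mul_div_assoc, div_le_div_iff₀ hxi0 hx4]
    have e1 : l ≤ 16 * l ^ 2 := by nlinarith
    calc l * xi ^ 4 ≤ 16 * l ^ 2 * xi ^ 4 := mul_le_mul_of_nonneg_right e1 hx4.le
      _ ≤ 16 * l ^ 2 * xi := mul_le_mul_of_nonneg_left hx41 (by positivity)
  have hR2 : 1 ≤ 256 * R := by
    rw [hR, ← mul_div_assoc, le_div_iff₀ hx4]
    have e1 : 1 ≤ 256 * l ^ 2 := by nlinarith
    have e2 : xi ^ 4 ≤ 1 := hx41.trans hxi1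
    linarith
  have hlx : l ≤ l / xi := by
    rw [le_div_iff₀ hxi0]
    nlinarith
  have hlx0 : 0 < l / xi := by positivity
  have h1 : 8 * N * dq + 8 * N * dp ≤ 24 * N * (l / xi) := by
    have e1 : 8 * N * dq ≤ 8 * N * (l / xi) :=
      mul_le_mul_of_nonneg_left (hq.trans hlx) (by positivity)
    have e2 : 8 * N * dp ≤ 8 * N * (2 * (l / xi)) := mul_le_mul_of_nonneg_left hp (by positivity)
    linarith
  have h2 : 24 * N * (l / xi) ≤ 24 * (24 * l / (c * xi ^ 3) + 1) * (l / xi) := by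
    apply mul_le_mul_of_nonneg_right _ hlx0.le
    linarith
  have h3 : 24 * (24 * l / (c * xi ^ 3) + 1) * (l / xi) = 576 / c * R + 24 * (l / xi) := by
    rw [hR]
    field_simp
    ring
  have e3 : (576 / c + 4480) * l ^ 2 / xi ^ 4 = 576 / c * R + 4480 * R := by
    rw [hR]
    ring
  rw [e3]
  linarith

theorem thm_Step2 (h1 : St_OV2) (h2 : Pool.Agent.BR.St_Gibbs) (h3 : Pool.Agent.BR.St_DW)
    (h4 : St_Choose2) : St_Step2 := by
  obtain ⟨c, hc0, hc1, hOV⟩ := h1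
  refine ⟨576 / c + 4480, by positivity, ?_⟩
  intro G _ _ g l e xi hst hl he0 he1 hxi0 hxi1
  obtain ⟨p, q, hp, hq, hpq, havv⟩ := hst.ex
  have hDp0 : 0 ≤ Df p := Df_nonneg hp
  have hDq0 : 0 ≤ Df q := Df_nonneg hq
  have hl0 : 0 < l := by linarith
  set K : ℝ := l / xi with hK
  have hKp : 0 < K := div_pos hl0 hxi0
  have hKl : l ≤ K := by
    rw [hK, le_div_iff₀ hxi0]
    nlinarith
  have hlK : l = K * xi := by rw [hK]; field_simp
  -- the first Gibbs law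
  set ph : G → ℝ := gib K (av g q) with hph
  obtain ⟨hphl, hphi⟩ := h2 G K (av g q) p hp
  have hph1 : Df ph + K * avv g ph q ≤ Df p + K * avv g p q := hphi
  have hDph0 : 0 ≤ Df ph := Df_nonneg hphl
  have hav1 : 0 ≤ avv g ph q := Step_avv_nonneg hst.g0 hphl hq
  have hb1 : K * avv g p q ≤ K * e := mul_le_mul_of_nonneg_left havv hKp.le
  have hDph : Df ph ≤ 2 * K := by
    have h5 : 0 ≤ K * avv g ph q := mul_nonneg hKp.le hav1
    have h6 : K * e ≤ K := by nlinarith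
    linarith
  -- the second Gibbs law
  set ch : G → ℝ := gib K (av g ph) with hch
  obtain ⟨hchl, hchi⟩ := h2 G K (av g ph) q hq
  have hch1 : Df ch + K * avv g ch ph ≤ Df q + K * avv g q ph := hchi
  have hDch0 : 0 ≤ Df ch := Df_nonneg hchl
  have hA2 : avv g ph ch ≤ e + xi := by
    rw [Step_avv_comm g ph ch]
    rw [Step_avv_comm g q ph] at hch1
    have : K * avv g ch ph ≤ K * (e + xi) := by nlinarith
    exact le_of_mul_le_mul_left this hKp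
  -- the number of samples
  set A : ℝ := 24 * l / (c * xi ^ 3) with hA
  have hAp : 0 < A := by positivity
  set N : ℕ := ⌈A⌉₊ with hN
  have hN1 : 1 ≤ N := Nat.one_le_iff_ne_zero.mpr (Nat.ceil_pos.mpr hAp).ne'
  have hNA : A ≤ (N : ℝ) := Nat.le_ceil A
  have hNA1 : (N : ℝ) < A + 1 := Nat.ceil_lt_add_one hAp.le
  have hNp : (0 : ℝ) < (N : ℝ) := lt_of_lt_of_le hAp hNA
  have hkey : ∀ d : ℝ, c * d ≤ K ^ 2 / N → d ≤ l * xi / 24 := by
    intro d hd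
    have h10 : K ^ 2 / N ≤ K ^ 2 / A := div_le_div_of_nonneg_left (by positivity) hAp hNA
    have h11 : K ^ 2 / A = c * (l * xi / 24) := by
      rw [hA, hK]
      field_simp
    have h12 : c * d ≤ c * (l * xi / 24) := by linarith
    exact le_of_mul_le_mul_left h12 hc0
  obtain ⟨W₁, hW1c, hW1d⟩ := hOV G hst.h2 K N g q hKp hN1 hst.g0 hst.g1 hq
  obtain ⟨W₂, hW2c, hW2d⟩ := hOV G hst.h2 K N g ph hKp hN1 hst.g0 hst.g1 hphl
  have hd1 : DW W₁ ph ≤ l * xi / 24 := hkey _ hW1d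
  have hd2 : DW W₂ ch ≤ l * xi / 24 := hkey _ hW2d
  have hm1 : DW (W₁ ⊓ W₂) ph ≤ DW W₁ ph := (h3 G (W₁ ⊓ W₂) W₁ ph hphl).2.2.1 inf_le_left
  have hm2 : DW (W₁ ⊓ W₂) ch ≤ DW W₂ ch := (h3 G (W₁ ⊓ W₂) W₂ ch hchl).2.2.1 inf_le_right
  have he2 : 0 < e + 2 * xi := by linarith
  obtain ⟨a, ha⟩ : ∃ a : ℝ, a = 4 * (e + 2 * xi) / l := ⟨_, rfl⟩
  have ha0 : 0 < a := by
    rw [ha]
    positivity
  obtain ⟨x, y, hx, hy, hxy⟩ := h4 G hst.h2 (W₁ ⊓ W₂) g ph ch a hphl hchl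
  have hDx : 0 ≤ Df (fw (W₁ ⊓ W₂) ph x) := Df_nonneg hx
  have hDy : 0 ≤ Df (fw (W₁ ⊓ W₂) ch y) := Df_nonneg hy
  have hvv : 0 ≤ avv (fun w : (W₁ ⊓ W₂ : AddSubgroup G) => g (x + y + w))
      (fw (W₁ ⊓ W₂) ph x) (fw (W₁ ⊓ W₂) ch y) :=
    Step_avv_nonneg (fun w => hst.g0 _) hx hy
  have hupper : avv g ph ch + a * (DW (W₁ ⊓ W₂) ph + DW (W₁ ⊓ W₂) ch) ≤ e + 2 * xi := by
    have e1 : a * (DW (W₁ ⊓ W₂) ph + DW (W₁ ⊓ W₂) ch) ≤ a * (l * xi / 12) :=
      mul_le_mul_of_nonneg_left (by linarith) ha0.le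
    have e2 : a * (l * xi / 12) = (e + 2 * xi) / 3 * xi := by
      rw [ha]
      field_simp
      ring
    have e3 : (e + 2 * xi) / 3 * xi ≤ 1 * xi :=
      mul_le_mul_of_nonneg_right (by linarith) hxi0.le
    linarith
  have hfin := hxy.trans hupper
  refine ⟨W₁ ⊓ W₂, x + y, ⟨?_, fun w => hst.g0 _, fun w => hst.g1 _, ?_⟩, ?_⟩
  · intro w
    apply Subtype.ext
    exact hst.h2 w.1
  · refine ⟨_, _, hx, hy, ?_, ?_⟩
    · have e1 : a * (Df (fw (W₁ ⊓ W₂) ph x) + Df (fw (W₁ ⊓ W₂) ch y)) ≤ a * (l / 4) := by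
        have e2 : a * (l / 4) = e + 2 * xi := by
          rw [ha]
          field_simp
        rw [e2]
        linarith
      exact le_of_mul_le_mul_left e1 ha0
    · have e1 : 0 ≤ a * (Df (fw (W₁ ⊓ W₂) ph x) + Df (fw (W₁ ⊓ W₂) ch y)) := by positivity
      linarith
  -- the codimension
  have hc2 := Step_cod_inf W₁ W₂
  have hend := Step2_num c xi l N (Df q) (Df ph) hc0 hxi0 hxi1 hl hNp.le hNA1.le (by linarith) hDph
  linarith

end Pool.Agent.BRQ
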