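import Pool.Agent.BRQ.St

/-!
BRQ/TR (helper96): Lemma T averaged over four independent classes.
-/

set_option autoImplicit false

namespace Pool.Agent.BRQ

open Finset Real Pool.Agent.BR
open scoped Classical

section TRgen

variable {Ω : Type} [Fintype Ω] {w : Ω → ℝ}

theorem TR_fst (hw : ∑ x, w x = 1) (f : Ω → ℝ) :
    ∑ x : Ω × Ω, w x.1 * w x.2 * f x.1 = ∑ a, w a * f a := by
  rw [Fintype.sum_prod_type]
  refine sum_congr rfl fun a _ => ?_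
  have h : ∀ b, w a * w b * f a = w a * f a * w b := by
    intro b
    ring
  simp only [h, ← mul_sum, hw, mul_one]

theorem TR_snd (hw : ∑ x, w x = 1) (f : Ω → ℝ) :
    ∑ x : Ω × Ω, w x.1 * w x.2 * f x.2 = ∑ a, w a * f a := by
  rw [Fintype.sum_prod_type]
  have h : ∀ a b, w a * w b * f b = w a * (w b * f b) := by
    intro a b
    ring
  simp only [h, ← mul_sum]
  rw [← sum_mul, hw, one_mul]

theorem TR_11 (hw : ∑ x, w x = 1) (F : Ω → Ω → ℝ) :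
    ∑ x : Ω × Ω, ∑ y : Ω × Ω, w x.1 * w x.2 * (w y.1 * w y.2) * F x.1 y.1 =
      ∑ a, ∑ b, w a * w b * F a b := by
  have h1 : ∀ x : Ω × Ω, ∑ y : Ω × Ω, w x.1 * w x.2 * (w y.1 * w y.2) * F x.1 y.1 =
      w x.1 * w x.2 * ∑ b, w b * F x.1 b := by
    intro x
    rw [← TR_fst hw (F x.1), mul_sum]
    exact sum_congr rfl fun y _ => by ring
  rw [sum_congr rfl fun x _ => h1 x, TR_fst hw (fun a => ∑ b, w b * F a b)]
  refine sum_congr rfl fun a _ => ?_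
  rw [mul_sum]
  exact sum_congr rfl fun b _ => by ring

theorem TR_12 (hw : ∑ x, w x = 1) (F : Ω → Ω → ℝ) :
    ∑ x : Ω × Ω, ∑ y : Ω × Ω, w x.1 * w x.2 * (w y.1 * w y.2) * F x.1 y.2 =
      ∑ a, ∑ b, w a * w b * F a b := by
  have h1 : ∀ x : Ω × Ω, ∑ y : Ω × Ω, w x.1 * w x.2 * (w y.1 * w y.2) * F x.1 y.2 =
      w x.1 * w x.2 * ∑ b, w b * F x.1 b := by
    intro x
    rw [← TR_snd hw (F x.1), mul_sum]
    exact sum_congr rfl fun y _ => by ring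
  rw [sum_congr rfl fun x _ => h1 x, TR_fst hw (fun a => ∑ b, w b * F a b)]
  refine sum_congr rfl fun a _ => ?_
  rw [mul_sum]
  exact sum_congr rfl fun b _ => by ring

theorem TR_21 (hw : ∑ x, w x = 1) (F : Ω → Ω → ℝ) :
    ∑ x : Ω × Ω, ∑ y : Ω × Ω, w x.1 * w x.2 * (w y.1 * w y.2) * F x.2 y.1 =
      ∑ a, ∑ b, w a * w b * F a b := by
  have h1 : ∀ x : Ω × Ω, ∑ y : Ω × Ω, w x.1 * w x.2 * (w y.1 * w y.2) * F x.2 y.1 =
      w x.1 * w x.2 * ∑ b, w b * F x.2 b := by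
    intro x
    rw [← TR_fst hw (F x.2), mul_sum]
    exact sum_congr rfl fun y _ => by ring
  rw [sum_congr rfl fun x _ => h1 x, TR_snd hw (fun a => ∑ b, w b * F a b)]
  refine sum_congr rfl fun a _ => ?_
  rw [mul_sum]
  exact sum_congr rfl fun b _ => by ring

theorem TR_22 (hw : ∑ x, w x = 1) (F : Ω → Ω → ℝ) :
    ∑ x : Ω × Ω, ∑ y : Ω × Ω, w x.1 * w x.2 * (w y.1 * w y.2) * F x.2 y.2 =
      ∑ a, ∑ b, w a * w b * F a b := by
  have h1 : ∀ x : Ω × Ω, ∑ y : Ω × Ω, w x.1 * w x.2 * (w y.1 * w y.2) * F x.2 y.2 =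
      w x.1 * w x.2 * ∑ b, w b * F x.2 b := by
    intro x
    rw [← TR_snd hw (F x.2), mul_sum]
    exact sum_congr rfl fun y _ => by ring
  rw [sum_congr rfl fun x _ => h1 x, TR_snd hw (fun a => ∑ b, w b * F a b)]
  refine sum_congr rfl fun a _ => ?_
  rw [mul_sum]
  exact sum_congr rfl fun b _ => by ring

theorem TR_B1 (hw : ∑ x, w x = 1) (F : Ω × Ω → ℝ) :
    ∑ x : Ω × Ω, ∑ y : Ω × Ω, w x.1 * w x.2 * (w y.1 * w y.2) * F x =
      ∑ x : Ω × Ω, w x.1 * w x.2 * F x := by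
  refine sum_congr rfl fun x _ => ?_
  have h := TR_fst hw (fun _ => (1 : ℝ))
  simp only [mul_one] at h
  have h1 : ∀ y : Ω × Ω, w x.1 * w x.2 * (w y.1 * w y.2) * F x =
      w x.1 * w x.2 * F x * (w y.1 * w y.2) := by
    intro y
    ring
  simp only [h1]
  rw [← mul_sum, h, hw, mul_one]

theorem TR_B2 (hw : ∑ x, w x = 1) (F : Ω × Ω → ℝ) :
    ∑ x : Ω × Ω, ∑ y : Ω × Ω, w x.1 * w x.2 * (w y.1 * w y.2) * F y =
      ∑ x : Ω × Ω, w x.1 * w x.2 * F x := by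
  rw [sum_comm, ← TR_B1 hw F]
  refine sum_congr rfl fun x _ => sum_congr rfl fun y _ => ?_
  ring

end TRgen

variable {G : Type} [AddCommGroup G] [Fintype G]

/-- sums over two classes of `C R` -/
theorem TR_C (R : RL G) (F : R.C.Ω → R.C.Ω → ℝ) :
    ∑ a : R.C.Ω, ∑ b : R.C.Ω, R.C.w a * R.C.w b * F a b =
      ∑ x : R.Ω × R.Ω, ∑ y : R.Ω × R.Ω, R.w x.1 * R.w x.2 * (R.w y.1 * R.w y.2) *
        ∑ z : G, ∑ z' : G, conv (R.p x.1) (R.p x.2) z * conv (R.p y.1) (R.p y.2) z' *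
          F (x, z) (y, z') := by
  refine (Fintype.sum_prod_type (fun a : (R.Ω × R.Ω) × G =>
    ∑ b : R.C.Ω, R.C.w a * R.C.w b * F a b)).trans ?_
  refine sum_congr rfl fun x _ => ?_
  have h1 : ∀ z : G, ∑ b : R.C.Ω, R.C.w (x, z) * R.C.w b * F (x, z) b =
      ∑ y : R.Ω × R.Ω, ∑ z' : G, R.C.w (x, z) * R.C.w (y, z') * F (x, z) (y, z') := fun z =>
    Fintype.sum_prod_type (fun b : (R.Ω × R.Ω) × G => R.C.w (x, z) * R.C.w b * F (x, z) b)
  rw [sum_congr rfl fun z _ => h1 z, sum_comm]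
  refine sum_congr rfl fun y _ => ?_
  simp only [mul_sum]
  refine sum_congr rfl fun z _ => sum_congr rfl fun z' _ => ?_
  show (R.w x.1 * R.w x.2 * conv (R.p x.1) (R.p x.2) z) *
    (R.w y.1 * R.w y.2 * conv (R.p y.1) (R.p y.2) z') * F (x, z) (y, z') = _
  ring

/-- **TR** -/
theorem thm_TR (h : St_LemT4) : St_TR := by
  intro G _ _ h2 R
  have hw := R.hw.sum
  set L : ℝ := log (Fintype.card G) with hL
  constructor
  · unfold dR
    refine sum_nonneg fun a _ => sum_nonneg fun b _ => ?_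
    by_cases ha : R.C.w a = 0
    · rw [ha, zero_mul, zero_mul]
    by_cases hb : R.C.w b = 0
    · rw [hb, mul_zero, zero_mul]
    have ht := conv_law (R.C.hp a ha) (R.C.hp b hb)
    exact mul_nonneg (mul_nonneg (R.C.hw.nn a) (R.C.hw.nn b))
      (sub_nonneg.2 (ent_le_conv h2 ht ht))
  -- the averages
  set e : R.Ω → R.Ω → ℝ := fun a b => L - ent (conv (R.p a) (R.p b)) with he
  set e4 : R.Ω × R.Ω → R.Ω × R.Ω → ℝ := fun x y =>
    L - ent (conv (conv (R.p x.1) (R.p x.2)) (conv (R.p y.1) (R.p y.2))) with he4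
  set T1 : R.Ω × R.Ω → R.Ω × R.Ω → ℝ := fun x y =>
    ∑ z, ∑ z', conv (R.p x.1) (R.p x.2) z * conv (R.p y.1) (R.p y.2) z' *
      ent (conv (conv (fib (R.p x.1) (R.p x.2) z) (fib (R.p y.1) (R.p y.2) z'))
        (conv (fib (R.p x.1) (R.p x.2) z) (fib (R.p y.1) (R.p y.2) z'))) with hT1
  set T2 : R.Ω × R.Ω → R.Ω × R.Ω → ℝ := fun x y =>
    ∑ z, ∑ z', conv (R.p x.1) (R.p x.2) z * conv (R.p y.1) (R.p y.2) z' *
      ent (conv (fib (R.p x.1) (R.p x.2) z) (fib (R.p y.1) (R.p y.2) z')) with hT2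
  have hs0 : sR R = ∑ x : R.Ω × R.Ω, R.w x.1 * R.w x.2 * e x.1 x.2 := rfl
  have hs1 : ∑ a, ∑ b, R.w a * R.w b * e a b = sR R := by
    rw [hs0, Fintype.sum_prod_type]
  have hsS : sR R.S = ∑ x : R.Ω × R.Ω, ∑ y : R.Ω × R.Ω,
      R.w x.1 * R.w x.2 * (R.w y.1 * R.w y.2) * e4 x y :=
    Fintype.sum_prod_type (fun a : (R.Ω × R.Ω) × (R.Ω × R.Ω) =>
      R.w a.1.1 * R.w a.1.2 * (R.w a.2.1 * R.w a.2.2) * e4 a.1 a.2)
  have hsC : sR R.C = ∑ x : R.Ω × R.Ω, ∑ y : R.Ω × R.Ω,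
      R.w x.1 * R.w x.2 * (R.w y.1 * R.w y.2) * (L - T2 x y) := by
    have h1 : sR R.C = ∑ a : R.C.Ω, ∑ b : R.C.Ω, R.C.w a * R.C.w b *
        (L - ent (conv (R.C.p a) (R.C.p b))) :=
      Fintype.sum_prod_type (fun a : R.C.Ω × R.C.Ω => R.C.w a.1 * R.C.w a.2 *
        (L - ent (conv (R.C.p a.1) (R.C.p a.2))))
    rw [h1, TR_C R (fun a b => L - ent (conv (R.C.p a) (R.C.p b)))]
    refine sum_congr rfl fun x _ => sum_congr rfl fun y _ => ?_
    by_cases h0 : R.w x.1 * R.w x.2 * (R.w y.1 * R.w y.2) = 0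
    · rw [h0, zero_mul, zero_mul]
    congr 1
    have hx := left_ne_zero_of_mul h0
    have hy := right_ne_zero_of_mul h0
    have lx := conv_law (R.hp _ (left_ne_zero_of_mul hx)) (R.hp _ (right_ne_zero_of_mul hx))
    have ly := conv_law (R.hp _ (left_ne_zero_of_mul hy)) (R.hp _ (right_ne_zero_of_mul hy))
    have e1 : ∀ z z', conv (R.p x.1) (R.p x.2) z * conv (R.p y.1) (R.p y.2) z' *
        (L - ent (conv (fib (R.p x.1) (R.p x.2) z) (fib (R.p y.1) (R.p y.2) z'))) =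
        L * conv (R.p x.1) (R.p x.2) z * conv (R.p y.1) (R.p y.2) z' -
        conv (R.p x.1) (R.p x.2) z * conv (R.p y.1) (R.p y.2) z' *
          ent (conv (fib (R.p x.1) (R.p x.2) z) (fib (R.p y.1) (R.p y.2) z')) := by
      intro z z'
      ring
    show ∑ z, ∑ z', conv (R.p x.1) (R.p x.2) z * conv (R.p y.1) (R.p y.2) z' *
      (L - ent (conv (fib (R.p x.1) (R.p x.2) z) (fib (R.p y.1) (R.p y.2) z'))) = L - T2 x y
    simp only [e1, sum_sub_distrib, ← mul_sum, ly.sum, mul_one, lx.sum]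
    rfl
  have hd : dR R = ∑ x : R.Ω × R.Ω, ∑ y : R.Ω × R.Ω,
      R.w x.1 * R.w x.2 * (R.w y.1 * R.w y.2) * (T1 x y - T2 x y) := by
    refine (TR_C R (fun a b =>
      ent (conv (conv (R.C.p a) (R.C.p b)) (conv (R.C.p a) (R.C.p b))) -
        ent (conv (R.C.p a) (R.C.p b)))).trans ?_
    refine sum_congr rfl fun x _ => sum_congr rfl fun y _ => ?_
    congr 1
    simp only [mul_sub, sum_sub_distrib]
    rfl
  -- the inequality
  have key : 0 ≤ ∑ x : R.Ω × R.Ω, ∑ y : R.Ω × R.Ω,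
      R.w x.1 * R.w x.2 * (R.w y.1 * R.w y.2) *
        (3 * e4 x y + 3 * (L - T2 x y) - 2 * e x.1 y.1 - 2 * e x.1 y.2 - 2 * e x.2 y.1 -
          2 * e x.2 y.2 + e x.1 x.2 + e y.1 y.2 - (T1 x y - T2 x y)) := by
    refine sum_nonneg fun x _ => sum_nonneg fun y _ => ?_
    by_cases h0 : R.w x.1 * R.w x.2 * (R.w y.1 * R.w y.2) = 0
    · rw [h0, zero_mul]
    have hx := left_ne_zero_of_mul h0
    have hy := right_ne_zero_of_mul h0
    have h3 := h G h2 (R.p x.1) (R.p x.2) (R.p y.1) (R.p y.2)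
      (R.hp _ (left_ne_zero_of_mul hx)) (R.hp _ (right_ne_zero_of_mul hx))
      (R.hp _ (left_ne_zero_of_mul hy)) (R.hp _ (right_ne_zero_of_mul hy))
    change T1 x y ≤ 2 * _ + 2 * _ - 3 * _ - _ - _ - 2 * T2 x y at h3
    refine mul_nonneg (mul_nonneg (mul_nonneg (R.hw.nn _) (R.hw.nn _))
      (mul_nonneg (R.hw.nn _) (R.hw.nn _))) ?_
    simp only [he, he4]
    linarith
  have hexp : ∀ x y : R.Ω × R.Ω, R.w x.1 * R.w x.2 * (R.w y.1 * R.w y.2) *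
        (3 * e4 x y + 3 * (L - T2 x y) - 2 * e x.1 y.1 - 2 * e x.1 y.2 - 2 * e x.2 y.1 -
          2 * e x.2 y.2 + e x.1 x.2 + e y.1 y.2 - (T1 x y - T2 x y)) =
      3 * (R.w x.1 * R.w x.2 * (R.w y.1 * R.w y.2) * e4 x y) +
      3 * (R.w x.1 * R.w x.2 * (R.w y.1 * R.w y.2) * (L - T2 x y)) -
      2 * (R.w x.1 * R.w x.2 * (R.w y.1 * R.w y.2) * e x.1 y.1) -
      2 * (R.w x.1 * R.w x.2 * (R.w y.1 * R.w y.2) * e x.1 y.2) -
      2 * (R.w x.1 * R.w x.2 * (R.w y.1 * R.w y.2) * e x.2 y.1) -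
      2 * (R.w x.1 * R.w x.2 * (R.w y.1 * R.w y.2) * e x.2 y.2) +
      R.w x.1 * R.w x.2 * (R.w y.1 * R.w y.2) * e x.1 x.2 +
      R.w x.1 * R.w x.2 * (R.w y.1 * R.w y.2) * e y.1 y.2 -
      R.w x.1 * R.w x.2 * (R.w y.1 * R.w y.2) * (T1 x y - T2 x y) := by
    intro x y
    ring
  simp only [hexp, sum_sub_distrib, sum_add_distrib, ← mul_sum] at key
  have k1 := TR_11 hw e
  have k2 := TR_12 hw e
  have k3 := TR_21 hw e
  have k4 := TR_22 hw e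
  have k5 := TR_B1 hw (fun x => e x.1 x.2)
  have k6 := TR_B2 hw (fun x => e x.1 x.2)
  have hs2 : ∑ x : R.Ω × R.Ω, R.w x.1 * R.w x.2 * e x.1 x.2 = sR R := hs0.symm
  rw [hs1] at k1 k2 k3 k4
  rw [hs2] at k5 k6
  rw [← hsS, ← hsC, ← hd, k1, k2, k3, k4, k5, k6] at key
  linarith

end Pool.Agent.BRQ
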