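import Pool.Agent.BR.Main
import Pool.Agent.BRQ.RLa
import Pool.Agent.BRQ.RLi
import Pool.Agent.BRQ.LemT4
import Pool.Agent.BRQ.TR
import Pool.Agent.BRQ.K2Rep
import Pool.Agent.BRQ.K2mono
import Pool.Agent.BRQ.K1
import Pool.Agent.BRQ.GbS
import Pool.Agent.BRQ.GbC
import Pool.Agent.BRQ.KRep
import Pool.Agent.BRQ.GbK
import Pool.Agent.BRQ.NumF
import Pool.Agent.BRQ.Find
import Pool.Agent.BRQ.Seq
import Pool.Agent.BRQ.SDPI
import Pool.Agent.BRQ.OV2
import Pool.Agent.BRQ.Choose2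
import Pool.Agent.BRQ.Step2
import Pool.Agent.BRQ.Iter
import Pool.Agent.BRQ.Quad

/-!
Assembly: constant strong data processing and `f(α) ≤ C (log 2/α)^2`.
-/

set_option autoImplicit false

namespace Pool.Agent.BRQ

open Pool.Agent.BR

theorem sdpi : St_SDPI := by
  have hA : St_ThmA := thm_ThmA (thm_PairT thm_LemT) thm_DZero thm_Coset
  have hTR : St_TR := thm_TR thm_LemT4
  have hK1 : St_K1 := thm_K1 thm_RLi hTR (thm_K2mono thm_K2Rep) hA
  have hGbK : St_GbK := thm_GbK (thm_KRep thm_RLi thm_K2Rep)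
  have hF : St_Find := thm_Find thm_RLa hTR hK1 thm_GbS thm_GbC hGbK thm_NumF
  exact thm_SDPI thm_RLa thm_RLi hTR hK1 thm_GbS hF thm_Seq

theorem quad : St_Quad := by
  have hS : St_LemS := thm_LemS thm_Samp thm_Cond thm_Diag
  have hDW : St_DW := thm_DW
  have hOV : St_OV2 := thm_OV2 hS (thm_Core hDW) (thm_Inv hDW) hDW sdpi
  exact thm_Quad (thm_Iter (thm_Step2 hOV thm_Gibbs hDW thm_Choose2)) thm_End

end Pool.Agent.BRQ
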