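import Pool.Agent.BRQ.St
import Pool.Agent.DEN68.CLS

/-!
# BRQ: good classes, two summands (module CLS2)
-/

set_option autoImplicit false

namespace Pool.Agent.BRQ

open Finset Real Pool.Agent.BR Pool.Agent.DEN68
open scoped Classical

theorem thm_CLS2 (h1 : Pool.Agent.DEN68.St_WIN) (h2 : Pool.Agent.DEN68.St_JNT)
    (h3 : Pool.Agent.BR.St_Cond) (h4 : Pool.Agent.BR.St_Diag) : St_CLS2 := by
  intro G _ _ hG A l J hA hl hJ hAl
  have hJ0 : (0 : ℝ) < J := by exact_mod_cast hJ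
  have hAc : (0 : ℝ) < A.card := by exact_mod_cast card_pos.2 hA
  have hGc : (0 : ℝ) < Fintype.card G := BR.card_pos
  have hone : (Fintype.card G : ℝ) * exp (-l) ≤
      ((univ.filter fun x => sA A x = 1).card : ℝ) := by
    have h5 : (Fintype.card G : ℝ) * exp (-l) ≤ A.card := by
      rw [← exp_log hGc, ← exp_add]
      calc exp (log (Fintype.card G) + -l) ≤ exp (log A.card) := by
            apply exp_le_exp.2
            linarith
        _ = A.card := exp_log hAc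
    refine h5.trans ?_
    have h6 : A ⊆ univ.filter fun x => sA A x = 1 := fun x hx =>
      mem_filter.2 ⟨mem_univ x, CLS_one A hx⟩
    exact_mod_cast card_le_card h6
  obtain ⟨N, hN1, hN2, hN3⟩ := h1 G (sA A) l J (CLS_nonneg A) (CLS_le_one A) hJ hone
  have hM := CLS_sum_pos A hA N
  have hth : 0 < 2 * l / J := by positivity
  obtain ⟨R, ps, hR, hps, hps0, hne, hK, hD, hE⟩ :=
    h2 G hG A N l (2 * l / J) hA hN1 hth hAl
  have hK2 : ∑ y, R y * KL (un (Sy A y)) ps ≤ 16 * l / J / 4 := by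
    have h5 : (∑ y, R y * KL (un (Sy A y)) ps) * ∑ x, sA A x ^ N ≤
        (16 * l / J / 4) * ∑ x, sA A x ^ N := by
      have h6 : 16 * l / (J : ℝ) / 4 = 2 * l / J + 2 * l / J := by ring
      rw [h6, add_mul]
      linarith
    exact le_of_mul_le_mul_right h5 hM
  have hD2 : ∑ y, R y * (log (Fintype.card G) - log (Sy A y).card) ≤ 4 * l / 4 := by
    linarith
  obtain ⟨E, hEdef⟩ : ∃ E : Set (Fin N → G), ∀ y, y ∈ E ↔ (R y ≠ 0 ∧
      KL (un (Sy A y)) ps ≤ 16 * l / J ∧ log (Fintype.card G) - log (Sy A y).card ≤ 4 * l) :=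
    ⟨{y | R y ≠ 0 ∧ KL (un (Sy A y)) ps ≤ 16 * l / J ∧
      log (Fintype.card G) - log (Sy A y).card ≤ 4 * l}, fun y => Iff.rfl⟩
  have hhalf := CLS_markov R (fun y => KL (un (Sy A y)) ps)
    (fun y => log (Fintype.card G) - log (Sy A y).card) (16 * l / J) (4 * l) E hR
    (fun y k1 k2 k3 => (hEdef y).2 ⟨k1, k2, k3⟩)
    (fun y hy => CLS_KL_nonneg (CLS_law _ (hne y hy)) hps hps0)
    (fun y _ => CLS_log_card _) (by positivity) (by positivity) hK2 hD2
  obtain ⟨Q, hQ, hQE, hQd⟩ := h3 (Fin N → G) R E hR hhalf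
  obtain ⟨c, B, hB, hBQ, hBD⟩ := h4 G hG N Q hN1 hQ
  have hgood : ∀ t, B t ≠ 0 → (Sy A c).Nonempty ∧ KL (un (Sy A c)) (sh t ps) ≤ 16 * l / J ∧
      log (Fintype.card G) - log (Sy A c).card ≤ 4 * l := by
    intro t ht
    obtain ⟨h5, h6, h7⟩ := (hEdef _).1 (hQE _ (hBQ t ht))
    refine ⟨?_, ?_, ?_⟩
    · obtain ⟨x, hx⟩ := hne _ h5
      exact ⟨x + t, (CLS_mem A c t x).1 hx⟩
    · rw [← CLS_KL hG, ← CLS_un hG]
      exact h6
    · rw [CLS_card hG] at h7
      exact h7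
  obtain ⟨t0, ht0⟩ : ∃ t, B t ≠ 0 := by
    by_contra hc
    push Not at hc
    have h5 := hB.sum
    simp only [hc, sum_const_zero] at h5
    exact zero_ne_one h5
  refine ⟨B, ps, Sy A c, c ⟨0, hN1⟩, hB, hps, hps0, (hgood t0 ht0).1, ?_, ?_,
    (hgood t0 ht0).2.2, fun t ht => (hgood t ht).2.1⟩
  · intro u hu
    exact (mem_filter.1 hu).2 ⟨0, hN1⟩
  · have hN : (N : ℝ) ≤ 2 ^ J := by exact_mod_cast hN2
    have h5 : ((N : ℝ) + 1) * l ≤ (2 ^ J + 1) * l :=
      mul_le_mul_of_nonneg_right (by linarith) hl.le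
    have h6 : (2 : ℝ) * (2 ^ J + 1) * l = 2 * ((2 ^ J + 1) * l) := by ring
    rw [h6]
    linarith

end Pool.Agent.BRQ
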