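import Pool.Agent.BRQ.St
import Pool.Agent.BR.DW

/-!
# BRQ: choice of the pieces (module Choose2)
-/

set_option autoImplicit false

namespace Pool.Agent.BRQ

open Finset Real Pool.Agent.BR
open scoped Classical

theorem thm_Choose2 : St_Choose2 := by
  intro G _ _ _ W g p q a hp hq
  set A : G → G → ℝ := fun x y => avv (fun w : W => g (x + y + w)) (fw W p x) (fw W q y) with hAd
  have hlawp : ∀ x, p x ≠ 0 → IsLaw (fw W p x) := fun x hx => DW_law W hp hx
  have hlawq : ∀ x, q x ≠ 0 → IsLaw (fw W q x) := fun x hx => DW_law W hq hx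
  -- the identity
  have hid : ∑ x, p x * ∑ y, q y * A x y = avv g p q := by
    have e1 : ∀ x, ∑ y, q y * A x y =
        ∑ w : W, fw W p x w * ∑ y, q y * ∑ w' : W, fw W q y w' * g (x + w + (y + w')) := by
      intro x
      simp only [hAd, avv, av, mul_sum]
      rw [sum_comm]
      refine sum_congr rfl fun w _ => ?_
      refine sum_congr rfl fun y _ => ?_
      refine sum_congr rfl fun w' _ => ?_
      rw [AddSubgroup.coe_add, show x + y + ((w : G) + w') = x + w + (y + w') by abel]
      ring
    have e2 : ∀ z : G, ∑ y, q y * ∑ w' : W, fw W q y w' * g (z + (y + w')) =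
        ∑ y, q y * g (z + y) := fun z => DW_avg W hq (fun y => g (z + y))
    have e3 : ∀ x, ∑ y, q y * A x y = ∑ w : W, fw W p x w * av g q (x + w) := by
      intro x
      rw [e1 x]
      refine sum_congr rfl fun w _ => ?_
      rw [e2 (x + w)]
      rfl
    simp only [e3]
    rw [DW_avg W hp (av g q)]
    rfl
  by_contra hcon
  push Not at hcon
  -- the average
  have hav : ∑ x, p x * ∑ y, q y * (A x y + a * (Df (fw W p x) + Df (fw W q y))) =
      avv g p q + a * (DW W p + DW W q) := by
    have e1 : ∀ x, ∑ y, q y * (A x y + a * (Df (fw W p x) + Df (fw W q y))) =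
        (∑ y, q y * A x y) + (a * Df (fw W p x) + a * DW W q) := by
      intro x
      unfold DW
      have e2 : a * Df (fw W p x) = ∑ y, q y * (a * Df (fw W p x)) := by
        rw [← sum_mul, hq.sum, one_mul]
      rw [e2, mul_sum, ← sum_add_distrib, ← sum_add_distrib]
      refine sum_congr rfl fun y _ => ?_
      ring
    simp only [e1]
    rw [← hid]
    have e3 : a * (DW W p + DW W q) = ∑ x, p x * (a * Df (fw W p x)) + ∑ x, p x * (a * DW W q) := by
      have e4 : ∑ x, p x * (a * DW W q) = a * DW W q := by
        rw [← sum_mul, hp.sum, one_mul]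
      rw [e4, mul_add]
      congr 1
      unfold DW
      rw [mul_sum]
      exact sum_congr rfl fun x _ => by ring
    rw [e3, ← sum_add_distrib, ← sum_add_distrib]
    refine sum_congr rfl fun x _ => ?_
    ring
  have hlt : ∑ x, p x * ∑ y, q y * (avv g p q + a * (DW W p + DW W q)) <
      ∑ x, p x * ∑ y, q y * (A x y + a * (Df (fw W p x) + Df (fw W q y))) := by
    have hin : ∀ x, p x ≠ 0 → ∑ y, q y * (avv g p q + a * (DW W p + DW W q)) <
        ∑ y, q y * (A x y + a * (Df (fw W p x) + Df (fw W q y))) := by
      intro x hx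
      refine sum_lt_sum (fun y _ => ?_) ?_
      · rcases eq_or_ne (q y) 0 with h0 | h0
        · rw [h0, zero_mul, zero_mul]
        · exact mul_le_mul_of_nonneg_left (hcon x y (hlawp x hx) (hlawq y h0)).le (hq.nn y)
      · obtain ⟨y, hy⟩ : ∃ y, q y ≠ 0 := by
          by_contra hc
          push Not at hc
          have h5 := hq.sum
          simp only [hc, sum_const_zero] at h5
          exact zero_ne_one h5
        exact ⟨y, mem_univ y, mul_lt_mul_of_pos_left (hcon x y (hlawp x hx) (hlawq y hy))
          (lt_of_le_of_ne (hq.nn y) hy.symm)⟩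
    refine sum_lt_sum (fun x _ => ?_) ?_
    · rcases eq_or_ne (p x) 0 with h0 | h0
      · rw [h0, zero_mul, zero_mul]
      · exact mul_le_mul_of_nonneg_left (hin x h0).le (hp.nn x)
    · obtain ⟨x, hx⟩ : ∃ x, p x ≠ 0 := by
        by_contra hc
        push Not at hc
        have h5 := hp.sum
        simp only [hc, sum_const_zero] at h5
        exact zero_ne_one h5
      exact ⟨x, mem_univ x, mul_lt_mul_of_pos_left (hin x hx) (lt_of_le_of_ne (hp.nn x) hx.symm)⟩
  rw [hav] at hlt
  simp only [← sum_mul, hp.sum, hq.sum, one_mul] at hlt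
  exact lt_irrefl _ hlt

end Pool.Agent.BRQ
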