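import Pool.Agent.BRQ.StD
import Pool.Agent.DEN68.CLS
import Pool.Agent.BR.Core
import Pool.Agent.BR.DW

/-!
BRQ, module ClassD: the inequality of a class (offer 14386, statement of helper61).
-/

set_option autoImplicit false

namespace Pool.Agent.BRQ

open Finset Real Pool.Agent.BR
open Pool.Agent.DEN68 (un)
open scoped Classical

section

variable {G : Type} [AddCommGroup G] [Fintype G]

theorem ClassD_mem {N : ℕ} (K : Fin N → Finset G) (c : Fin N → G) (t x : G) :
    x ∈ Tt K (fun i => c i + t) ↔ x + t ∈ Tt K c := by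
  unfold Tt
  rw [mem_filter, mem_filter]
  have h1 : ∀ i, x + (c i + t) = x + t + c i := by
    intro i
    rw [add_comm (c i) t, add_assoc]
  simp only [mem_univ, true_and, h1]

theorem ClassD_card (h2 : ∀ x : G, x + x = 0) {N : ℕ} (K : Fin N → Finset G) (c : Fin N → G)
    (t : G) : (Tt K (fun i => c i + t)).card = (Tt K c).card := by
  have h1 : Tt K (fun i => c i + t) = (Tt K c).image (fun x => x + t) := by
    ext x
    rw [ClassD_mem, mem_image]
    constructor
    · intro h
      exact ⟨x + t, h, add_add_self h2 x t⟩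
    · rintro ⟨y, hy, rfl⟩
      rw [add_add_self h2]
      exact hy
  rw [h1]
  exact card_image_of_injective _ (add_left_injective t)

theorem ClassD_un (h2 : ∀ x : G, x + x = 0) {N : ℕ} (K : Fin N → Finset G) (c : Fin N → G)
    (t : G) : un (Tt K (fun i => c i + t)) = sh t (un (Tt K c)) := by
  funext x
  unfold sh un
  simp only [ClassD_mem, ClassD_card h2]

omit [AddCommGroup G] [Fintype G] in
theorem ClassD_un_ne {T : Finset G} {x : G} (h : un T x ≠ 0) : x ∈ T := by
  unfold un at h
  by_contra hx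
  rw [if_neg hx] at h
  exact h rfl

omit [AddCommGroup G] in
theorem ClassD_ent {T : Finset G} (hT : T.Nonempty) : ent (un T) = log (T.card : ℝ) := by
  have h0 : (0 : ℝ) < (T.card : ℝ) := by exact_mod_cast Finset.card_pos.2 hT
  unfold ent un
  have h1 : ∀ x : G, negMulLog (if x ∈ T then 1 / (T.card : ℝ) else 0) =
      if x ∈ T then negMulLog (1 / (T.card : ℝ)) else 0 := by
    intro x
    split_ifs
    · rfl
    · exact negMulLog_zero
  simp only [h1]
  rw [Finset.sum_ite_mem, Finset.univ_inter, Finset.sum_const, nsmul_eq_mul]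
  unfold negMulLog
  rw [log_div one_ne_zero h0.ne', log_one]
  field_simp
  ring

omit [AddCommGroup G] in
/-- relative entropies are nonnegative -/
theorem ClassD_KL_nonneg {p q : G → ℝ} (hp : IsLaw p) (hq : IsLaw q)
    (h0 : ∀ x, q x = 0 → p x = 0) : 0 ≤ KL p q := by
  have h := gibbs univ p q (fun i _ => hp.nn i) (fun i _ => hq.nn i)
    (fun i _ h => h0 i h) (by rw [hp.sum, hq.sum])
  unfold KL
  have h1 : ∀ x, p x * log (p x / q x) = p x * log (p x) - p x * log (q x) := by
    intro x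
    rcases eq_or_ne (p x) 0 with h2 | h2
    · rw [h2]
      ring
    · rw [log_div h2 (fun h3 => h2 (h0 x h3))]
      ring
  simp only [h1]
  rw [sum_sub_distrib]
  linarith

omit [AddCommGroup G] in
/-- the mixture with the uniform law -/
theorem ClassD_mix {u p : G → ℝ} (hu : IsLaw u) (hp : IsLaw p) (h0 : ∀ x, p x = 0 → u x = 0)
    {th : ℝ} {ps : G → ℝ} (hps : ∀ x, exp (-th) * p x ≤ ps x) : KL u ps ≤ KL u p + th := by
  unfold KL
  have h1 : ∑ x, (u x * log (u x / p x) + u x * th) = ∑ x, u x * log (u x / p x) + th := by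
    rw [sum_add_distrib, ← sum_mul, hu.sum, one_mul]
  rw [← h1]
  refine sum_le_sum fun x _ => ?_
  rcases eq_or_ne (u x) 0 with h2 | h2
  · rw [h2]
    simp
  · have hux : 0 < u x := lt_of_le_of_ne (hu.nn x) (Ne.symm h2)
    have hpx : 0 < p x := lt_of_le_of_ne (hp.nn x) (fun h3 => h2 (h0 x h3.symm))
    have h3 : 0 < exp (-th) * p x := mul_pos (exp_pos _) hpx
    have h4 : 0 < ps x := lt_of_lt_of_le h3 (hps x)
    rw [← mul_add]
    refine mul_le_mul_of_nonneg_left ?_ hux.le
    rw [log_div h2 h4.ne', log_div h2 hpx.ne']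
    have h5 := log_le_log h3 (hps x)
    rw [log_mul (exp_pos _).ne' hpx.ne', log_exp] at h5
    linarith

theorem ClassD_pr {α : Type} (p : G → ℝ) (X : G → α) (t : G) (a a' : α)
    (h : ∀ x, X x = a ↔ X (x + t) = a') : pr (sh t p) X a = pr p X a' := by
  unfold pr
  refine sum_equiv (Equiv.addRight t) (fun x => ?_) (fun x _ => rfl)
  rw [mem_filter, mem_filter]
  simp only [mem_univ, true_and]
  exact h x

theorem ClassD_prq_sh (W : AddSubgroup G) (t : G) (p : G → ℝ) :
    Df (prq W (sh t p)) = Df (prq W p) := by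
  refine core_Df_equiv (Equiv.addRight (QuotientAddGroup.mk t : G ⧸ W)) _ _ fun q => ?_
  refine ClassD_pr p _ t q (q + QuotientAddGroup.mk t) fun x => ?_
  rw [QuotientAddGroup.mk_add]
  exact (add_left_inj _).symm

theorem ClassD_chain (h5 : Pool.Agent.BR.St_DW) (W : AddSubgroup G) {p : G → ℝ} (hp : IsLaw p) :
    Df p = DW W p + Df (prq W p) := by
  have h0 := (h5 G W W p hp).2.1
  have h1 : ent (prq W p) = entq W p := by
    unfold prq entq
    rw [H_eq_ent]
  have h2 : (Fintype.card G : ℝ) = Fintype.card (G ⧸ W) * Nat.card W := by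
    have h3 := AddSubgroup.card_eq_card_quotient_mul_card_addSubgroup W
    rw [← Nat.card_eq_fintype_card, ← Nat.card_eq_fintype_card, h3]
    push_cast
    ring
  have h4 : (0 : ℝ) < Fintype.card (G ⧸ W) := by
    have : 0 < Fintype.card (G ⧸ W) := Fintype.card_pos_iff.2 ⟨((0 : G) : G ⧸ W)⟩
    exact_mod_cast this
  unfold Df
  rw [h0, h1, h2, log_mul h4.ne' (DW_card W).ne']
  ring

end

theorem thm_ClassD (h1 : St_SDPI) (h2 : Pool.Agent.BR.St_Core) (h3 : Pool.Agent.BR.St_Inv)
    (h4 : Pool.Agent.BR.St_Cond) (h5 : Pool.Agent.BR.St_DW) : St_ClassD := by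
  obtain ⟨c0, hc0, hS⟩ := h1
  have hc2 : 0 < 2 / c0 := by positivity
  refine ⟨1 + 2 / c0, by linarith, ?_⟩
  intro G _ _ hG N K c B p eta hB hp heta hsupp hquot
  set T : Finset G := Tt K c with hT
  set k : G → ℝ := fun t => KL (un (Tt K (fun i => c i + t))) p with hk
  have habs : ∀ t, B t ≠ 0 → ∀ x, p x = 0 → un (Tt K (fun i => c i + t)) x = 0 := by
    intro t ht x hx
    by_contra hne
    exact (hsupp t ht).2 x (ClassD_un_ne hne) hx
  have hk0 : ∀ t, B t ≠ 0 → 0 ≤ k t := fun t ht =>
    ClassD_KL_nonneg (Pool.Agent.DEN68.CLS_law _ (hsupp t ht).1) hp (habs t ht)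
  set kb : ℝ := ∑ t, B t * k t with hkb
  have hBk : ∀ t, 0 ≤ B t * k t := by
    intro t
    rcases eq_or_ne (B t) 0 with h0 | h0
    · rw [h0, zero_mul]
    · exact mul_nonneg (hB.nn t) (hk0 t h0)
  have hkb0 : 0 ≤ kb := sum_nonneg fun t _ => hBk t
  obtain ⟨t0, ht0⟩ : ∃ t, B t ≠ 0 := by
    by_contra hc
    push Not at hc
    have h6 := hB.sum
    simp only [hc, sum_const_zero] at h6
    exact zero_ne_one h6
  obtain ⟨t1, ht1, hkt1⟩ : ∃ t, B t ≠ 0 ∧ k t ≤ kb := by
    by_contra hno
    push Not at hno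
    have h6 : ∑ t, B t * kb < ∑ t, B t * k t := by
      refine sum_lt_sum (fun t _ => ?_) ⟨t0, mem_univ t0, ?_⟩
      · rcases eq_or_ne (B t) 0 with h0 | h0
        · rw [h0, zero_mul, zero_mul]
        · exact mul_le_mul_of_nonneg_left (hno t h0).le (hB.nn t)
      · exact mul_lt_mul_of_pos_left (hno t0 ht0) (lt_of_le_of_ne (hB.nn t0) (Ne.symm ht0))
    rw [← sum_mul, hB.sum, one_mul] at h6
    exact lt_irrefl _ h6
  -- the good translates
  obtain ⟨E, hE⟩ : ∃ E : Set G, ∀ t, t ∈ E ↔ (B t ≠ 0 ∧ k t ≤ 2 * kb) :=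
    ⟨{t : G | B t ≠ 0 ∧ k t ≤ 2 * kb}, fun t => Iff.rfl⟩
  have hhalf : 1 / 2 ≤ ∑ t, (if t ∈ E then B t else 0) := by
    rcases hkb0.eq_or_lt with h0 | h0
    · have hall : ∀ t, B t * k t = 0 := fun t =>
        (sum_eq_zero_iff_of_nonneg fun t _ => hBk t).1 h0.symm t (mem_univ t)
      have h6 : ∀ t, (if t ∈ E then B t else 0) = B t := by
        intro t
        by_cases hb : B t = 0
        · rw [hb]
          split_ifs <;> rfl
        · have hkt : k t = 0 := (mul_eq_zero.1 (hall t)).resolve_left hb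
          rw [if_pos ((hE t).2 ⟨hb, by rw [hkt]; linarith⟩)]
      rw [sum_congr rfl fun t _ => h6 t, hB.sum]
      norm_num
    · have key : ∀ t, B t - (if t ∈ E then B t else 0) ≤
          B t * k t / (2 * kb) := by
        intro t
        by_cases hb : B t = 0
        · rw [hb]
          simp
        · split_ifs with ht
          · rw [sub_self]
            exact div_nonneg (hBk t) (by linarith)
          · rw [sub_zero, le_div_iff₀ (by linarith)]
            have h6 : 2 * kb < k t := by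
              by_contra hc
              exact ht ((hE t).2 ⟨hb, not_lt.1 hc⟩)
            exact mul_le_mul_of_nonneg_left h6.le (hB.nn t)
      have h6 := sum_le_sum fun t (_ : t ∈ (univ : Finset G)) => key t
      rw [sum_sub_distrib, hB.sum, ← sum_div, ← hkb] at h6
      have h7 : kb / (2 * kb) = 1 / 2 := by field_simp
      linarith
  obtain ⟨Q, hQ, hQE, hQd⟩ := h4 G B E hB hhalf
  obtain ⟨H, b, hHb, hspr, hcod⟩ := h2 G hG Q hQ
  have hB' : IsLaw (fw H Q b) := core_fw_law H hQ b hHb
  have hTne : T.Nonempty := by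
    obtain ⟨x, hx⟩ := (hsupp t1 ht1).1
    exact ⟨x + t1, (ClassD_mem K c t1 x).1 hx⟩
  have hun : IsLaw (un T) := Pool.Agent.DEN68.CLS_law T hTne
  have hH2 : ∀ w : H, w + w = 0 := fun w => Subtype.ext (hG w)
  have hG0 : (0 : ℝ) < Fintype.card G := card_pos
  have hDWb : ∀ th : ℝ, 0 < th → c0 * DW H (un T) ≤ 2 * kb + th := by
    intro th hth
    have hexp1 : exp (-th) < 1 := by
      rw [exp_lt_one_iff]
      linarith
    have hu0 : 0 < (1 - exp (-th)) / Fintype.card G := div_pos (by linarith) hG0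
    set ps : G → ℝ := fun x => exp (-th) * p x + (1 - exp (-th)) / Fintype.card G with hps
    have hps0 : ∀ x, 0 < ps x := by
      intro x
      have h6 : 0 ≤ exp (-th) * p x := mul_nonneg (exp_pos _).le (hp.nn x)
      simp only [hps]
      linarith
    have hps1 : ∀ x, exp (-th) * p x ≤ ps x := by
      intro x
      simp only [hps]
      linarith
    have hpsl : IsLaw ps := by
      refine ⟨fun x => (hps0 x).le, ?_⟩
      simp only [hps]
      rw [sum_add_distrib, ← mul_sum, hp.sum, sum_const, card_univ, nsmul_eq_mul,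
        mul_div_cancel₀ _ hG0.ne']
      ring
    have hinv := h3 G hG H b (fw H Q b) (un T) ps (2 * kb + th) hB' hun hpsl hps0 (by
      intro w hw
      have hQw : Q (b + w) ≠ 0 := by
        intro h0
        apply hw
        unfold fw
        rw [h0, zero_div]
      obtain ⟨hb1, hb2⟩ := (hE _).1 (hQE _ hQw)
      rw [← Pool.Agent.DEN68.CLS_KL hG, hT, ← ClassD_un hG]
      have h6 := ClassD_mix (Pool.Agent.DEN68.CLS_law _ (hsupp _ hb1).1) hp (habs _ hb1) hps1
      exact h6.trans (by
        have h7 : KL (un (Tt K (fun i => c i + (b + (w : G))))) p ≤ 2 * kb := hb2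
        linarith))
    refine le_trans ?_ hinv
    unfold DW
    rw [mul_sum]
    refine sum_le_sum fun x _ => ?_
    rcases eq_or_ne (un T x) 0 with h0 | h0
    · rw [h0]
      simp
    · have h6 := hS H hH2 (fw H Q b) (fw H (un T) x) hB' hspr (DW_law H hun h0)
      calc c0 * (un T x * Df (fw H (un T) x)) = un T x * (c0 * Df (fw H (un T) x)) := by ring
        _ ≤ _ := mul_le_mul_of_nonneg_left h6 (hun.nn x)
  have hDW0 : c0 * DW H (un T) ≤ 2 * kb := le_of_forall_pos_le_add hDWb
  have hDW1 : DW H (un T) ≤ 2 / c0 * kb := by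
    rw [div_mul_eq_mul_div, le_div_iff₀ hc0, mul_comm]
    exact hDW0
  have hq := hquot H t1 ht1
  rw [ClassD_un hG, ClassD_prq_sh, ← ClassD_un hG] at hq
  have hq2 : Df (prq H (un T)) ≤ eta * cod H + k t1 := hq
  have hch := ClassD_chain h5 H hun
  have hDfT : Df (un T) = log (Fintype.card G) - log (T.card : ℝ) := by
    unfold Df
    rw [ClassD_ent hTne]
  have hcod2 : cod H ≤ 8 * Df B + 8 * log 2 := by
    have h6 : Df Q ≤ 2 * Df B + 2 * log 2 := hQd
    linarith
  have h7 : eta * cod H ≤ eta * (8 * Df B + 8 * log 2) := mul_le_mul_of_nonneg_left hcod2 heta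
  rw [← hDfT, hch]
  have h8 : (1 + 2 / c0) * kb = kb + 2 / c0 * kb := by ring
  rw [h8]
  linarith

end Pool.Agent.BRQ
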