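import Pool.Agent.BRQ.StD

/-!
# BRQ, module DFin: two summands with polynomial dependence, final statement
-/

set_option autoImplicit false

namespace Pool.Agent.BRQ

open Finset Real Pool.Agent.BR
open Pool.Agent.DEN68 (un)
open scoped Classical

private theorem DFin_cardG (n : ℕ) : (Fintype.card (Fin n → ZMod 2) : ℝ) = 2 ^ n := by
  rw [Fintype.card_fun, ZMod.card, Fintype.card_fin]
  push_cast
  ring

private theorem DFin_cod (n : ℕ) (W : AddSubgroup (Fin n → ZMod 2)) :
    cod W = (n - Module.finrank (ZMod 2) (AddSubgroup.toZModSubmodule 2 W)) * log 2 := by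
  have hc : (Nat.card W : ℝ) = 2 ^ Module.finrank (ZMod 2) (AddSubgroup.toZModSubmodule 2 W) := by
    have h1 := Module.natCard_eq_pow_finrank (K := ZMod 2) (V := AddSubgroup.toZModSubmodule 2 W)
    rw [Nat.card_zmod] at h1
    have h2 : Nat.card W = Nat.card (AddSubgroup.toZModSubmodule 2 W) := rfl
    rw [h2, h1]
    push_cast
    ring
  unfold cod
  rw [hc, DFin_cardG, log_pow, log_pow]
  ring

private theorem DFin_count {G : Type} [AddCommGroup G] [Fintype G] (A : Finset G)
    (W : AddSubgroup G) (c : G) :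
    ((slice (univ.filter fun x : G => ∃ a ∈ A, ∃ b ∈ A, x = a + b) W c).card : ℝ) ≤
      (Nat.card {v : G // v ∈ W ∧ ∃ a ∈ A, ∃ b ∈ A, c + v = a + b} : ℝ) := by
  rw [Nat.cast_le, ← Fintype.card_coe, ← Nat.card_eq_fintype_card]
  refine Nat.card_le_card_of_injective (fun w => ⟨w.1.1, w.1.2, ?_⟩) ?_
  · have h := w.2
    unfold slice at h
    have h1 := (mem_filter.1 h).2
    exact (mem_filter.1 h1).2
  intro w w' h
  have h1 := congrArg (fun v => v.1) h
  exact Subtype.ext (Subtype.ext h1)

/-- **DFin.** -/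
theorem thm_DFin (h : St_DGr) : St_DFin := by
  obtain ⟨C, hC, hS⟩ := h
  refine ⟨2 * C, by linarith, ?_⟩
  intro eps n A al he he1 hal hal2 hA
  obtain ⟨l, hl⟩ : ∃ l : ℝ, l = log (1 / al) := ⟨_, rfl⟩
  have hl2 : log 2 ≤ l := by
    rw [hl]
    refine log_le_log (by norm_num) ?_
    rw [le_div_iff₀ hal]
    linarith
  have hlog2 : (1 : ℝ) / 2 ≤ log 2 := by
    have := Real.log_two_gt_d9
    linarith
  have hl0 : 0 < l := by linarith
  have hlal : log al = -l := by
    rw [hl, one_div, log_inv, neg_neg]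
  have h2n : (0 : ℝ) < 2 ^ n := by positivity
  have hA0 : (0 : ℝ) < A.card := lt_of_lt_of_le (by positivity) hA
  have hAne : A.Nonempty := by
    rw [← Finset.card_pos]
    exact_mod_cast hA0
  have hG : ∀ x : Fin n → ZMod 2, x + x = 0 := fun x => by
    funext i
    exact CharTwo.add_self_eq_zero (x i)
  obtain ⟨W, z, hcod, hcnt⟩ := hS (Fin n → ZMod 2) hG A l eps hAne (by
      rw [DFin_cardG, ← log_div h2n.ne' hA0.ne', hl]
      refine log_le_log (by positivity) ?_
      rw [div_le_div_iff₀ hA0 hal, one_mul]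
      linarith) hl2 he he1
  refine ⟨AddSubgroup.toZModSubmodule 2 W, z, ?_, ?_⟩
  · rw [DFin_cod] at hcod
    rw [← hl]
    have h1 : (1 / eps) ^ C ≤ (1 / eps) ^ (2 * C) := by
      refine rpow_le_rpow_of_exponent_le ?_ (by linarith)
      rw [le_div_iff₀ he]
      linarith
    have h0 : 0 < (1 / eps) ^ C := by positivity
    have h2 : C * (1 / eps) ^ C * l ≤ 2 * C * (1 / eps) ^ (2 * C) * l * log 2 := by
      have h3 : C * (1 / eps) ^ C * l ≤ C * (1 / eps) ^ (2 * C) * l := by gcongr
      have h4 : 0 ≤ C * (1 / eps) ^ (2 * C) * l := by positivity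
      nlinarith
    exact le_of_mul_le_mul_right (hcod.trans h2) (by linarith)
  · have h4 : Nat.card (AddSubgroup.toZModSubmodule 2 W) = Nat.card W := rfl
    rw [h4]
    have hpow : al ^ eps = exp (-(eps * l)) := by
      rw [rpow_def_of_pos hal, hlal]
      congr 1
      ring
    rw [hpow]
    exact hcnt.trans (DFin_count A W z)

end Pool.Agent.BRQ
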