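import Pool.Agent.BRQ.StD

/-!
BRQ (MP_68cffc_co), module DGr: the theorem for groups.
-/

set_option autoImplicit false

namespace Pool.Agent.BRQ

open Finset Real Pool.Agent.BR
open Pool.Agent.DEN68 (un)
open scoped Classical

/-- the choice of the constants -/
theorem DGr_const {C1 eps l : ℝ} (hC1 : 1 ≤ C1) (he : 0 < eps) (he1 : eps ≤ 1) (hl : 0 ≤ l) :
    ∃ M : ℕ, 1 ≤ M ∧ 16 * (2 / eps) ^ (2 * C1) ≤ M ∧
      (M : ℝ) * (M * (2 * l)) ≤ (578 * 2 ^ (4 * C1) + 4 * C1) *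
        (1 / eps) ^ (578 * (2 : ℝ) ^ (4 * C1) + 4 * C1) * l := by
  have h1e : 1 ≤ 1 / eps := by
    rw [le_div_iff₀ he]
    linarith
  have h2e : 1 ≤ 2 / eps := by
    rw [le_div_iff₀ he]
    linarith
  have hx : 1 ≤ (2 / eps) ^ (2 * C1) := Real.one_le_rpow h2e (by linarith)
  have hp : (0 : ℝ) ≤ 2 ^ (4 * C1) := by positivity
  set x : ℝ := (2 / eps) ^ (2 * C1) with hxd
  have hM1 : 16 * x ≤ (⌈16 * x⌉₊ : ℝ) := Nat.le_ceil _
  have hM2 : (⌈16 * x⌉₊ : ℝ) ≤ 17 * x := by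
    have := Nat.ceil_lt_add_one (a := 16 * x) (by positivity)
    linarith
  refine ⟨⌈16 * x⌉₊, ?_, hM1, ?_⟩
  · have h : (1 : ℝ) ≤ (⌈16 * x⌉₊ : ℝ) := by linarith
    exact_mod_cast h
  · have h3 : x * x = 2 ^ (4 * C1) * (1 / eps) ^ (4 * C1) := by
      rw [hxd, ← Real.rpow_add (by positivity), ← Real.mul_rpow (by norm_num) (by positivity)]
      congr 1
      · ring
      · ring
    have h4 : (1 / eps) ^ (4 * C1) ≤ (1 / eps) ^ (578 * (2 : ℝ) ^ (4 * C1) + 4 * C1) :=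
      Real.rpow_le_rpow_of_exponent_le h1e (by linarith)
    have h0 : (0 : ℝ) ≤ (⌈16 * x⌉₊ : ℝ) := by positivity
    have h5 : (⌈16 * x⌉₊ : ℝ) * ⌈16 * x⌉₊ ≤ (17 * x) * (17 * x) :=
      mul_le_mul hM2 hM2 h0 (by positivity)
    calc (⌈16 * x⌉₊ : ℝ) * (⌈16 * x⌉₊ * (2 * l)) = (⌈16 * x⌉₊ : ℝ) * ⌈16 * x⌉₊ * (2 * l) := by ring
      _ ≤ (17 * x) * (17 * x) * (2 * l) := mul_le_mul_of_nonneg_right h5 (by positivity)
      _ = 578 * (x * x) * l := by ring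
      _ = 578 * 2 ^ (4 * C1) * (1 / eps) ^ (4 * C1) * l := by
          rw [h3]
          ring
      _ ≤ (578 * 2 ^ (4 * C1) + 4 * C1) * (1 / eps) ^ (578 * (2 : ℝ) ^ (4 * C1) + 4 * C1) * l := by
          refine mul_le_mul_of_nonneg_right (mul_le_mul (by linarith) h4 (by positivity)
            (by linarith)) hl

theorem thm_DGr (h1 : St_fN) (h2 : St_fTop) (h3 : St_fOne) (h4 : St_MinW) (h5 : St_Incr)
    (h6 : St_Grow) : St_DGr := by
  obtain ⟨C1, hC1, hinc⟩ := h5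
  have hp : (0 : ℝ) ≤ 2 ^ (4 * C1) := by positivity
  refine ⟨578 * 2 ^ (4 * C1) + 4 * C1, by linarith, ?_⟩
  intro G _ _ hG A l eps hA hcard hl he he1
  have hl0 : 0 ≤ l := (Real.log_nonneg (by norm_num)).trans hl
  obtain ⟨M, hM, hM16, hMb⟩ := DGr_const hC1 he he1 hl0
  set Sm : Finset G := univ.filter fun x : G => ∃ a ∈ A, ∃ b ∈ A, x = a + b with hS
  have hsum : ∀ a ∈ A, ∀ b ∈ A, a + b ∈ Sm := fun a ha b hb =>
    mem_filter.2 ⟨mem_univ _, a, ha, b, hb, rfl⟩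
  have hSne : Sm.Nonempty := by
    obtain ⟨a, ha⟩ := hA
    exact ⟨a + a, hsum a ha a ha⟩
  obtain ⟨W, w1, w2, w3⟩ := h4 G M Sm hSne hM
  have htop : ∀ N, N ≤ M → fN M Sm ⊤ N ≤ 2 * l := fun N hN =>
    h2 G M N Sm A l hA hsum hM hN hcard
  have hseq := hinc G hG M Sm W hSne hM w1
  have hone := h6 C1 eps l M (fN M Sm W) hC1 he he1 hl hM16 hseq
    ((w2 M hM le_rfl).trans (htop M le_rfl))
  obtain ⟨z, hz, hz2⟩ := h3 G M Sm W hSne hM
  refine ⟨W, z, ?_, ?_⟩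
  · have hMpos : (0 : ℝ) < M := by exact_mod_cast hM
    have e1 : ∑ N ∈ Icc 1 M, fN M Sm ⊤ N ≤ M * (2 * l) := by
      calc ∑ N ∈ Icc 1 M, fN M Sm ⊤ N ≤ ∑ _N ∈ Icc 1 M, 2 * l :=
            Finset.sum_le_sum fun N hN => htop N (Finset.mem_Icc.1 hN).2
        _ = M * (2 * l) := by
            rw [Finset.sum_const, Nat.card_Icc, nsmul_eq_mul]
            simp
    have e2 : cod W ≤ M * (M * (2 * l)) := by
      have e3 := w3.trans e1
      rw [div_le_iff₀ hMpos] at e3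
      linarith
    exact e2.trans hMb
  · have hc : (0 : ℝ) < ((slice Sm W z).card : ℝ) := by exact_mod_cast hz.card_pos
    have hW : (0 : ℝ) < (Nat.card W : ℝ) := by exact_mod_cast Nat.card_pos
    have e1 : log (Nat.card W) - log ((slice Sm W z).card : ℝ) ≤ eps * l := hz2.trans hone
    have e2 : -(eps * l) + log (Nat.card W) ≤ log ((slice Sm W z).card : ℝ) := by linarith
    have e3 := Real.exp_le_exp.2 e2
    rwa [Real.exp_add, Real.exp_log hW, Real.exp_log hc] at e3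

end Pool.Agent.BRQ
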