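import Pool.Agent.BRQ.St
import Pool.Agent.DEN68.DNG

/-!
# BRQ, module DNF2: two summands, final statement
-/

set_option autoImplicit false

namespace Pool.Agent.BRQ

open Finset Real Pool.Agent.BR
open scoped Classical

private theorem DNF2_cardG (n : ℕ) : (Fintype.card (Fin n → ZMod 2) : ℝ) = 2 ^ n := by
  rw [Fintype.card_fun, ZMod.card, Fintype.card_fin]
  push_cast
  ring

private theorem DNF2_cod (n : ℕ) (W : AddSubgroup (Fin n → ZMod 2)) :
    cod W = (n - Module.finrank (ZMod 2) (AddSubgroup.toZModSubmodule 2 W)) * log 2 := by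
  have hc : (Nat.card W : ℝ) = 2 ^ Module.finrank (ZMod 2) (AddSubgroup.toZModSubmodule 2 W) := by
    have h1 := Module.natCard_eq_pow_finrank (K := ZMod 2) (V := AddSubgroup.toZModSubmodule 2 W)
    rw [Nat.card_zmod] at h1
    have h2 : Nat.card W = Nat.card (AddSubgroup.toZModSubmodule 2 W) := rfl
    rw [h2, h1]
    push_cast
    ring
  unfold cod
  rw [hc, DNF2_cardG, log_pow, log_pow]
  ring

private theorem DNF2_count {G : Type} [AddCommGroup G] [Fintype G] (A : Finset G)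
    (W : AddSubgroup G) (c : G) (t : ℝ)
    (h : t * (Nat.card W : ℝ) ≤ ((univ.filter fun w : W => ∃ a ∈ A, ∃ b ∈ A,
        c + (w : G) = a + b).card : ℝ)) :
    t * (Nat.card W : ℝ) ≤ (Nat.card {v : G // v ∈ W ∧ ∃ a ∈ A, ∃ b ∈ A, c + v = a + b} : ℝ) := by
  refine h.trans ?_
  rw [Nat.cast_le, ← Fintype.card_coe, ← Nat.card_eq_fintype_card]
  refine Nat.card_le_card_of_injective (fun w => ⟨w.1.1, w.1.2, (mem_filter.1 w.2).2⟩) ?_
  intro w w' h
  have h1 := congrArg (fun v => v.1) h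
  exact Subtype.ext (Subtype.ext h1)

private theorem DNF2_num {c eps : ℝ} (hc : 0 < c) (he : 0 < eps) (he1 : eps ≤ 1) :
    16 * ((2 : ℝ) ^ ⌈48 / (c * eps)⌉₊ + 2) ≤ exp ((5 + 48 / c) / eps) := by
  set x : ℝ := 48 / (c * eps) with hx
  have hx0 : 0 < x := by positivity
  have h1 : (2 : ℝ) ^ ⌈x⌉₊ ≤ 2 * exp x := by
    have h2 : ((⌈x⌉₊ : ℕ) : ℝ) ≤ x + 1 := (Nat.ceil_lt_add_one hx0.le).le
    have h3 : (2 : ℝ) ^ ⌈x⌉₊ = exp (log 2 * ((⌈x⌉₊ : ℕ) : ℝ)) := by
      rw [mul_comm, exp_nat_mul, exp_log (by norm_num)]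
    have hl : log 2 ≤ 1 := by
      have := Real.log_two_lt_d9
      linarith
    have hl0 : 0 < log 2 := log_pos one_lt_two
    calc (2 : ℝ) ^ ⌈x⌉₊ = exp (log 2 * ((⌈x⌉₊ : ℕ) : ℝ)) := h3
      _ ≤ exp (log 2 + x) := by
          refine exp_le_exp.2 ?_
          nlinarith
      _ = 2 * exp x := by rw [exp_add, exp_log (by norm_num)]
  have h4 : 1 ≤ exp x := one_le_exp hx0.le
  have h5 : (64 : ℝ) ≤ exp 5 := by
    have h6 : (2 : ℝ) ≤ exp (5 / 6) := by
      have := add_one_le_exp ((5 : ℝ) / 12)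
      have h8 : exp ((5 : ℝ) / 6) = exp (5 / 12) * exp (5 / 12) := by
        rw [← exp_add]; norm_num
      rw [h8]
      nlinarith
    calc (64 : ℝ) = 2 ^ 6 := by norm_num
      _ ≤ exp (5 / 6) ^ 6 := pow_le_pow_left₀ (by norm_num) h6 6
      _ = exp 5 := by rw [← exp_nat_mul]; norm_num
  have h7 : (5 + 48 / c) / eps = 5 / eps + x := by
    rw [hx]
    field_simp
  rw [h7, exp_add]
  have h8 : exp 5 ≤ exp (5 / eps) := by
    refine exp_le_exp.2 ?_
    rw [le_div_iff₀ he]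
    linarith
  calc 16 * ((2 : ℝ) ^ ⌈x⌉₊ + 2) ≤ 16 * (2 * exp x + 2 * exp x) := by linarith
    _ = 64 * exp x := by ring
    _ ≤ exp (5 / eps) * exp x := by
        refine mul_le_mul_of_nonneg_right (h5.trans h8) (exp_pos _).le

/-- **DNF2.** -/
theorem thm_DNF2 (h1 : St_SDPI) (h2 : St_FBC2) : St_DNF2 := by
  obtain ⟨c, hc, hS⟩ := h1
  refine ⟨5 + 48 / c, by positivity, ?_⟩
  intro eps n A al he he1 hal hal2 hA
  obtain ⟨l, hl⟩ : ∃ l : ℝ, l = log (1 / al) := ⟨_, rfl⟩
  have hl2 : log 2 ≤ l := by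
    rw [hl]
    refine log_le_log (by norm_num) ?_
    rw [le_div_iff₀ hal]
    linarith
  have hlog2 : (1 : ℝ) / 2 ≤ log 2 := by
    have := Real.log_two_gt_d9
    linarith
  have hl0 : 0 < l := by linarith
  have hlal : log al = -l := by
    rw [hl, one_div, log_inv, neg_neg]
  have h2n : (0 : ℝ) < 2 ^ n := by positivity
  have hA0 : (0 : ℝ) < A.card := lt_of_lt_of_le (by positivity) hA
  have hAne : A.Nonempty := by
    rw [← Finset.card_pos]
    exact_mod_cast hA0
  have hx0 : 0 < 48 / (c * eps) := by positivity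
  have hJ1 : 1 ≤ ⌈48 / (c * eps)⌉₊ := Nat.one_le_ceil_iff.2 hx0
  have hG : ∀ x : Fin n → ZMod 2, x + x = 0 := fun x => by
    funext i
    exact CharTwo.add_self_eq_zero (x i)
  obtain ⟨W, B, p, c0, hB, hSp, hp, hcod, hI, hsup⟩ := h2 (Fin n → ZMod 2) hG A l
    ⌈48 / (c * eps)⌉₊ hAne hl0 hJ1 (by
      rw [DNF2_cardG, ← log_div h2n.ne' hA0.ne', hl]
      refine log_le_log (by positivity) ?_
      rw [div_le_div_iff₀ hA0 hal, one_mul]
      linarith)
  have hWx : ∀ x : W, x + x = 0 := fun x => Subtype.ext (hG x)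
  have hD := hS W hWx B p hB hSp hp
  set J : ℕ := ⌈48 / (c * eps)⌉₊ with hJ
  have hJr : 48 / (c * eps) ≤ (J : ℝ) := Nat.le_ceil _
  have hJ0 : (0 : ℝ) < J := by exact_mod_cast hJ1
  have hDf : Df p ≤ eps * l := by
    have h3 : c * Df p ≤ 48 * l / J := hD.trans hI
    have h4 : 48 ≤ c * eps * J := by
      rw [div_le_iff₀ (by positivity)] at hJr
      linarith
    have h5 : 48 * l / J ≤ c * (eps * l) := by
      rw [div_le_iff₀ hJ0]
      nlinarith
    exact le_of_mul_le_mul_left (h3.trans h5) hc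
  refine ⟨AddSubgroup.toZModSubmodule 2 W, c0, ?_, ?_⟩
  · rw [DNF2_cod] at hcod
    rw [← hl]
    have h3 := DNF2_num hc he he1
    rw [← hJ] at h3
    have h4 : 4 * (2 * (2 ^ J + 1) * l + 2 * log 2) ≤ 8 * ((2 : ℝ) ^ J + 2) * l := by
      nlinarith
    have h5 : 8 * ((2 : ℝ) ^ J + 2) * l ≤ exp ((5 + 48 / c) / eps) * l * log 2 := by
      have h6 : 0 < exp ((5 + 48 / c) / eps) * l := mul_pos (exp_pos _) hl0
      have h7 : 8 * ((2 : ℝ) ^ J + 2) * l ≤ exp ((5 + 48 / c) / eps) * l * (1 / 2) := by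
        nlinarith
      exact h7.trans (mul_le_mul_of_nonneg_left hlog2 h6.le)
    have h8 := (hcod.trans h4).trans h5
    exact le_of_mul_le_mul_right h8 (by linarith)
  · have h4 : Nat.card (AddSubgroup.toZModSubmodule 2 W) = Nat.card W := rfl
    rw [h4]
    have hpow : al ^ eps = exp (-(eps * l)) := by
      rw [rpow_def_of_pos hal, hlal]
      congr 1
      ring
    rw [hpow]
    obtain ⟨hV0, hV⟩ := DEN68.DNG_supp hp
      (univ.filter fun w : W => ∃ a ∈ A, ∃ b ∈ A, c0 + (w : Fin n → ZMod 2) = a + b) (by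
      intro x hx
      rw [mem_filter]
      exact ⟨mem_univ _, hsup x hx⟩)
    have hW0 : (0 : ℝ) < (Nat.card W : ℝ) := by
      exact_mod_cast Nat.card_pos
    have hcard : (Fintype.card W : ℝ) = (Nat.card W : ℝ) := by
      rw [Nat.card_eq_fintype_card]
    unfold Df at hDf
    rw [hcard] at hDf
    have h3 : log (Nat.card W) ≤ eps * l + log
        ((univ.filter fun w : W => ∃ a ∈ A, ∃ b ∈ A,
          c0 + (w : Fin n → ZMod 2) = a + b).card : ℝ) := by linarith
    have h5 : (Nat.card W : ℝ) ≤ exp (eps * l) *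
        ((univ.filter fun w : W => ∃ a ∈ A, ∃ b ∈ A,
          c0 + (w : Fin n → ZMod 2) = a + b).card : ℝ) := by
      calc (Nat.card W : ℝ) = exp (log (Nat.card W)) := (exp_log hW0).symm
        _ ≤ exp (eps * l + log _) := exp_le_exp.2 h3
        _ = _ := by rw [exp_add, exp_log hV0]
    refine DNF2_count A W c0 _ ?_
    calc exp (-(eps * l)) * (Nat.card W : ℝ) ≤ exp (-(eps * l)) * (exp (eps * l) * _) :=
          mul_le_mul_of_nonneg_left h5 (exp_pos _).le
      _ = _ := by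
          rw [← mul_assoc, ← exp_add, neg_add_cancel, exp_zero, one_mul]
          congr!

end Pool.Agent.BRQ
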