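import Pool.Agent.BR.St

/-!
Random laws on a finite group of exponent two and the moves `S` (sum of two independent copies) and
`C` (fibre of a sum). Paper: `/team-store/BRQ_paper.md`.
-/

set_option autoImplicit false

namespace Pool.Agent.BRQ

open Finset Real Pool.Agent.BR
open scoped Classical

/-- A random law on `G`: a finite set of classes `Ω` with weights `w`, and a law `p ω` for every
class of positive weight. -/
structure RL (G : Type) [AddCommGroup G] [Fintype G] where
  Ω : Type
  fin : Fintype Ω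
  w : Ω → ℝ
  p : Ω → G → ℝ
  hw : IsLaw w
  hp : ∀ ω, w ω ≠ 0 → IsLaw (p ω)

attribute [instance] RL.fin

section

variable {G : Type} [AddCommGroup G] [Fintype G]

/-- A single law. -/
def RL.one (p : G → ℝ) (hp : IsLaw p) : RL G where
  Ω := Unit
  fin := inferInstance
  w := fun _ => 1
  p := fun _ => p
  hw := ⟨fun _ => zero_le_one, by simp⟩
  hp := fun _ _ => hp

/-- The sum of two independent copies (with independent classes). -/
def RL.S (R : RL G) : RL G where
  Ω := R.Ω × R.Ω
  fin := inferInstance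
  w := fun a => R.w a.1 * R.w a.2
  p := fun a => conv (R.p a.1) (R.p a.2)
  hw := isLaw_prod R.hw R.hw
  hp := fun _ h => conv_law (R.hp _ (left_ne_zero_of_mul h)) (R.hp _ (right_ne_zero_of_mul h))

/-- The law of `X` given `X + Y = z` for two independent copies `X, Y` (with independent classes);
the class is `(ω₁, ω₂, z)`. -/
noncomputable def RL.C (R : RL G) : RL G where
  Ω := (R.Ω × R.Ω) × G
  fin := inferInstance
  w := fun a => R.w a.1.1 * R.w a.1.2 * conv (R.p a.1.1) (R.p a.1.2) a.2
  p := fun a => fib (R.p a.1.1) (R.p a.1.2) a.2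
  hw := by
    refine ⟨?_, ?_⟩
    · rintro ⟨⟨a, b⟩, z⟩
      by_cases h : R.w a * R.w b = 0
      · simp only [h, zero_mul, le_refl]
      · exact mul_nonneg (mul_nonneg (R.hw.nn _) (R.hw.nn _))
          ((conv_law (R.hp _ (left_ne_zero_of_mul h)) (R.hp _ (right_ne_zero_of_mul h))).nn z)
    · rw [Fintype.sum_prod_type]
      have h1 : ∀ a : R.Ω × R.Ω, ∑ z, R.w a.1 * R.w a.2 * conv (R.p a.1) (R.p a.2) z =
          R.w a.1 * R.w a.2 := by
        intro a
        rw [← mul_sum]
        by_cases h : R.w a.1 * R.w a.2 = 0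
        · rw [h, zero_mul]
        · rw [(conv_law (R.hp _ (left_ne_zero_of_mul h)) (R.hp _ (right_ne_zero_of_mul h))).sum,
            mul_one]
      simp only [h1]
      exact (isLaw_prod R.hw R.hw).sum
  hp := fun _ h => fib_law (R.hp _ (left_ne_zero_of_mul (left_ne_zero_of_mul h)))
    (R.hp _ (right_ne_zero_of_mul (left_ne_zero_of_mul h))) (right_ne_zero_of_mul h)

/-- Average deficiency. -/
noncomputable def aR (R : RL G) : ℝ := ∑ ω, R.w ω * Df (R.p ω)

/-- Average gain. -/
noncomputable def iR (B : G → ℝ) (R : RL G) : ℝ := ∑ ω, R.w ω * Ib B (R.p ω)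

/-- Average deficiency of the sum of two independent copies. -/
noncomputable def sR (R : RL G) : ℝ := aR R.S

/-- The mutual information `I(X + B ; Y + B)` of two laws, `X ~ p`, `Y ~ q`, `B` independent, in
the form `I_B(p) + I_B(q) - I_B(X | X + Y)`. -/
noncomputable def K2 (B p q : G → ℝ) : ℝ :=
  Ib B p + Ib B q - ∑ z, conv p q z * Ib B (fib p q z)

/-- The average of `K2` over two independent copies: `2 i(R) - i(C R)`. -/
noncomputable def kR (B : G → ℝ) (R : RL G) : ℝ := 2 * iR B R - iR B R.C

/-- `Gb R Q`: the random law `Q` is a translation covariant garbling of `R`: with independent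
`z ~ ζ` the pair `(α (ω, z), X + β (ω, z))` (`ω` the class of `R`, `X ~ R.p ω`) has the joint law of
class and value of `Q`. -/
def Gb (R Q : RL G) : Prop := ∃ (Z : Type) (_ : Fintype Z) (ζ : Z → ℝ) (α : R.Ω × Z → Q.Ω)
    (β : R.Ω × Z → G), IsLaw ζ ∧ ∀ (ω' : Q.Ω) (x : G), Q.w ω' * Q.p ω' x =
      ∑ a : R.Ω × Z, if α a = ω' then R.w a.1 * ζ a.2 * R.p a.1 (x + β a) else 0

end

end Pool.Agent.BRQ
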