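import Pool.Agent.BRQ.StD
import Pool.Agent.BR.Cond

/-!
BRQ (MP_68cffc_co): splitting off the diagonal with a function.
-/

set_option autoImplicit false

namespace Pool.Agent.BRQ

open Finset Real Pool.Agent.BR
open Pool.Agent.DEN68 (un)
open scoped Classical

theorem thm_DiagU : St_DiagU := by
  intro G _ _ h2 N Q u lam hN hQ hlam
  obtain ⟨M, rfl⟩ : ∃ M, N = M + 1 := ⟨N - 1, by omega⟩
  set Z : (Fin (M + 1) → G) → (Fin M → G) := fun y i => y i.succ + y 0 with hZ
  set cc : (Fin M → G) → G → (Fin (M + 1) → G) := fun z t i => (Fin.cons 0 z : Fin (M + 1) → G) i + t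
    with hcc
  have hcc0 : ∀ z t, cc z t 0 = t := by
    intro z t
    simp only [hcc, Fin.cons_zero, zero_add]
  have hccs : ∀ z t (i : Fin M), cc z t i.succ = z i + t := by
    intro z t i
    simp only [hcc, Fin.cons_succ]
  have huniq : ∀ (z : Fin M → G) (t : G) (y : Fin (M + 1) → G),
      (Z y, y 0) = (z, t) ↔ y = cc z t := by
    intro z t y
    rw [Prod.mk.injEq]
    constructor
    · rintro ⟨h1, h3⟩
      funext i
      refine Fin.cases ?_ (fun i => ?_) i
      · rw [hcc0, h3]
      · rw [hccs, ← h1, ← h3]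
        simp only [hZ]
        rw [add_add_self h2]
    · rintro rfl
      refine ⟨?_, hcc0 z t⟩
      funext i
      simp only [hZ]
      rw [hcc0, hccs, add_add_self h2]
  have hpr : ∀ z t, pr Q (fun y => (Z y, y 0)) (z, t) = Q (cc z t) := fun z t =>
    pr_single (cc z t) (huniq z t)
  have hmass : ∀ z, pr Q Z z = ∑ t, Q (cc z t) := by
    intro z
    have h3 : pr Q Z z = ∑ t, pr Q (fun y => (Z y, y 0)) (z, t) := by
      unfold pr
      simp only [sum_filter]
      rw [sum_comm]
      refine sum_congr rfl fun y _ => ?_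
      rw [sum_eq_single (y 0)]
      · by_cases h : Z y = z
        · rw [if_pos h, if_pos (by rw [h])]
        · rw [if_neg h, if_neg (fun hh => h (Prod.mk.inj hh).1)]
      · intro t _ ht
        exact if_neg (fun hh => ht (Prod.mk.inj hh).2.symm)
      · intro hh
        exact absurd (mem_univ _) hh
    rw [h3]
    exact sum_congr rfl fun t _ => hpr z t
  set R : (Fin M → G) → G → ℝ := fun z t => Q (cc z t) / pr Q Z z with hR
  have hRl : ∀ z, pr Q Z z ≠ 0 → IsLaw (R z) := by
    intro z hz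
    refine ⟨fun t => div_nonneg (hQ.nn _) (pr_nonneg hQ.nn _ _), ?_⟩
    simp only [hR]
    rw [← sum_div, ← hmass, div_self hz]
  have hfib := H_fib (P := Q) Z (fun y => y 0) R (fun z hz => (hRl z hz).sum) (fun z t => by
    rw [hpr]
    simp only [hR]
    rcases eq_or_ne (pr Q Z z) 0 with h0 | h0
    · rw [h0, zero_mul]
      have h3 := hmass z
      rw [h0] at h3
      exact (sum_eq_zero_iff_of_nonneg (fun t _ => hQ.nn _)).1 h3.symm t (mem_univ t)
    · field_simp)
  have e1 : H Q (fun y => (Z y, y 0)) = ent Q := by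
    rw [ent_eq_H]
    refine H_eq ?_
    intro y y'
    constructor
    · intro h
      have h3 := (huniq (Z y') (y' 0) y).1 h
      have h4 := (huniq (Z y') (y' 0) y').1 rfl
      exact h3.trans h4.symm
    · rintro h
      rw [show y = y' from h]
  have e2 := H_le_log hQ Z
  have hcard1 : (Fintype.card (Fin M → G) : ℝ) = (Fintype.card G : ℝ) ^ M := by
    rw [Fintype.card_fun, Fintype.card_fin]
    push_cast
    rfl
  have hcard2 : (Fintype.card (Fin (M + 1) → G) : ℝ) = (Fintype.card G : ℝ) ^ (M + 1) := by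
    rw [Fintype.card_fun, Fintype.card_fin]
    push_cast
    rfl
  rw [hcard1, log_pow] at e2
  rw [e1] at hfib
  have hsum1 : ∑ z, pr Q Z z = 1 := by rw [sum_pr, hQ.sum]
  have hav : ∑ z, pr Q Z z * Df (R z) ≤ log (Fintype.card (Fin (M + 1) → G)) - ent Q := by
    have : ∑ z, pr Q Z z * Df (R z) = log (Fintype.card G) - ∑ z, pr Q Z z * ent (R z) := by
      unfold Df
      simp only [mul_sub, sum_sub_distrib, ← sum_mul, hsum1, one_mul]
    rw [this, hcard2, log_pow]
    push_cast
    linarith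
  have hmul : ∀ z t, pr Q Z z * R z t = Q (cc z t) := by
    intro z t
    simp only [hR]
    rcases eq_or_ne (pr Q Z z) 0 with h0 | h0
    · rw [h0, zero_mul]
      have h3 := hmass z
      rw [h0] at h3
      exact ((sum_eq_zero_iff_of_nonneg (fun t _ => hQ.nn _)).1 h3.symm t (mem_univ t)).symm
    · field_simp
  have hu : ∑ z, pr Q Z z * ∑ t, R z t * u (cc z t) = ∑ y, Q y * u y := by
    have h3 : ∀ z, pr Q Z z * ∑ t, R z t * u (cc z t) = ∑ t, Q (cc z t) * u (cc z t) := by
      intro z
      rw [mul_sum]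
      refine sum_congr rfl fun t _ => ?_
      rw [← mul_assoc, hmul]
    rw [sum_congr rfl fun z _ => h3 z, ← Fintype.sum_prod_type']
    refine sum_bij' (fun a _ => cc a.1 a.2) (fun y _ => (Z y, y 0)) (fun _ _ => mem_univ _)
      (fun _ _ => mem_univ _) (fun a _ => ?_) (fun y _ => ?_) (fun _ _ => rfl)
    · exact (huniq a.1 a.2 (cc a.1 a.2)).2 rfl
    · exact ((huniq (Z y) (y 0) y).1 rfl).symm
  have hav2 : ∑ z, pr Q Z z * (∑ t, R z t * u (cc z t) + lam * Df (R z)) ≤
      ∑ y, Q y * u y + lam * (log (Fintype.card (Fin (M + 1) → G)) - ent Q) := by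
    have h3 : ∑ z, pr Q Z z * (∑ t, R z t * u (cc z t) + lam * Df (R z)) =
        ∑ z, pr Q Z z * ∑ t, R z t * u (cc z t) + lam * ∑ z, pr Q Z z * Df (R z) := by
      rw [mul_sum, ← sum_add_distrib]
      refine sum_congr rfl fun z _ => ?_
      ring
    rw [h3, hu]
    have h4 := mul_le_mul_of_nonneg_left hav hlam
    linarith
  obtain ⟨z, hz0, hz1⟩ : ∃ z, pr Q Z z ≠ 0 ∧
      ∑ t, R z t * u (cc z t) + lam * Df (R z) ≤
      ∑ y, Q y * u y + lam * (log (Fintype.card (Fin (M + 1) → G)) - ent Q) := by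
    by_contra hcon
    push Not at hcon
    set D := ∑ y, Q y * u y + lam * (log (Fintype.card (Fin (M + 1) → G)) - ent Q) with hD
    have h3 : ∑ z, pr Q Z z * D <
        ∑ z, pr Q Z z * (∑ t, R z t * u (cc z t) + lam * Df (R z)) := by
      obtain ⟨z₀, hz₀⟩ : ∃ z, pr Q Z z ≠ 0 := by
        by_contra hh
        push Not at hh
        simp only [hh, sum_const_zero] at hsum1
        exact zero_ne_one hsum1
      refine sum_lt_sum (fun z _ => ?_) ⟨z₀, mem_univ _, ?_⟩
      · rcases eq_or_ne (pr Q Z z) 0 with h0 | h0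
        · rw [h0, zero_mul, zero_mul]
        · exact mul_le_mul_of_nonneg_left (hcon z h0).le (pr_nonneg hQ.nn _ _)
      · exact mul_lt_mul_of_pos_left (hcon z₀ hz₀)
          (lt_of_le_of_ne (pr_nonneg hQ.nn _ _) (Ne.symm hz₀))
    rw [← sum_mul, hsum1, one_mul] at h3
    linarith
  refine ⟨fun i => (Fin.cons 0 z : Fin (M + 1) → G) i, R z, hRl z hz0, fun t ht => ?_, hz1⟩
  intro h
  apply ht
  simp only [hR]
  rw [show Q (cc z t) = 0 from h, zero_div]

end Pool.Agent.BRQ
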