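import Pool.Agent.BRQ.StD

/-!
BRQ-D [Drop]: dropping one coordinate of a configuration.
-/

set_option autoImplicit false

namespace Pool.Agent.BRQ

open Finset Real Pool.Agent.BR
open Pool.Agent.DEN68 (un)
open scoped Classical

section

variable {G : Type} [AddCommGroup G] [Fintype G]

/-- The number of admissible values of the coordinate `i` over `x`. -/
noncomputable def Drop_r {N : ℕ} (K Q : Fin N → Finset G) (i : Fin N) (x : G) : ℝ :=
  ((univ.filter fun b : G => b ∈ Q i ∧ x + b ∈ K i).card : ℝ)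

/-- The number of `y` over `x`. -/
noncomputable def Drop_R {N : ℕ} (K Q : Fin N → Finset G) (x : G) : ℝ := ∏ i, Drop_r K Q i x

theorem Drop_fib {N : ℕ} (K Q : Fin N → Finset G) (x : G) :
    ((univ.filter fun y : Fin N → G => (x, y) ∈ Gam K Q).card : ℝ) = Drop_R K Q x := by
  have h : (univ.filter fun y : Fin N → G => (x, y) ∈ Gam K Q) =
      Fintype.piFinset fun i => univ.filter fun b : G => b ∈ Q i ∧ x + b ∈ K i := by
    ext y
    simp [Gam, Fintype.mem_piFinset]
  rw [h, Fintype.card_piFinset]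
  unfold Drop_R Drop_r
  push_cast
  rfl

theorem Drop_card {N : ℕ} (K Q : Fin N → Finset G) :
    ((Gam K Q).card : ℝ) = ∑ x, Drop_R K Q x := by
  have h : (Gam K Q).card = ∑ x : G, (univ.filter fun y : Fin N → G => (x, y) ∈ Gam K Q).card := by
    rw [card_eq_sum_card_fiberwise (f := fun a : G × (Fin N → G) => a.1) (t := univ)
      (fun _ _ => mem_coe.2 (mem_univ _))]
    refine sum_congr rfl fun x _ => ?_
    refine card_nbij' (fun a => a.2) (fun y => (x, y)) ?_ ?_ ?_ ?_
    · rintro ⟨a, b⟩ hab
      simp only [coe_filter, Set.mem_ofPred_eq, mem_univ, true_and] at hab ⊢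
      obtain ⟨h1, rfl⟩ := hab
      exact h1
    · intro y hy
      simp only [coe_filter, Set.mem_ofPred_eq, mem_univ, true_and] at hy ⊢
      exact ⟨hy, trivial⟩
    · rintro ⟨a, b⟩ hab
      simp only [coe_filter, Set.mem_ofPred_eq] at hab
      obtain ⟨h1, rfl⟩ := hab
      rfl
    · intro y _
      rfl
  rw [h]
  push_cast
  exact sum_congr rfl fun x _ => Drop_fib K Q x

theorem Drop_r_nonneg {N : ℕ} (K Q : Fin N → Finset G) (i : Fin N) (x : G) :
    0 ≤ Drop_r K Q i x := Nat.cast_nonneg _

theorem Drop_R_nonneg {N : ℕ} (K Q : Fin N → Finset G) (x : G) :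
    0 ≤ Drop_R K Q x := prod_nonneg fun i _ => Drop_r_nonneg K Q i x

theorem Drop_split {n : ℕ} (K Q : Fin (n + 1) → Finset G) (i : Fin (n + 1)) (x : G) :
    Drop_R K Q x = Drop_r K Q i x *
      Drop_R (fun j => K (i.succAbove j)) (fun j => Q (i.succAbove j)) x := by
  unfold Drop_R
  rw [Fin.prod_univ_succAbove _ i]
  rfl

theorem Drop_px {N : ℕ} (K Q : Fin N → Finset G) (x : G) :
    px K Q x = Drop_R K Q x / ((Gam K Q).card : ℝ) := by
  unfold px
  rw [Drop_fib]

theorem Drop_one {n : ℕ} (K Q : Fin (n + 1) → Finset G) (hne : (Gam K Q).Nonempty)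
    (i : Fin (n + 1))
    (hi : (Gam (fun j => K (i.succAbove j)) (fun j => Q (i.succAbove j))).Nonempty) :
    log ((Gam K Q).card : ℝ) -
      log ((Gam (fun j => K (i.succAbove j)) (fun j => Q (i.succAbove j))).card : ℝ) ≤
      ∑ x, px K Q x * log (Drop_r K Q i x) := by
  have hG : (0 : ℝ) < ((Gam K Q).card : ℝ) := by exact_mod_cast hne.card_pos
  have hGi : (0 : ℝ) < ((Gam (fun j => K (i.succAbove j)) (fun j => Q (i.succAbove j))).card : ℝ) :=
    by exact_mod_cast hi.card_pos
  set Ri : G → ℝ := fun x => Drop_R (fun j => K (i.succAbove j)) (fun j => Q (i.succAbove j)) x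
    with hRi
  set A : ℝ := ((Gam K Q).card : ℝ) with hA
  set B : ℝ := ((Gam (fun j => K (i.succAbove j)) (fun j => Q (i.succAbove j))).card : ℝ) with hB
  have hsp : ∑ x, px K Q x = 1 := by
    simp only [Drop_px]
    rw [← sum_div, ← Drop_card]
    exact div_self hG.ne'
  have hsq : ∑ x, Ri x / B = 1 := by
    rw [← sum_div, hRi, ← Drop_card]
    exact div_self hGi.ne'
  have g := gibbs univ (px K Q) (fun x => Ri x / B)
    (fun x _ => by rw [Drop_px]; exact div_nonneg (Drop_R_nonneg K Q x) hG.le)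
    (fun x _ => div_nonneg (Drop_R_nonneg _ _ x) hGi.le)
    (fun x _ h0 => by
      have h1 : Ri x = 0 := by
        rcases div_eq_zero_iff.1 h0 with h | h
        · exact h
        · exact absurd h hGi.ne'
      rw [Drop_px, Drop_split K Q i x]
      show Drop_r K Q i x * Ri x / A = 0
      rw [h1, mul_zero, zero_div])
    (by rw [hsp, hsq])
  have hpt : ∀ x, px K Q x * log (px K Q x) - px K Q x * log (Ri x / B) =
      px K Q x * log (Drop_r K Q i x) - px K Q x * (log A - log B) := by
    intro x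
    rcases eq_or_ne (px K Q x) 0 with h0 | h0
    · rw [h0]; ring
    · have hR : Drop_R K Q x ≠ 0 := by
        intro h
        exact h0 (by rw [Drop_px, h, zero_div])
      have hsplit : Drop_R K Q x = Drop_r K Q i x * Ri x := Drop_split K Q i x
      rw [hsplit] at hR
      have hr : Drop_r K Q i x ≠ 0 := left_ne_zero_of_mul hR
      have hq : Ri x ≠ 0 := right_ne_zero_of_mul hR
      have e1 : log (px K Q x) = log (Drop_r K Q i x) + log (Ri x) - log A := by
        rw [Drop_px, hsplit, log_div hR hG.ne', log_mul hr hq]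
      rw [e1, log_div hq hGi.ne']
      ring
  have hs := Finset.sum_congr (rfl : (univ : Finset G) = univ) fun x _ => hpt x
  rw [sum_sub_distrib, sum_sub_distrib, ← sum_mul, hsp, one_mul] at hs
  linarith

end

theorem thm_Drop : St_Drop := by
  intro G _ _ M n K Q hM hne
  have hi : ∀ i : Fin (n + 1),
      (Gam (fun j => K (i.succAbove j)) (fun j => Q (i.succAbove j))).Nonempty := by
    intro i
    obtain ⟨⟨x, y⟩, hxy⟩ := hne
    refine ⟨(x, fun j => y (i.succAbove j)), ?_⟩
    simp only [Gam, mem_filter, mem_univ, true_and] at hxy ⊢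
    exact fun j => hxy _
  refine ⟨hi, ?_⟩
  have hG : (0 : ℝ) < ((Gam K Q).card : ℝ) := by exact_mod_cast hne.card_pos
  have hsp : ∑ x, px K Q x = 1 := by
    simp only [Drop_px]
    rw [← sum_div, ← Drop_card]
    exact div_self hG.ne'
  have h1 := Finset.sum_le_sum fun i (_ : i ∈ (univ : Finset (Fin (n + 1)))) =>
    Drop_one K Q hne i (hi i)
  rw [sum_sub_distrib, sum_const, card_univ, Fintype.card_fin, sum_comm] at h1
  have h2 : ∑ x, ∑ i, px K Q x * log (Drop_r K Q i x) =
      log ((Gam K Q).card : ℝ) - ent (px K Q) := by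
    have h3 : ∀ x, ∑ i, px K Q x * log (Drop_r K Q i x) =
        px K Q x * log ((Gam K Q).card : ℝ) - negMulLog (px K Q x) := by
      intro x
      rw [← mul_sum]
      rcases eq_or_ne (px K Q x) 0 with h0 | h0
      · rw [h0]; simp
      · have hR : Drop_R K Q x ≠ 0 := by
          intro h
          exact h0 (by rw [Drop_px, h, zero_div])
        have hr : ∀ i ∈ (univ : Finset (Fin (n + 1))), Drop_r K Q i x ≠ 0 := by
          intro i _ h
          exact hR (prod_eq_zero (mem_univ i) h)
        have e1 : ∑ i, log (Drop_r K Q i x) = log (Drop_R K Q x) := by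
          unfold Drop_R
          rw [log_prod hr]
        have e2 : log (px K Q x) = log (Drop_R K Q x) - log ((Gam K Q).card : ℝ) := by
          rw [Drop_px, log_div hR hG.ne']
        rw [e1, negMulLog, e2]
        ring
    rw [sum_congr rfl fun x _ => h3 x, sum_sub_distrib, ← sum_mul, hsp, one_mul]
    rfl
  rw [h2] at h1
  have h4 : ∀ i : Fin (n + 1), ∑ j, log (((Q (i.succAbove j)).card : ℕ) : ℝ) =
      ∑ j, log ((Q j).card : ℝ) - log ((Q i).card : ℝ) := by
    intro i
    rw [Fin.sum_univ_succAbove (fun j => log ((Q j).card : ℝ)) i]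
    ring
  have h5 : ∑ i : Fin (n + 1), Vv M (fun j => K (i.succAbove j)) (fun j => Q (i.succAbove j)) =
      (n + 1) * (log (Fintype.card G) * (1 + (n : ℝ) / M)) +
        (1 - 1 / (M : ℝ)) * (n * ∑ j, log ((Q j).card : ℝ)) -
      ∑ i : Fin (n + 1), log ((Gam (fun j => K (i.succAbove j))
        (fun j => Q (i.succAbove j))).card : ℝ) := by
    have h6 : ∑ i : Fin (n + 1), (1 - 1 / (M : ℝ)) *
        ∑ j, log (((Q (i.succAbove j)).card : ℕ) : ℝ) =
        (1 - 1 / (M : ℝ)) * (n * ∑ j, log ((Q j).card : ℝ)) := by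
      rw [← mul_sum, sum_congr rfl fun i _ => h4 i, sum_sub_distrib, sum_const, card_univ,
        Fintype.card_fin, nsmul_eq_mul]
      push_cast
      ring
    unfold Vv
    rw [sum_sub_distrib, sum_add_distrib, h6, sum_const, card_univ, Fintype.card_fin,
      nsmul_eq_mul]
    push_cast
    ring
  rw [h5]
  unfold Vv Df
  rw [nsmul_eq_mul] at h1
  push_cast at h1 ⊢
  have e : ((n : ℝ) + 1) * (log (Fintype.card G) * (1 + (n : ℝ) / M)) =
      n * (log (Fintype.card G) * (1 + ((n : ℝ) + 1) / M)) + log (Fintype.card G) := by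
    ring
  rw [e]
  nlinarith [h1]

end Pool.Agent.BRQ
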