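import Pool.Agent.BRQ.St
import Pool.Agent.BR.Core
import Pool.Agent.BR.DW

/-!
# BRQ, module FBC2 (helper15): a fibre, two summands
-/

set_option autoImplicit false

namespace Pool.Agent.BRQ

open Finset Real Pool.Agent.BR
open scoped Classical

section

variable {G : Type}

private theorem FBC2_law [Fintype G] {T : Finset G} (hT : T.Nonempty) : IsLaw (DEN68.un T) := by
  have h0 : (0 : ℝ) < (T.card : ℝ) := by exact_mod_cast Finset.card_pos.2 hT
  refine ⟨fun x => ?_, ?_⟩
  · unfold DEN68.un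
    split_ifs
    · positivity
    · exact le_rfl
  · unfold DEN68.un
    rw [Finset.sum_ite_mem, Finset.univ_inter, Finset.sum_const, nsmul_eq_mul, mul_one_div,
      div_self h0.ne']

private theorem FBC2_ne {T : Finset G} {x : G} (h : DEN68.un T x ≠ 0) : x ∈ T := by
  unfold DEN68.un at h
  by_contra hx
  rw [if_neg hx] at h
  exact h rfl

end

/-- **FBC2.** -/
theorem thm_FBC2 (h1 : St_CLS2) (h2 : Pool.Agent.BR.St_Core) (h3 : Pool.Agent.BR.St_Inv)
    (_h4 : Pool.Agent.BR.St_DW) : St_FBC2 := by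
  intro G _ _ hG A l J hA hl hJ hlog
  obtain ⟨B0, ps, T, c0, hB0, hps, hpos, hT, hsum, hDf, hTl, hKL⟩ := h1 G hG A l J hA hl hJ hlog
  obtain ⟨W, b, hWb, hspr, hcod⟩ := h2 G hG B0 hB0
  have hB' : IsLaw (fw W B0 b) := core_fw_law W hB0 b hWb
  have hun : IsLaw (DEN68.un T) := FBC2_law hT
  have hJr : (0 : ℝ) < (J : ℝ) := by exact_mod_cast hJ
  have hinv := h3 G hG W b (fw W B0 b) (DEN68.un T) ps (16 * l / J) hB' hun hps hpos (by
    intro w hw
    refine hKL _ fun h0 => hw ?_
    unfold fw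
    rw [h0, zero_div])
  have hex : ∃ x, DEN68.un T x ≠ 0 ∧ Ib (fw W B0 b) (fw W (DEN68.un T) x) ≤ 48 * l / J := by
    by_contra hno
    push Not at hno
    have hpt : ∀ x, DEN68.un T x * (48 * l / J) ≤
        DEN68.un T x * Ib (fw W B0 b) (fw W (DEN68.un T) x) := by
      intro x
      rcases eq_or_ne (DEN68.un T x) 0 with h0 | h0
      · rw [h0, zero_mul, zero_mul]
      · exact mul_le_mul_of_nonneg_left (hno x h0).le (hun.nn x)
    have h5 := sum_le_sum fun x (_ : x ∈ (univ : Finset G)) => hpt x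
    rw [← sum_mul, hun.sum, one_mul] at h5
    have h6 := h5.trans hinv
    have h7 : 16 * l / J < 48 * l / J := by
      rw [div_lt_div_iff_of_pos_right hJr]
      linarith
    linarith
  obtain ⟨x, hx0, hxI⟩ := hex
  refine ⟨W, fw W B0 b, fw W (DEN68.un T) x, c0 + x, hB', hspr, DW_law W hun hx0, ?_, hxI, ?_⟩
  · exact hcod.trans (by linarith)
  · intro u hu
    have hne : x + (u : G) ∈ T := by
      apply FBC2_ne
      intro h0
      apply hu
      unfold fw
      rw [h0, zero_div]
    obtain ⟨a, ha, b', hb', he⟩ := hsum _ hne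
    refine ⟨a, ha, b', hb', ?_⟩
    rw [← he]
    abel

end Pool.Agent.BRQ
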