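import Pool.Agent.BRQ.StD

set_option autoImplicit false

/-!
# BRQ Grow (MP_68cffc_co): growth of the sequence
-/

namespace Pool.Agent.BRQ

open Finset Real Pool.Agent.BR
open Pool.Agent.DEN68 (un)
open scoped Classical

private lemma Grow_step {C x y : ℝ} {n : ℕ} (hC : 1 ≤ C) (hx : 0 ≤ x) (hxy : x ≤ y)
    (h : y ≤ 2 * C * (n + 1) * (y - x)) :
    x * (((n : ℝ) + 2) / ((n : ℝ) + 1)) ^ (1 / (2 * C)) ≤ y := by
  have hn : (0 : ℝ) < (n : ℝ) + 1 := by positivity
  have hC2 : 0 < 2 * C := by linarith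
  have hy : 0 ≤ y := hx.trans hxy
  have h1 : (((n : ℝ) + 2) / ((n : ℝ) + 1)) ^ (1 / (2 * C)) ≤
      1 + 1 / (2 * C) * (1 / ((n : ℝ) + 1)) := by
    have e : ((n : ℝ) + 2) / ((n : ℝ) + 1) = 1 + 1 / ((n : ℝ) + 1) := by
      field_simp
      ring
    rw [e]
    refine _root_.rpow_one_add_le_one_add_mul_self ?_ (by positivity) ?_
    · have : 0 < 1 / ((n : ℝ) + 1) := by positivity
      linarith
    · rw [div_le_one hC2]
      linarith
  have h2 : x * (((n : ℝ) + 2) / ((n : ℝ) + 1)) ^ (1 / (2 * C)) ≤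
      x * (1 + 1 / (2 * C) * (1 / ((n : ℝ) + 1))) := mul_le_mul_of_nonneg_left h1 hx
  have h3 : x * (1 / (2 * C) * (1 / ((n : ℝ) + 1))) ≤ y - x := by
    have e : x * (1 / (2 * C) * (1 / ((n : ℝ) + 1))) = x / (2 * C * (n + 1)) := by
      field_simp
    rw [e, div_le_iff₀ (by positivity)]
    calc x ≤ y := hxy
      _ ≤ 2 * C * (n + 1) * (y - x) := h
      _ = (y - x) * (2 * C * (n + 1)) := by ring
  linarith

theorem thm_Grow : St_Grow := by
  intro C eps l M f hC he0 he1 hl hM hf hfM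
  by_contra hcon
  push Not at hcon
  have hC2 : 0 < 2 * C := by linarith
  have hlog : 0 < log 2 := Real.log_pos (by norm_num)
  have hel : 0 < eps * l := mul_pos he0 (by linarith)
  have h2e : 1 ≤ 2 / eps := by
    rw [le_div_iff₀ he0]
    linarith
  have hpow : 2 / eps ≤ (2 / eps) ^ (2 * C) := by
    have := Real.rpow_le_rpow_of_exponent_le h2e (show (1 : ℝ) ≤ 2 * C by linarith)
    rwa [Real.rpow_one] at this
  have hM0 : (0 : ℝ) < M := by
    have : 0 < (2 / eps) ^ (2 * C) := by positivity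
    linarith
  have hM1 : 1 ≤ M := by
    have : 0 < M := by exact_mod_cast hM0
    omega
  have hsm : 8 * log 2 / M ≤ eps * l / 2 := by
    rw [div_le_iff₀ hM0]
    have h1 : 16 / eps ≤ M := by
      have h3 : 16 / eps = 8 * (2 / eps) := by ring
      have h4 : 0 < 2 / eps := by positivity
      linarith
    rw [div_le_iff₀ he0] at h1
    have h2 : 8 * log 2 ≤ (M * eps) / 2 * log 2 := by
      have : 8 ≤ (M * eps) / 2 := by linarith
      exact mul_le_mul_of_nonneg_right this hlog.le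
    have h3 : (M * eps) / 2 * log 2 ≤ (M * eps) / 2 * l :=
      mul_le_mul_of_nonneg_left hl (by positivity)
    linarith
  have key : ∀ n : ℕ, n + 1 ≤ M →
      eps * l < f (n + 1) ∧ f 1 * (((n : ℝ) + 2) / 2) ^ (1 / (2 * C)) ≤ f (n + 1) := by
    intro n
    induction n with
    | zero =>
      intro _
      refine ⟨by simpa using hcon, ?_⟩
      have e : (((0 : ℕ) : ℝ) + 2) / 2 = 1 := by norm_num
      rw [e, Real.one_rpow, mul_one]
    | succ n ih =>
      intro hn
      obtain ⟨i1, i2⟩ := ih (by omega)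
      obtain ⟨j1, j2⟩ := hf (n + 1) hn
      have j3 : eps * l < f (n + 1 + 1) := lt_of_lt_of_le i1 j1
      refine ⟨j3, ?_⟩
      have j4 : f (n + 1 + 1) ≤ 2 * C * (((n + 1 : ℕ) : ℝ) + 1) * (f (n + 1 + 1) - f (n + 1)) := by
        linarith
      have j5 := Grow_step (n := n + 1) hC (by linarith) j1 j4
      refine le_trans ?_ j5
      have e : ((((n + 1 : ℕ) : ℝ) + 2) / 2) ^ (1 / (2 * C)) =
          (((n : ℝ) + 2) / 2) ^ (1 / (2 * C)) *
            ((((n + 1 : ℕ) : ℝ) + 2) / (((n + 1 : ℕ) : ℝ) + 1)) ^ (1 / (2 * C)) := by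
        rw [← Real.mul_rpow (by positivity) (by positivity)]
        congr 1
        push_cast
        field_simp
        ring
      rw [e, ← mul_assoc]
      exact mul_le_mul_of_nonneg_right i2 (by positivity)
  obtain ⟨m, rfl⟩ : ∃ m, M = m + 1 := ⟨M - 1, by omega⟩
  obtain ⟨-, k2⟩ := key m le_rfl
  have hbig : (2 / eps) ^ (2 * C) ≤ ((m : ℝ) + 2) / 2 := by
    have h1 : 0 < (2 / eps) ^ (2 * C) := by positivity
    push_cast at hM
    linarith
  have h5 : 2 / eps ≤ (((m : ℝ) + 2) / 2) ^ (1 / (2 * C)) := by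
    have h6 := Real.rpow_le_rpow (by positivity) hbig (show 0 ≤ 1 / (2 * C) by positivity)
    rw [← Real.rpow_mul (by positivity), mul_one_div, div_self hC2.ne', Real.rpow_one] at h6
    exact h6
  have h7 : f 1 * (2 / eps) ≤ f (m + 1) :=
    (mul_le_mul_of_nonneg_left h5 (by linarith)).trans k2
  have h8 : eps * l * (2 / eps) < f 1 * (2 / eps) :=
    mul_lt_mul_of_pos_right hcon (by positivity)
  have h9 : eps * l * (2 / eps) = 2 * l := by
    field_simp
  linarith

end Pool.Agent.BRQ
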