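import Pool.Agent.BRQ.StD

/-!
BRQ, module Joint: the joint law of a configuration.
-/

set_option autoImplicit false

namespace Pool.Agent.BRQ

open Finset Real Pool.Agent.BR
open Pool.Agent.DEN68 (un)
open scoped Classical

section

variable {G : Type} [AddCommGroup G] [Fintype G]

private theorem Joint_sum {N : ℕ} (K Q : Fin N → Finset G) (F : G → (Fin N → G) → ℝ) :
    ∑ x, ∑ y ∈ univ.filter (fun y : Fin N → G => (x, y) ∈ Gam K Q), F x y =
      ∑ y, ∑ x ∈ univ.filter (fun x : G => (x, y) ∈ Gam K Q), F x y := by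
  simp only [sum_filter]
  exact sum_comm

private theorem Joint_card {N : ℕ} (K Q : Fin N → Finset G) :
    ((Gam K Q).card : ℝ) = ∑ x, ((univ.filter fun y : Fin N → G => (x, y) ∈ Gam K Q).card : ℝ) := by
  have h : ((Gam K Q).card : ℝ) = ∑ a : G × (Fin N → G), if a ∈ Gam K Q then (1 : ℝ) else 0 := by
    rw [sum_ite_mem, univ_inter, sum_const, nsmul_eq_mul, mul_one]
  rw [h, Fintype.sum_prod_type]
  refine sum_congr rfl fun x _ => ?_
  rw [← sum_filter, sum_const, nsmul_eq_mul, mul_one]

private theorem Joint_card' {N : ℕ} (K Q : Fin N → Finset G) :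
    ((Gam K Q).card : ℝ) = ∑ y, ((univ.filter fun x : G => (x, y) ∈ Gam K Q).card : ℝ) := by
  rw [Joint_card]
  have h := Joint_sum K Q fun _ _ => 1
  simp only [sum_const, nsmul_eq_mul, mul_one] at h
  exact h

private theorem Joint_fib {N : ℕ} (K Q : Fin N → Finset G) (y : Fin N → G) (hy : ∀ i, y i ∈ Q i) :
    (univ.filter fun x : G => (x, y) ∈ Gam K Q) = Tt K y := by
  ext x
  simp only [Gam, Tt, mem_filter, mem_univ, true_and]
  exact ⟨fun h i => (h i).2, fun h i => ⟨hy i, h i⟩⟩

private theorem Joint_fib0 {N : ℕ} (K Q : Fin N → Finset G) (y : Fin N → G) (hy : ¬ ∀ i, y i ∈ Q i) :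
    (univ.filter fun x : G => (x, y) ∈ Gam K Q) = ∅ := by
  rw [filter_eq_empty_iff]
  intro x _ h
  simp only [Gam, mem_filter, mem_univ, true_and] at h
  exact hy fun i => (h i).1

omit [AddCommGroup G] in
private theorem Joint_KL (S : Finset G) (p : G → ℝ) (hp : ∀ x ∈ S, 0 < p x) :
    (S.card : ℝ) * KL (un S) p = -((S.card : ℝ) * log S.card) - ∑ x ∈ S, log (p x) := by
  rcases S.eq_empty_or_nonempty with h | h
  · subst h
    simp
  · have hc : (0 : ℝ) < S.card := by exact_mod_cast h.card_pos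
    unfold KL un
    have h1 : ∀ x, (if x ∈ S then 1 / (S.card : ℝ) else 0) *
        log ((if x ∈ S then 1 / (S.card : ℝ) else 0) / p x) =
        if x ∈ S then (1 / (S.card : ℝ)) * (-log S.card - log (p x)) else 0 := by
      intro x
      by_cases hx : x ∈ S
      · simp only [if_pos hx]
        rw [log_div (by positivity) (hp x hx).ne', one_div, log_inv]
      · simp only [if_neg hx, zero_mul]
    rw [sum_congr rfl fun x _ => h1 x, sum_ite_mem, univ_inter, ← mul_sum, sum_sub_distrib,
      sum_const, nsmul_eq_mul]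
    field_simp

omit [AddCommGroup G] in
private theorem Joint_KL0 (S : Finset G) (hS : S.Nonempty) (p : G → ℝ) (hp : IsLaw p)
    (h0 : ∀ x ∈ S, p x ≠ 0) : 0 ≤ KL (un S) p := by
  have hc : (0 : ℝ) < S.card := by exact_mod_cast hS.card_pos
  have hun : ∀ x, 0 ≤ un S x := fun x => by
    unfold un
    split_ifs <;> positivity
  have hsum : ∑ x, un S x = 1 := by
    unfold un
    rw [sum_ite_mem, univ_inter, sum_const, nsmul_eq_mul, mul_one_div_cancel hc.ne']
  have h := gibbs univ (un S) p (fun i _ => hun i) (fun i _ => hp.nn i) (fun i _ h => by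
    unfold un
    rw [if_neg]
    intro hi
    exact h0 i hi h) (by rw [hp.sum, hsum])
  unfold KL
  have h1 : ∀ x, un S x * log (un S x / p x) = un S x * log (un S x) - un S x * log (p x) := by
    intro x
    by_cases hx : x ∈ S
    · have hx1 : un S x ≠ 0 := by
        unfold un
        rw [if_pos hx]
        positivity
      rw [log_div hx1 (h0 x hx)]
      ring
    · have hx1 : un S x = 0 := by
        unfold un
        rw [if_neg hx]
      rw [hx1]
      ring
  rw [sum_congr rfl fun x _ => h1 x, sum_sub_distrib]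
  linarith

omit [AddCommGroup G] in
private theorem Joint_ent {N : ℕ} (Q : Fin N → Finset G) (R : (Fin N → G) → ℝ) (hR : IsLaw R)
    (h0 : ∀ y, R y ≠ 0 → ∀ i, y i ∈ Q i) : ent R ≤ ∑ i, log ((Q i).card : ℝ) := by
  set D : Finset (Fin N → G) := Fintype.piFinset Q with hD
  have hmem : ∀ y, y ∉ D → R y = 0 := by
    intro y hy
    by_contra h
    exact hy (Fintype.mem_piFinset.2 (h0 y h))
  have hs : ∑ y ∈ D, R y = 1 := by
    rw [← hR.sum]
    exact sum_subset (subset_univ _) fun y _ hy => hmem y hy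
  have hne : D.Nonempty := by
    by_contra h
    rw [not_nonempty_iff_eq_empty.1 h, sum_empty] at hs
    norm_num at hs
  have hc : (0 : ℝ) < D.card := by exact_mod_cast hne.card_pos
  have h := gibbs D R (fun _ => 1 / (D.card : ℝ)) (fun i _ => hR.nn i) (fun _ _ => by positivity)
    (fun i _ h => by
      exfalso
      have h3 : (0 : ℝ) < 1 / (D.card : ℝ) := by positivity
      exact h3.ne' h) (by rw [hs, sum_const, nsmul_eq_mul, mul_one_div_cancel hc.ne'])
  rw [← sum_mul, hs, one_mul, one_div, log_inv] at h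
  have h1 : ent R = - ∑ y ∈ D, R y * log (R y) := by
    unfold ent
    rw [← sum_neg_distrib]
    symm
    rw [sum_subset (subset_univ D) fun y _ hy => by rw [hmem y hy]; simp]
    refine sum_congr rfl fun y _ => ?_
    unfold negMulLog
    ring
  have h2 : log (D.card : ℝ) = ∑ i, log ((Q i).card : ℝ) := by
    rw [hD, Fintype.card_piFinset]
    push_cast
    rw [log_prod]
    intro i _
    obtain ⟨y, hy⟩ := hne
    have h3 : (Q i).Nonempty := ⟨y i, Fintype.mem_piFinset.1 hy i⟩
    have : (0 : ℝ) < (Q i).card := by exact_mod_cast h3.card_pos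
    exact this.ne'
  rw [h1, ← h2]
  linarith

omit [AddCommGroup G] in
private theorem Joint_cube (N : ℕ) (inst : Fintype (Fin N → G)) :
    @Fintype.card (Fin N → G) inst = Fintype.card G ^ N := by
  rw [← Nat.card_eq_fintype_card, Nat.card_fun, Nat.card_eq_fintype_card, Nat.card_fin]

end

theorem thm_Joint : St_Joint := by
  intro G _ _ M N K Q hM hne
  have hg : (0 : ℝ) < (Gam K Q).card := by exact_mod_cast hne.card_pos
  set γ : ℝ := ((Gam K Q).card : ℝ) with hγ
  have hM0 : (0 : ℝ) < M := by exact_mod_cast hM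
  have hM1 : (1 : ℝ) ≤ M := by exact_mod_cast hM
  have hpl : IsLaw (px K Q) := by
    refine ⟨fun x => by unfold px; positivity, ?_⟩
    unfold px
    rw [← sum_div, ← Joint_card, div_self]
    exact hg.ne'
  have hRl : IsLaw (Ry K Q) := by
    refine ⟨fun x => by unfold Ry; positivity, ?_⟩
    unfold Ry
    rw [← sum_div, ← Joint_card', div_self]
    exact hg.ne'
  have hQ : ∀ y, Ry K Q y ≠ 0 → ∀ i, y i ∈ Q i := by
    intro y hy
    by_contra h
    apply hy
    unfold Ry
    rw [Joint_fib0 K Q y h]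
    simp
  have hRT : ∀ y, (∀ i, y i ∈ Q i) → Ry K Q y = ((Tt K y).card : ℝ) / γ := by
    intro y hy
    unfold Ry
    rw [Joint_fib K Q y hy]
  have hpx : ∀ (x : G) (y : Fin N → G), (x, y) ∈ Gam K Q → 0 < px K Q x := by
    intro x y h
    unfold px
    refine div_pos ?_ hg
    exact_mod_cast card_pos.2 ⟨y, mem_filter.2 ⟨mem_univ _, h⟩⟩
  have hTp : ∀ y, (∀ i, y i ∈ Q i) → ∀ x ∈ Tt K y, 0 < px K Q x := by
    intro y hy x hx
    rw [← Joint_fib K Q y hy, mem_filter] at hx
    exact hpx x y hx.2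
  have hTne : ∀ y, Ry K Q y ≠ 0 → (Tt K y).Nonempty := by
    intro y hy
    rw [nonempty_iff_ne_empty]
    intro h
    apply hy
    rw [hRT y (hQ y hy), h]
    simp
  -- the identity for `I`
  set E : ℝ := ∑ y, Ry K Q y * log ((Tt K y).card : ℝ) with hE
  have hterm : ∀ y, Ry K Q y * KL (un (Tt K y)) (px K Q) = -(Ry K Q y * log ((Tt K y).card : ℝ)) -
      γ⁻¹ * ∑ x ∈ univ.filter (fun x : G => (x, y) ∈ Gam K Q), log (px K Q x) := by
    intro y
    by_cases hy : ∀ i, y i ∈ Q i
    · rw [Joint_fib K Q y hy, hRT y hy, div_mul_eq_mul_div, Joint_KL _ _ (hTp y hy)]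
      field_simp
    · have h1 : Ry K Q y = 0 := by
        by_contra h
        exact hy (hQ y h)
      rw [Joint_fib0 K Q y hy, h1]
      simp
  have hI : ∑ y, Ry K Q y * KL (un (Tt K y)) (px K Q) = ent (px K Q) - E := by
    rw [sum_congr rfl fun y _ => hterm y, sum_sub_distrib, sum_neg_distrib, ← mul_sum,
      ← Joint_sum K Q fun x _ => log (px K Q x)]
    have h1 : γ⁻¹ * ∑ x, ∑ _y ∈ univ.filter (fun y : Fin N → G => (x, y) ∈ Gam K Q), log (px K Q x) =
        - ent (px K Q) := by
      unfold ent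
      rw [← sum_neg_distrib, mul_sum]
      refine sum_congr rfl fun x _ => ?_
      rw [sum_const, nsmul_eq_mul]
      unfold negMulLog
      have h2 : ((univ.filter fun y : Fin N → G => (x, y) ∈ Gam K Q).card : ℝ) = px K Q x * γ := by
        unfold px
        rw [div_mul_cancel₀ _ hg.ne']
      rw [h2]
      field_simp
    rw [h1]
    ring
  have hentR : ent (Ry K Q) = log γ - E := by
    unfold ent
    have h1 : ∀ y, negMulLog (Ry K Q y) = Ry K Q y * log γ - Ry K Q y * log ((Tt K y).card : ℝ) := by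
      intro y
      by_cases hy : Ry K Q y = 0
      · rw [hy]
        simp
      · have h2 : (0 : ℝ) < (Tt K y).card := by exact_mod_cast (hTne y hy).card_pos
        unfold negMulLog
        have h3 : log (Ry K Q y) = log ((Tt K y).card : ℝ) - log γ := by
          rw [hRT y (hQ y hy), log_div h2.ne' hg.ne']
        rw [h3]
        ring
    rw [sum_congr rfl fun y _ => h1 y, sum_sub_distrib, ← sum_mul, hRl.sum, one_mul]
  have hI0 : 0 ≤ ∑ y, Ry K Q y * KL (un (Tt K y)) (px K Q) := by
    refine sum_nonneg fun y _ => ?_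
    by_cases hy : Ry K Q y = 0
    · rw [hy, zero_mul]
    · exact mul_nonneg (hRl.nn y) (Joint_KL0 _ (hTne y hy) _ hpl fun x hx => (hTp y (hQ y hy) x hx).ne')
  have hS := Joint_ent Q (Ry K Q) hRl hQ
  have hSG : ∑ i, log ((Q i).card : ℝ) ≤ N * log (Fintype.card G) := by
    have h1 : ∀ i ∈ (univ : Finset (Fin N)), log ((Q i).card : ℝ) ≤ log (Fintype.card G) := by
      intro i _
      rcases (Q i).eq_empty_or_nonempty with h | h
      · rw [h]
        simp only [card_empty, Nat.cast_zero, log_zero]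
        exact log_natCast_nonneg _
      · refine log_le_log (by exact_mod_cast h.card_pos) ?_
        exact_mod_cast card_le_univ _
    have h2 := sum_le_sum h1
    rwa [sum_const, card_univ, Fintype.card_fin, nsmul_eq_mul] at h2
  set s : ℝ := ∑ i, log ((Q i).card : ℝ) with hs
  set g : ℝ := log (Fintype.card G) with hgdef
  have hVD : Vv M K Q - Df (px K Q) = (N : ℝ) / M * g + (1 - 1 / (M : ℝ)) * s - log γ + ent (px K Q) := by
    unfold Vv Df
    ring
  rw [hI] at hI0
  refine ⟨hpl, hRl, fun y hy => ⟨hTne y hy, fun x hx => (hTp y (hQ y hy) x hx).ne'⟩, ?_, ?_, ?_, ?_⟩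
  · rw [hI]
    exact hI0
  · rw [hI, hVD]
    have h1 : (1 / (M : ℝ)) * s ≤ (N : ℝ) / M * g := by
      rw [div_mul_eq_mul_div, div_mul_eq_mul_div, one_mul]
      exact div_le_div_of_nonneg_right hSG hM0.le
    linarith
  · have h1 : ∑ y, Ry K Q y * (g - log ((Tt K y).card : ℝ)) = g - E := by
      simp only [mul_sub, sum_sub_distrib]
      rw [← sum_mul, hRl.sum, one_mul]
    rw [h1]
    unfold Df
    linarith
  · rw [hVD]
    have h2 : log (Fintype.card (Fin N → G)) = N * g := by
      rw [Joint_cube N _, Nat.cast_pow, log_pow]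
    rw [h2]
    have h3 : (M : ℝ) * ((N : ℝ) / M * g + (1 - 1 / (M : ℝ)) * s - log γ + ent (px K Q)) =
        N * g + (M - 1) * s + M * (ent (px K Q) - log γ) := by
      field_simp
      ring
    rw [h3]
    have h4 : 0 ≤ ((M : ℝ) - 1) * (s - ent (Ry K Q)) := mul_nonneg (by linarith) (by linarith)
    have h5 : 0 ≤ (M : ℝ) * (ent (px K Q) - E) := mul_nonneg hM0.le hI0
    nlinarith

end Pool.Agent.BRQ
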