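import Pool.Agent.BRQ.StD
import Pool.Agent.BR.DW

/-!
BRQ (MP_68cffc_co), part D, module MinW: a minimal subgroup.
-/

set_option autoImplicit false

namespace Pool.Agent.BRQ

open Finset Real Pool.Agent.BR
open Pool.Agent.DEN68 (un)
open scoped Classical

theorem MinW_KL {G : Type} [AddCommGroup G] [Fintype G] (p : G → ℝ) : KL p p = 0 := by
  unfold KL
  refine sum_eq_zero fun x _ => ?_
  rcases eq_or_ne (p x) 0 with h | h
  · rw [h, zero_mul]
  · rw [div_self h, log_one, mul_zero]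

theorem MinW_mono (h1 : St_fN) (h2 : St_Joint) (h3 : St_Star) (h4 : St_Trans) {G : Type}
    [AddCommGroup G] [Fintype G] {M : ℕ} {S : Finset G} (hS : S.Nonempty) (hM : 1 ≤ M) (N : ℕ)
    (W : AddSubgroup G) (H : AddSubgroup W) : fN M S (H.map W.subtype) N ≤ fN M S W N := by
  obtain ⟨-, z, Q, hne, hv⟩ := h1 G M N S W hS
  obtain ⟨j1, -, -, -, -, -, -⟩ := h2 W M N (sl S W z) Q hM hne
  obtain ⟨a, b, hab, hle⟩ := h3 W M N (sl S W z) Q H (px (sl S W z) Q) hM hne j1 fun x h => h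
  have h5 := (h4 G M N S W H hS).2 z (fun i => a + b i) (fun i => slice (Q i) H (b i)) hab
  have h6 : 0 ≤ Df (prq H (px (sl S W z) Q)) :=
    Df_nonneg (thm_DW W H H (px (sl S W z) Q) j1).2.2.2.1
  rw [MinW_KL] at hle
  rw [hv]
  refine h5.trans (hle.trans ?_)
  linarith

theorem MinW_nonneg (h1 : St_fN) (h2 : St_Joint) {G : Type}
    [AddCommGroup G] [Fintype G] {M : ℕ} {S : Finset G} (hS : S.Nonempty) (hM : 1 ≤ M) (N : ℕ)
    (W : AddSubgroup G) : 0 ≤ fN M S W N := by
  obtain ⟨-, z, Q, hne, hv⟩ := h1 G M N S W hS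
  obtain ⟨j1, -, -, j4, j5, -, -⟩ := h2 W M N (sl S W z) Q hM hne
  have h3 := Df_nonneg j1
  rw [hv]
  linarith

theorem thm_MinW (h1 : St_fN) (h2 : St_Joint) (h3 : St_Star) (h4 : St_Trans) : St_MinW := by
  intro G _ _ M S hS hM
  have hM0 : (0 : ℝ) < M := by exact_mod_cast hM
  obtain ⟨W, hW⟩ := Finite.exists_min (fun W : AddSubgroup G =>
    ∑ N ∈ Icc 1 M, fN M S W N + cod W / M)
  refine ⟨W, ?_, ?_, ?_⟩
  · intro N hN1 hNM H
    have h5 := hW (H.map W.subtype)
    have h6 : cod (H.map W.subtype) = cod W + cod H := (h4 G M N S W H hS).1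
    rw [h6, add_div] at h5
    have h7 : fN M S W N - fN M S (H.map W.subtype) N ≤
        ∑ N ∈ Icc 1 M, (fN M S W N - fN M S (H.map W.subtype) N) := by
      refine single_le_sum (f := fun N => fN M S W N - fN M S (H.map W.subtype) N)
        (fun n _ => ?_) (mem_Icc.2 ⟨hN1, hNM⟩)
      have := MinW_mono h1 h2 h3 h4 hS hM n W H
      linarith
    rw [sum_sub_distrib] at h7
    linarith
  · intro N _ _
    have h5 := MinW_mono h1 h2 h3 h4 hS hM N ⊤ (W.comap (⊤ : AddSubgroup G).subtype)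
    have h6 : (W.comap (⊤ : AddSubgroup G).subtype).map (⊤ : AddSubgroup G).subtype = W := by
      ext x
      constructor
      · rintro ⟨y, hy, rfl⟩
        exact hy
      · intro hx
        exact ⟨⟨x, AddSubgroup.mem_top x⟩, hx, rfl⟩
    rw [h6] at h5
    exact h5
  · have h5 := hW ⊤
    have h6 : cod (⊤ : AddSubgroup G) = 0 := by
      unfold cod
      rw [AddSubgroup.card_top, Nat.card_eq_fintype_card, sub_self]
    rw [h6, zero_div, add_zero] at h5
    have h7 : 0 ≤ ∑ N ∈ Icc 1 M, fN M S W N := sum_nonneg fun n _ => MinW_nonneg h1 h2 hS hM n W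
    linarith

end Pool.Agent.BRQ
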