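import Pool.Agent.BRQ.StD
import Pool.Agent.BR.DW

/-!
BRQ part D, Star: restriction to cosets of a subgroup with a competitor law.
-/

set_option autoImplicit false

namespace Pool.Agent.BRQ

open Finset Real Pool.Agent.BR
open scoped Classical

/-- Sums of functions of the first coordinate. -/
theorem Star_fib {α β : Type} [Fintype α] [Fintype β] (Gm : Finset (α × β)) (f r : α → ℝ)
    (hr : ∀ x, r x = ((univ.filter fun y : β => (x, y) ∈ Gm).card : ℝ)) :
    ∑ w ∈ Gm, f w.1 = ∑ x, r x * f x := by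
  have h1 : ∑ w ∈ Gm, f w.1 = ∑ w : α × β, if w ∈ Gm then f w.1 else 0 := by
    rw [← sum_filter]
    refine sum_congr ?_ fun _ _ => rfl
    ext w
    simp
  rw [h1, Fintype.sum_prod_type]
  refine sum_congr rfl fun x _ => ?_
  rw [← sum_filter]
  simp only [sum_const, nsmul_eq_mul, hr]

variable {G : Type} [AddCommGroup G] [Fintype G]

/-- The new configuration. -/
theorem Star_gam {N : ℕ} (K Q : Fin N → Finset G) (H : AddSubgroup G) (a : G) (b : Fin N → G) :
    Gam (fun i => slice (K i) H (a + b i)) (fun i => slice (Q i) H (b i)) =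
      univ.filter fun h : H × (Fin N → H) =>
        (a + (h.1 : G), fun i => b i + (h.2 i : G)) ∈ Gam K Q := by
  ext h
  unfold Gam slice
  simp only [mem_filter, mem_univ, true_and, AddSubgroup.coe_add]
  refine forall_congr' fun i => and_congr Iff.rfl ?_
  rw [show a + b i + ((h.1 : G) + (h.2 i : G)) = a + (h.1 : G) + (b i + (h.2 i : G)) by abel]

theorem Star_prq (H : AddSubgroup G) (p : G → ℝ) :
    Df (prq H p) = log (Fintype.card G) - log (Nat.card H) + ∑ x, p x * log (DW_P H p x) := by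
  have h1 : (Fintype.card (G ⧸ H) : ℝ) * Nat.card H = Fintype.card G := by
    have h2 := AddSubgroup.card_eq_card_quotient_mul_card_addSubgroup H
    rw [Nat.card_eq_fintype_card, Nat.card_eq_fintype_card (α := G ⧸ H)] at h2
    rw [h2]
    push_cast
    rfl
  have hq : (0 : ℝ) < Fintype.card (G ⧸ H) := by
    exact_mod_cast Fintype.card_pos
  have h3 : ent (prq H p) = entq H p := by
    unfold entq prq
    rw [H_eq_ent]
  have h4 : log (Fintype.card (G ⧸ H)) = log (Fintype.card G) - log (Nat.card H) := by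
    rw [← h1, log_mul hq.ne' (DW_card H).ne']
    ring
  unfold Df
  rw [h3, h4, DW_entq]
  ring

theorem thm_Star (h : St_StarC) : St_Star := by
  intro G _ _ M N K Q H p hM hGm hp hs
  obtain ⟨⟨x0, y0⟩, h0⟩ := hGm
  have hQ : ∀ i, (Q i).Nonempty := fun i => ⟨y0 i, ((mem_filter.1 h0).2 i).1⟩
  have hC := h G M N (Gam K Q) Q H p hM hQ hp
  have hGc : (0 : ℝ) < (Gam K Q).card := by
    exact_mod_cast card_pos.2 ⟨_, h0⟩
  have hM0 : (0 : ℝ) < M := by exact_mod_cast hM
  have hG0 : (0 : ℝ) < Fintype.card G := Pool.Agent.BR.card_pos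
  have hH0 : (0 : ℝ) < Nat.card H := DW_card H
  -- number of `y`
  obtain ⟨r, hr⟩ : ∃ r : G → ℝ, r = fun x =>
      ((univ.filter fun y : Fin N → G => (x, y) ∈ Gam K Q).card : ℝ) := ⟨_, rfl⟩
  have hpx : ∀ x, px K Q x = r x / (Gam K Q).card := fun x => by
    rw [hr]
    rfl
  have hrs : ∀ x, p x ≠ 0 → 0 < r x := by
    intro x hx
    have h1 : 0 ≤ r x := by
      rw [hr]
      positivity
    rcases h1.eq_or_lt with h2 | h2
    · exfalso
      apply hs x hx
      rw [hpx, ← h2, zero_div]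
    · exact h2
  obtain ⟨P, hP⟩ : ∃ P : G × (Fin N → G) → ℝ, P = fun w => p w.1 / r w.1 := ⟨_, rfl⟩
  have hrw : ∀ x, r x * (p x / r x) = p x := by
    intro x
    rcases eq_or_ne (p x) 0 with h1 | h1
    · rw [h1]
      ring
    · have := (hrs x h1).ne'
      field_simp
  have hPf : ∀ F : G → ℝ, ∑ w ∈ Gam K Q, P w * F w.1 = ∑ x, p x * F x := by
    intro F
    have h1 := Star_fib (Gam K Q) (fun x => p x / r x * F x) r (fun x => by
      rw [hr]
      simp only
      congr)
    rw [hP, h1]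
    refine sum_congr rfl fun x _ => ?_
    rw [← mul_assoc, hrw x]
  have hPs : ∑ w ∈ Gam K Q, P w = 1 := by
    have h1 := hPf fun _ => 1
    simp only [mul_one] at h1
    rw [h1, hp.sum]
  have hP0 : ∀ w, 0 ≤ P w := by
    intro w
    rw [hP]
    refine div_nonneg (hp.nn _) ?_
    rw [hr]
    positivity
  have hPp : ∀ w, P w ≠ 0 → p w.1 ≠ 0 := by
    intro w hw h1
    apply hw
    rw [hP]
    simp only
    rw [h1, zero_div]
  -- the quantities of the weights
  obtain ⟨g, hg⟩ : ∃ g : G × (Fin N → G) → ℝ, g = fun w =>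
      ((univ.filter fun h : H × (Fin N → H) =>
        (w.1 + (h.1 : G), fun i => w.2 i + (h.2 i : G)) ∈ Gam K Q).card : ℝ) := ⟨_, rfl⟩
  obtain ⟨q, hq⟩ : ∃ q : G × (Fin N → G) → Fin N → ℝ, q = fun w i =>
      ((slice (Q i) H (w.2 i)).card : ℝ) := ⟨_, rfl⟩
  have hz : ∀ w ∈ Gam K Q, (w.1 + (((0 : H × (Fin N → H)).1 : H) : G),
      fun i => w.2 i + (((0 : H × (Fin N → H)).2 i : H) : G)) ∈ Gam K Q := by
    intro w hw
    simpa using hw
  have hg0 : ∀ w ∈ Gam K Q, 0 < g w := by
    intro w hw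
    have h2 : g w = ((univ.filter fun h : H × (Fin N → H) =>
        (w.1 + (h.1 : G), fun i => w.2 i + (h.2 i : G)) ∈ Gam K Q).card : ℝ) := by rw [hg]
    rw [h2]
    have h1 : 0 < (univ.filter fun h : H × (Fin N → H) =>
        (w.1 + (h.1 : G), fun i => w.2 i + (h.2 i : G)) ∈ Gam K Q).card :=
      card_pos.2 ⟨0, mem_filter.2 ⟨mem_univ _, hz w hw⟩⟩
    exact_mod_cast h1
  have hq0 : ∀ w ∈ Gam K Q, ∀ i, 0 < q w i := by
    intro w hw i
    have h2 : q w i = ((slice (Q i) H (w.2 i)).card : ℝ) := by rw [hq]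
    rw [h2]
    have h1 : 0 < (slice (Q i) H (w.2 i)).card := by
      refine card_pos.2 ⟨0, mem_filter.2 ⟨mem_univ _, ?_⟩⟩
      have := ((mem_filter.1 hw).2 i).1
      simpa using this
    exact_mod_cast h1
  have hQc : ∀ i, (0 : ℝ) < (Q i).card := fun i => by
    exact_mod_cast card_pos.2 (hQ i)
  obtain ⟨wt, hwt⟩ : ∃ wt : G × (Fin N → G) → ℝ, wt = fun w => DW_P H p w.1 / g w *
      ∏ i, (((Nat.card H : ℝ) / Fintype.card G) ^ (1 / (M : ℝ)) *
        (q w i / (Q i).card) ^ (1 - 1 / (M : ℝ))) := ⟨_, rfl⟩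
  have hprod : ∀ w ∈ Gam K Q, ∀ i, 0 < ((Nat.card H : ℝ) / Fintype.card G) ^ (1 / (M : ℝ)) *
        (q w i / (Q i).card) ^ (1 - 1 / (M : ℝ)) := by
    intro w hw i
    have h1 := hq0 w hw i
    have h2 := hQc i
    positivity
  have hwt0 : ∀ w ∈ Gam K Q, 0 ≤ wt w := by
    intro w hw
    rw [hwt]
    refine mul_nonneg (div_nonneg (DW_P_nonneg H hp _) (hg0 w hw).le) ?_
    exact prod_nonneg fun i _ => (hprod w hw i).le
  have hwtz : ∀ w ∈ Gam K Q, wt w = 0 → P w = 0 := by
    intro w hw h1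
    by_contra h2
    have h3 := DW_P_pos H hp (hPp w h2)
    rw [hwt] at h1
    have h4 : 0 < DW_P H p w.1 / g w *
      ∏ i, (((Nat.card H : ℝ) / Fintype.card G) ^ (1 / (M : ℝ)) *
        (q w i / (Q i).card) ^ (1 - 1 / (M : ℝ))) :=
      mul_pos (div_pos h3 (hg0 w hw)) (prod_pos fun i _ => hprod w hw i)
    exact h4.ne' h1
  have hwts : ∑ w ∈ Gam K Q, wt w ≤ ∑ w ∈ Gam K Q, P w := by
    rw [hPs, hwt, hg, hq]
    exact hC
  have hgib := gibbs (Gam K Q) P wt (fun w _ => hP0 w) hwt0 hwtz hwts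
  -- the right side
  have hR : ∑ w ∈ Gam K Q, P w * log (P w) = KL p (px K Q) - log (Gam K Q).card := by
    have h1 : ∑ w ∈ Gam K Q, P w * log (P w) = ∑ x, p x * log (p x / r x) := by
      rw [← hPf]
      rw [hP]
    rw [h1]
    have h2 : log ((Gam K Q).card : ℝ) = ∑ x, p x * log ((Gam K Q).card : ℝ) := by
      rw [← sum_mul, hp.sum, one_mul]
    unfold KL
    rw [h2, ← sum_sub_distrib]
    refine sum_congr rfl fun x _ => ?_
    rcases eq_or_ne (p x) 0 with h3 | h3
    · rw [h3]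
      ring
    · have h4 := hrs x h3
      rw [hpx, log_div h3 h4.ne', log_div h3 (div_pos h4 hGc).ne', log_div h4.ne' hGc.ne']
      ring
  -- the left side
  obtain ⟨V, hV⟩ : ∃ V : G × (Fin N → G) → ℝ, V = fun w =>
      log (Nat.card H) * (1 + (N : ℝ) / M) + (1 - 1 / (M : ℝ)) * ∑ i, log (q w i) - log (g w) :=
    ⟨_, rfl⟩
  have hL : ∀ w ∈ Gam K Q, P w * log (wt w) = P w * log (DW_P H p w.1) + P w * V w -
      P w * (log (Nat.card H) + (N : ℝ) / M * log (Fintype.card G) +
        (1 - 1 / (M : ℝ)) * ∑ i, log ((Q i).card : ℝ)) := by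
    intro w hw
    rcases eq_or_ne (P w) 0 with h1 | h1
    · rw [h1]
      ring
    · have h3 := DW_P_pos H hp (hPp w h1)
      have h4 : log (∏ i, (((Nat.card H : ℝ) / Fintype.card G) ^ (1 / (M : ℝ)) *
          (q w i / (Q i).card) ^ (1 - 1 / (M : ℝ)))) =
          (N : ℝ) * (1 / (M : ℝ) * (log (Nat.card H) - log (Fintype.card G))) +
          (1 - 1 / (M : ℝ)) * ∑ i, log (q w i) -
          (1 - 1 / (M : ℝ)) * ∑ i, log ((Q i).card : ℝ) := by
        rw [log_prod (fun i _ => (hprod w hw i).ne')]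
        have h5 : ∀ i ∈ (univ : Finset (Fin N)),
            log (((Nat.card H : ℝ) / Fintype.card G) ^ (1 / (M : ℝ)) *
            (q w i / (Q i).card) ^ (1 - 1 / (M : ℝ))) =
            1 / (M : ℝ) * (log (Nat.card H) - log (Fintype.card G)) +
            ((1 - 1 / (M : ℝ)) * log (q w i) - (1 - 1 / (M : ℝ)) * log ((Q i).card : ℝ)) := by
          intro i _
          have e1 := hq0 w hw i
          have e2 := hQc i
          rw [log_mul (by positivity) (by positivity), log_rpow (by positivity),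
            log_rpow (by positivity), log_div hH0.ne' hG0.ne', log_div e1.ne' e2.ne']
          ring
        rw [sum_congr rfl h5, sum_add_distrib, sum_const, sum_sub_distrib, ← mul_sum, ← mul_sum,
          card_univ, Fintype.card_fin, nsmul_eq_mul]
        ring
      rw [hwt, hV]
      simp only
      rw [log_mul (div_pos h3 (hg0 w hw)).ne' (prod_pos fun i _ => hprod w hw i).ne',
        log_div h3.ne' (hg0 w hw).ne', h4]
      ring
  rw [sum_congr rfl hL, sum_sub_distrib, sum_add_distrib, ← sum_mul, hPs, hR,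
    hPf (fun x => log (DW_P H p x))] at hgib
  have havg : ∑ w ∈ Gam K Q, P w * V w ≤ ∑ w ∈ Gam K Q,
      P w * (Vv M K Q + KL p (px K Q) - Df (prq H p)) := by
    rw [← sum_mul, hPs, one_mul, Star_prq]
    unfold Vv
    linarith
  -- choice of the point
  obtain ⟨w, hw, hle, hpos⟩ : ∃ w ∈ Gam K Q, V w ≤ Vv M K Q + KL p (px K Q) - Df (prq H p) ∧
      0 < P w := by
    by_contra hcon
    push Not at hcon
    have h1 : ∑ w ∈ Gam K Q, P w * (Vv M K Q + KL p (px K Q) - Df (prq H p)) <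
        ∑ w ∈ Gam K Q, P w * V w := by
      refine sum_lt_sum (fun w hw => ?_) ?_
      · rcases le_or_gt (V w) (Vv M K Q + KL p (px K Q) - Df (prq H p)) with h2 | h2
        · have h3 := hcon w hw h2
          have h4 : P w = 0 := le_antisymm h3 (hP0 w)
          rw [h4, zero_mul, zero_mul]
        · exact mul_le_mul_of_nonneg_left h2.le (hP0 w)
      · by_contra h5
        push Not at h5
        have h6 : ∀ w ∈ Gam K Q, P w = 0 := by
          intro w hw
          rcases le_or_gt (V w) (Vv M K Q + KL p (px K Q) - Df (prq H p)) with h2 | h2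
          · exact le_antisymm (hcon w hw h2) (hP0 w)
          · by_contra h7
            have h8 : 0 < P w := lt_of_le_of_ne (hP0 w) (Ne.symm h7)
            exact absurd (h5 w hw) (not_le.2 (mul_lt_mul_of_pos_left h2 h8))
        rw [sum_eq_zero h6] at hPs
        exact zero_ne_one hPs
    exact absurd havg (not_le.2 h1)
  refine ⟨w.1, w.2, ?_, ?_⟩
  · rw [Star_gam]
    exact ⟨0, mem_filter.2 ⟨mem_univ _, hz w hw⟩⟩
  · refine le_trans (le_of_eq ?_) hle
    rw [hV, hq, hg]
    unfold Vv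
    rw [Star_gam, Nat.card_eq_fintype_card]

end Pool.Agent.BRQ
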