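import Pool.Agent.BRQ.StD

/-!
# BRQ, module StarC: the counting inequality for Gibbs
-/

set_option autoImplicit false

namespace Pool.Agent.BRQ

open Finset Real Pool.Agent.BR
open Pool.Agent.DEN68 (un)
open scoped Classical

section

variable {G : Type} [AddCommGroup G] [Fintype G]

/-- the inclusion of the translations -/
def StarC_e {N : ℕ} (H : AddSubgroup G) (h : H × (Fin N → H)) : G × (Fin N → G) :=
  ((h.1 : G), fun i => (h.2 i : G))

omit [Fintype G] in
theorem StarC_e_add {N : ℕ} (H : AddSubgroup G) (a b : H × (Fin N → H)) :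
    StarC_e H (a + b) = StarC_e H a + StarC_e H b := rfl

/-- number of translations which lead into the set -/
noncomputable def StarC_g {N : ℕ} (Gm : Finset (G × (Fin N → G))) (H : AddSubgroup G)
    (w : G × (Fin N → G)) : ℝ :=
  ∑ h : H × (Fin N → H), if w + StarC_e H h ∈ Gm then 1 else 0

theorem StarC_g_inv {N : ℕ} (Gm : Finset (G × (Fin N → G))) (H : AddSubgroup G)
    (w : G × (Fin N → G)) (a : H × (Fin N → H)) :
    StarC_g Gm H (w + StarC_e H a) = StarC_g Gm H w := by
  unfold StarC_g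
  rw [← Equiv.sum_comp (Equiv.addLeft a) (fun h => if w + StarC_e H h ∈ Gm then (1 : ℝ) else 0)]
  refine sum_congr rfl fun h _ => ?_
  rw [Equiv.coe_addLeft, StarC_e_add, add_assoc]

theorem StarC_g_card {N : ℕ} (Gm : Finset (G × (Fin N → G))) (H : AddSubgroup G)
    (w : G × (Fin N → G)) : ((univ.filter fun h : H × (Fin N → H) =>
        (w.1 + (h.1 : G), fun i => w.2 i + (h.2 i : G)) ∈ Gm).card : ℝ) = StarC_g Gm H w := by
  unfold StarC_g
  rw [sum_boole]
  rfl

/-- the main counting step -/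
theorem StarC_count {N : ℕ} (Gm : Finset (G × (Fin N → G))) (H : AddSubgroup G)
    (u : G × (Fin N → G) → ℝ) (h0 : ∀ w, 0 ≤ u w)
    (hu : ∀ (w : G × (Fin N → G)) (a : H × (Fin N → H)), u (w + StarC_e H a) = u w) :
    (Fintype.card (H × (Fin N → H)) : ℝ) * ∑ w ∈ Gm, u w / StarC_g Gm H w ≤ ∑ w, u w := by
  have e1 : ∀ a : H × (Fin N → H), ∑ w ∈ Gm, u w / StarC_g Gm H w =
      ∑ w, (if w + StarC_e H a ∈ Gm then (1 : ℝ) else 0) * (u w / StarC_g Gm H w) := by
    intro a
    have h1 : ∑ w ∈ Gm, u w / StarC_g Gm H w =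
        ∑ w, (if w ∈ Gm then (1 : ℝ) else 0) * (u w / StarC_g Gm H w) := by
      simp only [ite_mul, one_mul, zero_mul]
      rw [Finset.sum_ite_mem, univ_inter]
    rw [h1, ← Equiv.sum_comp (Equiv.addRight (StarC_e H a))
      (fun w => (if w ∈ Gm then (1 : ℝ) else 0) * (u w / StarC_g Gm H w))]
    refine sum_congr rfl fun w _ => ?_
    rw [Equiv.coe_addRight, hu, StarC_g_inv]
  calc (Fintype.card (H × (Fin N → H)) : ℝ) * ∑ w ∈ Gm, u w / StarC_g Gm H w
      = ∑ _a : H × (Fin N → H), ∑ w ∈ Gm, u w / StarC_g Gm H w := by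
        rw [sum_const, card_univ, nsmul_eq_mul]
    _ = ∑ a : H × (Fin N → H), ∑ w,
          (if w + StarC_e H a ∈ Gm then (1 : ℝ) else 0) * (u w / StarC_g Gm H w) :=
        sum_congr rfl fun a _ => e1 a
    _ = ∑ w, StarC_g Gm H w * (u w / StarC_g Gm H w) := by
        rw [sum_comm]
        refine sum_congr rfl fun w _ => ?_
        rw [← sum_mul]
        rfl
    _ ≤ ∑ w, u w := by
        refine sum_le_sum fun w _ => ?_
        rcases eq_or_ne (StarC_g Gm H w) 0 with h | h
        · rw [h, zero_mul]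
          exact h0 w
        · rw [mul_div_cancel₀ _ h]

theorem StarC_slice (S : Finset G) (H : AddSubgroup G) (z : G) :
    ((slice S H z).card : ℝ) = ∑ w : H, if z + (w : G) ∈ S then (1 : ℝ) else 0 := by
  unfold slice
  rw [sum_boole]

theorem StarC_slice_inv (S : Finset G) (H : AddSubgroup G) (z : G) (a : H) :
    ((slice S H (z + a)).card : ℝ) = ((slice S H z).card : ℝ) := by
  rw [StarC_slice, StarC_slice, ← Equiv.sum_comp (Equiv.addLeft a)
    (fun w : H => if z + (w : G) ∈ S then (1 : ℝ) else 0)]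
  refine sum_congr rfl fun h _ => ?_
  rw [Equiv.coe_addLeft, AddSubgroup.coe_add, add_assoc]

theorem StarC_slice_sum (S : Finset G) (H : AddSubgroup G) :
    ∑ z, ((slice S H z).card : ℝ) = (Nat.card H : ℝ) * S.card := by
  simp only [StarC_slice]
  rw [sum_comm]
  have h1 : ∀ a : H, ∑ z : G, (if z + (a : G) ∈ S then (1 : ℝ) else 0) = S.card := by
    intro a
    have h3 : (S.card : ℝ) = ∑ z : G, if z ∈ S then (1 : ℝ) else 0 := by
      rw [sum_boole, filter_univ_mem]
    rw [h3, ← Equiv.sum_comp (Equiv.addRight (a : G)) (fun z => if z ∈ S then (1 : ℝ) else 0)]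
    refine sum_congr rfl fun z _ => ?_
    rw [Equiv.coe_addRight]
  simp only [h1]
  rw [sum_const, card_univ, nsmul_eq_mul, Nat.card_eq_fintype_card]

theorem StarC_mass_inv (p : G → ℝ) (H : AddSubgroup G) (x : G) (a : H) :
    ∑ h : H, p (x + a + h) = ∑ h : H, p (x + h) := by
  rw [← Equiv.sum_comp (Equiv.addLeft a) (fun h : H => p (x + h))]
  refine sum_congr rfl fun h _ => ?_
  rw [Equiv.coe_addLeft, AddSubgroup.coe_add, add_assoc]

theorem StarC_mass_sum (p : G → ℝ) (hp : IsLaw p) (H : AddSubgroup G) :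
    ∑ x, ∑ h : H, p (x + h) = (Nat.card H : ℝ) := by
  rw [sum_comm]
  have h1 : ∀ a : H, ∑ z : G, p (z + a) = 1 := by
    intro a
    have h2 := Equiv.sum_comp (Equiv.addRight (a : G)) p
    simp only [Equiv.coe_addRight] at h2
    rw [h2]
    exact hp.sum
  simp only [h1]
  rw [sum_const, card_univ, nsmul_eq_mul, mul_one, Nat.card_eq_fintype_card]

theorem StarC_factor (M : ℕ) (hM : 1 ≤ M) (Q : Finset G) (hQ : Q.Nonempty) (H : AddSubgroup G) :
    ∑ y : G, ((Nat.card H : ℝ) / Fintype.card G) ^ (1 / (M : ℝ)) *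
        (((slice Q H y).card : ℝ) / Q.card) ^ (1 - 1 / (M : ℝ)) ≤ (Nat.card H : ℝ) := by
  have hM0 : (0 : ℝ) < M := by exact_mod_cast hM
  have hw1 : 0 ≤ 1 / (M : ℝ) := by positivity
  have hw2 : 0 ≤ 1 - 1 / (M : ℝ) := by
    rw [sub_nonneg, div_le_one hM0]
    exact_mod_cast hM
  have hG : (0 : ℝ) < Fintype.card G := by exact_mod_cast Fintype.card_pos
  have hQ0 : (0 : ℝ) < Q.card := by exact_mod_cast hQ.card_pos
  calc ∑ y : G, ((Nat.card H : ℝ) / Fintype.card G) ^ (1 / (M : ℝ)) *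
        (((slice Q H y).card : ℝ) / Q.card) ^ (1 - 1 / (M : ℝ))
      ≤ ∑ y : G, (1 / (M : ℝ) * ((Nat.card H : ℝ) / Fintype.card G) +
          (1 - 1 / (M : ℝ)) * (((slice Q H y).card : ℝ) / Q.card)) := by
        refine sum_le_sum fun y _ => ?_
        exact Real.geom_mean_le_arith_mean2_weighted hw1 hw2 (by positivity) (by positivity)
          (by ring)
    _ = 1 / (M : ℝ) * (Nat.card H : ℝ) + (1 - 1 / (M : ℝ)) * (Nat.card H : ℝ) := by
        rw [sum_add_distrib, sum_const, card_univ, nsmul_eq_mul, ← mul_sum, ← sum_div,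
          StarC_slice_sum]
        field_simp
    _ = (Nat.card H : ℝ) := by ring

end

/-- **StarC.** -/
theorem thm_StarC : St_StarC := by
  intro G _ _ M N Gm Q H p hM hQ hp
  set F : Fin N → G → ℝ := fun i y => ((Nat.card H : ℝ) / Fintype.card G) ^ (1 / (M : ℝ)) *
        (((slice (Q i) H y).card : ℝ) / (Q i).card) ^ (1 - 1 / (M : ℝ)) with hF
  set u : G × (Fin N → G) → ℝ := fun w => (∑ h : H, p (w.1 + h)) * ∏ i, F i (w.2 i) with hu
  have hF0 : ∀ i y, 0 ≤ F i y := fun i y => by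
    simp only [hF]
    positivity
  have hm0 : ∀ x : G, 0 ≤ ∑ h : H, p (x + h) := fun x => sum_nonneg fun h _ => hp.nn _
  have h0 : ∀ w, 0 ≤ u w := fun w =>
    mul_nonneg (hm0 _) (prod_nonneg fun i _ => hF0 i _)
  have hinv : ∀ (w : G × (Fin N → G)) (a : H × (Fin N → H)), u (w + StarC_e H a) = u w := by
    intro w a
    simp only [hu]
    congr 1
    · exact StarC_mass_inv p H w.1 a.1
    · refine prod_congr rfl fun i _ => ?_
      have e1 : (w + StarC_e H a).2 i = w.2 i + (a.2 i : G) := rfl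
      simp only [hF]
      rw [e1, StarC_slice_inv]
  have hc := StarC_count Gm H u h0 hinv
  have hH0 : (0 : ℝ) < (Nat.card H : ℝ) := by exact_mod_cast Nat.card_pos
  have hcard : (Fintype.card (H × (Fin N → H)) : ℝ) = (Nat.card H : ℝ) * (Nat.card H : ℝ) ^ N := by
    rw [Fintype.card_prod, Fintype.card_fun, Fintype.card_fin, Nat.card_eq_fintype_card]
    push_cast
    ring
  have htot : ∑ w, u w ≤ (Nat.card H : ℝ) * (Nat.card H : ℝ) ^ N := by
    have e1 : ∑ w, u w = (∑ x : G, ∑ h : H, p (x + h)) * ∑ y : Fin N → G, ∏ i, F i (y i) := by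
      rw [Fintype.sum_prod_type, sum_mul_sum]
    have e2 : ∑ y : Fin N → G, ∏ i, F i (y i) = ∏ i, ∑ y : G, F i y := by
      rw [Finset.prod_univ_sum]
      simp only [Fintype.piFinset_univ]
    rw [e1, e2, StarC_mass_sum p hp H]
    refine mul_le_mul_of_nonneg_left ?_ hH0.le
    calc ∏ i, ∑ y : G, F i y ≤ ∏ _i : Fin N, (Nat.card H : ℝ) :=
          prod_le_prod (fun i _ => sum_nonneg fun y _ => hF0 i y)
            (fun i _ => StarC_factor M hM (Q i) (hQ i) H)
      _ = (Nat.card H : ℝ) ^ N := by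
          rw [prod_const, card_univ, Fintype.card_fin]
  rw [hcard] at hc
  have hpos : 0 < (Nat.card H : ℝ) * (Nat.card H : ℝ) ^ N := by positivity
  have h1 : ∑ w ∈ Gm, u w / StarC_g Gm H w ≤ 1 := by
    have h2 := hc.trans htot
    have h3 : (Nat.card H : ℝ) * (Nat.card H : ℝ) ^ N * ∑ w ∈ Gm, u w / StarC_g Gm H w ≤
        (Nat.card H : ℝ) * (Nat.card H : ℝ) ^ N * 1 := by rw [mul_one]; exact h2
    exact le_of_mul_le_mul_left h3 hpos
  refine le_trans (le_of_eq (sum_congr rfl fun w _ => ?_)) h1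
  rw [← StarC_g_card]
  simp only [hu]
  rw [div_mul_eq_mul_div]

end Pool.Agent.BRQ
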