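import Pool.Agent.BRQ.StD

/-!
BRQ-D [Trans]: a subgroup of a subgroup as a subgroup of the group.
-/

set_option autoImplicit false

namespace Pool.Agent.BRQ

open Finset Real Pool.Agent.BR
open Pool.Agent.DEN68 (un)
open scoped Classical

theorem Trans_Gam {G G' : Type} [AddCommGroup G] [Fintype G] [AddCommGroup G'] [Fintype G']
    (e : G ≃+ G') {N : ℕ} (K Q : Fin N → Finset G) (K' Q' : Fin N → Finset G')
    (hK : ∀ i x, x ∈ K i ↔ e x ∈ K' i) (hQ : ∀ i x, x ∈ Q i ↔ e x ∈ Q' i) :
    (Gam K Q).card = (Gam K' Q').card := by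
  refine card_nbij' (fun a => (e a.1, fun i => e (a.2 i)))
    (fun a => (e.symm a.1, fun i => e.symm (a.2 i))) ?_ ?_ ?_ ?_
  · rintro ⟨x, y⟩ h
    simp only [Gam, coe_filter, Set.mem_ofPred_eq, mem_univ, true_and] at h ⊢
    intro i
    have h1 := h i
    rw [hQ, hK, map_add] at h1
    exact h1
  · rintro ⟨x, y⟩ h
    simp only [Gam, coe_filter, Set.mem_ofPred_eq, mem_univ, true_and] at h ⊢
    intro i
    rw [hQ, hK, map_add, e.apply_symm_apply, e.apply_symm_apply]
    exact h i
  · rintro ⟨x, y⟩ _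
    simp
  · rintro ⟨x, y⟩ _
    simp

theorem Trans_card {G G' : Type} [AddCommGroup G] [Fintype G] [AddCommGroup G'] [Fintype G']
    (e : G ≃+ G') (Q : Finset G) (Q' : Finset G')
    (hQ : ∀ x, x ∈ Q ↔ e x ∈ Q') : Q.card = Q'.card := by
  refine card_nbij' (fun a => e a) (fun a => e.symm a) ?_ ?_ ?_ ?_
  · intro x h
    exact mem_coe.2 ((hQ x).1 (mem_coe.1 h))
  · intro x h
    refine mem_coe.2 ((hQ _).2 ?_)
    rw [e.apply_symm_apply]
    exact mem_coe.1 h
  · intro x _
    simp
  · intro x _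
    simp

theorem Trans_Vv {G G' : Type} [AddCommGroup G] [Fintype G] [AddCommGroup G'] [Fintype G']
    (e : G ≃+ G') (M : ℕ) {N : ℕ} (K Q : Fin N → Finset G) (K' Q' : Fin N → Finset G')
    (hK : ∀ i x, x ∈ K i ↔ e x ∈ K' i) (hQ : ∀ i x, x ∈ Q i ↔ e x ∈ Q' i) :
    Vv M K Q = Vv M K' Q' := by
  unfold Vv
  rw [Trans_Gam e K Q K' Q' hK hQ, Fintype.card_congr e.toEquiv]
  congr 3
  exact sum_congr rfl fun i _ => by rw [Trans_card e (Q i) (Q' i) (hQ i)]

theorem thm_Trans (h : St_fN) : St_Trans := by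
  intro G _ _ M N S W H hS
  have e : H ≃+ H.map W.subtype := H.equivMapOfInjective W.subtype W.subtype_injective
  refine ⟨?_, ?_⟩
  · have hcard : Nat.card (H.map W.subtype) = Nat.card H := (Nat.card_congr e.toEquiv).symm
    unfold cod
    rw [hcard, Nat.card_eq_fintype_card (α := W)]
    ring
  · intro z a Q hne
    obtain ⟨h1, -⟩ := h G M N S (H.map W.subtype) hS
    set E : H ≃+ H.map W.subtype := H.equivMapOfInjective W.subtype W.subtype_injective with hE
    have hK : ∀ i (x : H), x ∈ slice (slice S W (z i)) H (a i) ↔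
        E x ∈ sl S (H.map W.subtype) (fun i => z i + (a i : G)) i := by
      intro i x
      unfold sl slice
      simp only [mem_filter, mem_univ, true_and]
      have e1 : ((E x : H.map W.subtype) : G) = ((x : W) : G) := rfl
      rw [e1, AddSubgroup.coe_add, add_assoc]
    have hQ : ∀ i (x : H), x ∈ Q i ↔ E x ∈ (Q i).image E := by
      intro i x
      rw [mem_image]
      constructor
      · intro hx
        exact ⟨x, hx, rfl⟩
      · rintro ⟨y, hy, hyx⟩
        rwa [E.injective hyx] at hy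
    have hV := Trans_Vv E M (fun i => slice (slice S W (z i)) H (a i)) Q
      (sl S (H.map W.subtype) (fun i => z i + (a i : G))) (fun i => (Q i).image E) hK hQ
    rw [hV]
    refine h1 _ _ ?_
    rw [← card_pos, ← Trans_Gam E (fun i => slice (slice S W (z i)) H (a i)) Q _ _ hK hQ]
    exact hne.card_pos

end Pool.Agent.BRQ
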