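import Pool.Agent.BRQ.StD

/-!
BRQ (MP_68cffc_co), part D, module fN: the infimum is attained.
-/

set_option autoImplicit false

namespace Pool.Agent.BRQ

open Finset Real Pool.Agent.BR
open Pool.Agent.DEN68 (un)
open scoped Classical

theorem fN_mem {G : Type} [AddCommGroup G] [Fintype G] {N : ℕ} (K Q : Fin N → Finset G)
    (a : G × (Fin N → G)) : a ∈ Gam K Q ↔ ∀ i, a.2 i ∈ Q i ∧ a.1 + a.2 i ∈ K i := by
  unfold Gam
  exact ⟨fun h => (mem_filter.1 h).2, fun h => mem_filter.2 ⟨mem_univ _, h⟩⟩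

theorem fN_slice {G : Type} [AddCommGroup G] [Fintype G] (S : Finset G) (W : AddSubgroup G) (z : G)
    (w : W) : w ∈ slice S W z ↔ z + (w : G) ∈ S := by
  unfold slice
  exact ⟨fun h => (mem_filter.1 h).2, fun h => mem_filter.2 ⟨mem_univ _, h⟩⟩

theorem thm_fN : St_fN := by
  intro G _ _ M N S W hS
  obtain ⟨V, hV⟩ : ∃ V : Set ℝ, V = {v : ℝ | ∃ (z : Fin N → G) (Q : Fin N → Finset W),
    (Gam (sl S W z) Q).Nonempty ∧ v = Vv M (sl S W z) Q} := ⟨_, rfl⟩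
  have hfN : fN M S W N = sInf V := by
    rw [hV]
    rfl
  have hfin : V.Finite := by
    refine (Set.finite_range (fun q : (Fin N → G) × (Fin N → Finset W) =>
      Vv M (sl S W q.1) q.2)).subset ?_
    intro v hv
    rw [hV] at hv
    obtain ⟨z, Q, -, h⟩ := hv
    exact ⟨(z, Q), h.symm⟩
  have hne : V.Nonempty := by
    obtain ⟨s, hs⟩ := hS
    refine ⟨Vv M (sl S W (fun _ : Fin N => s)) (fun _ : Fin N => {0}), ?_⟩
    rw [hV]
    refine ⟨fun _ => s, fun _ => {0}, ⟨(0, 0), ?_⟩, rfl⟩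
    rw [fN_mem]
    refine fun i => ⟨by simp, ?_⟩
    unfold sl
    rw [fN_slice]
    simpa using hs
  refine ⟨fun z Q h => ?_, ?_⟩
  · rw [hfN]
    refine csInf_le hfin.bddBelow ?_
    rw [hV]
    exact ⟨z, Q, h, rfl⟩
  · have h := hne.csInf_mem hfin
    rw [hfN]
    rw [hV] at h ⊢
    obtain ⟨z, Q, h1, h2⟩ := h
    exact ⟨z, Q, h1, h2⟩

end Pool.Agent.BRQ
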