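import Pool.Agent.BRQ.fN

/-!
BRQ (MP_68cffc_co), part D, module fOne: one translate.
-/

set_option autoImplicit false

namespace Pool.Agent.BRQ

open Finset Real Pool.Agent.BR
open Pool.Agent.DEN68 (un)
open scoped Classical

theorem thm_fOne (h : St_fN) : St_fOne := by
  intro G _ _ M S W hS hM
  obtain ⟨-, z, Q, hne, hv⟩ := h G M 1 S W hS
  obtain ⟨a, ha⟩ := hne
  have ha' := (fN_mem _ _ a).1 ha 0
  have hQ0 : 0 < (Q 0).card := card_pos.2 ⟨_, ha'.1⟩
  have hK : (slice S W (z 0)).Nonempty := ⟨_, ha'.2⟩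
  have hK0 : 0 < (slice S W (z 0)).card := card_pos.2 hK
  have hG0 : 0 < (Gam (sl S W z) Q).card := card_pos.2 ⟨a, ha⟩
  refine ⟨z 0, hK, ?_⟩
  rw [hv]
  have hcard : (Gam (sl S W z) Q).card ≤ (Q 0).card * (slice S W (z 0)).card := by
    rw [← card_product]
    refine card_le_card_of_injOn (fun b => (b.2 0, b.1 + b.2 0)) ?_ ?_
    · intro b hb
      have hb' := (fN_mem _ _ b).1 (mem_coe.1 hb) 0
      exact mem_coe.2 (mem_product.2 ⟨hb'.1, hb'.2⟩)
    · intro b _ b' _ hbb
      have h1 := (Prod.mk.inj hbb).1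
      have h2 := (Prod.mk.inj hbb).2
      rw [h1] at h2
      have h3 := add_right_cancel h2
      refine Prod.ext h3 ?_
      funext i
      rw [Subsingleton.elim i 0]
      exact h1
  have hM0 : (0 : ℝ) < M := by exact_mod_cast hM
  have hlog : log ((Gam (sl S W z) Q).card : ℝ) ≤ log ((Q 0).card : ℝ) +
      log ((slice S W (z 0)).card : ℝ) := by
    rw [← log_mul (by exact_mod_cast hQ0.ne') (by exact_mod_cast hK0.ne')]
    refine log_le_log (by exact_mod_cast hG0) ?_
    exact_mod_cast hcard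
  have hQW : log ((Q 0).card : ℝ) ≤ log (Fintype.card W) := by
    refine log_le_log (by exact_mod_cast hQ0) ?_
    exact_mod_cast card_le_univ (Q 0)
  have e1 : Vv M (sl S W z) Q = log (Fintype.card W) * (1 + 1 / M) +
      (1 - 1 / (M : ℝ)) * log ((Q 0).card : ℝ) - log ((Gam (sl S W z) Q).card : ℝ) := by
    unfold Vv
    rw [Fin.sum_univ_one, Nat.cast_one]
  have e2 : 0 ≤ 1 / (M : ℝ) * (log (Fintype.card W) - log ((Q 0).card : ℝ)) :=
    mul_nonneg (by positivity) (by linarith)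
  rw [e1, Nat.card_eq_fintype_card]
  linarith

end Pool.Agent.BRQ
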