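import Pool.Agent.BRQ.fN

/-!
BRQ (MP_68cffc_co), part D, module fTop: the value of the whole group.
-/

set_option autoImplicit false

namespace Pool.Agent.BRQ

open Finset Real Pool.Agent.BR
open Pool.Agent.DEN68 (un)
open scoped Classical

theorem thm_fTop (h : St_fN) : St_fTop := by
  intro G _ _ M N S A l hA hAS hM hNM hl
  obtain ⟨a0, ha0⟩ := hA
  have hS : S.Nonempty := ⟨a0 + a0, hAS a0 ha0 a0 ha0⟩
  obtain ⟨A', hA'⟩ : ∃ A' : Finset (⊤ : AddSubgroup G), A' = slice A ⊤ 0 := ⟨_, rfl⟩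
  have hmem : ∀ w : (⊤ : AddSubgroup G), w ∈ A' ↔ (w : G) ∈ A := by
    intro w
    rw [hA', fN_slice, zero_add]
  have hcard : A'.card = A.card := by
    refine Finset.card_bij (fun w _ => (w : G)) ?_ ?_ ?_
    · intro w hw
      exact (hmem w).1 hw
    · intro w _ w' _ hww
      exact Subtype.ext hww
    · intro x hx
      exact ⟨⟨x, AddSubgroup.mem_top x⟩, (hmem _).2 hx, rfl⟩
  have hsub : A' ×ˢ Fintype.piFinset (fun _ : Fin N => A') ⊆
      Gam (sl S (⊤ : AddSubgroup G) (fun _ => 0)) (fun _ => A') := by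
    intro q hq
    rw [mem_product, Fintype.mem_piFinset] at hq
    rw [fN_mem]
    refine fun i => ⟨hq.2 i, ?_⟩
    unfold sl
    rw [fN_slice, zero_add, AddSubgroup.coe_add]
    exact hAS _ ((hmem _).1 hq.1) _ ((hmem _).1 (hq.2 i))
  have hne : (Gam (sl S (⊤ : AddSubgroup G) (fun _ => 0)) (fun _ : Fin N => A')).Nonempty := by
    refine ⟨((⟨a0, AddSubgroup.mem_top a0⟩ : (⊤ : AddSubgroup G)),
      fun _ => (⟨a0, AddSubgroup.mem_top a0⟩ : (⊤ : AddSubgroup G))), hsub ?_⟩
    rw [mem_product, Fintype.mem_piFinset]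
    exact ⟨(hmem _).2 ha0, fun _ => (hmem _).2 ha0⟩
  have h1 := (h G M N S ⊤ hS).1 (fun _ => 0) (fun _ => A') hne
  refine h1.trans ?_
  have hAp : (0 : ℝ) < A.card := by
    have : 0 < A.card := card_pos.2 ⟨a0, ha0⟩
    exact_mod_cast this
  have hGam : (A.card : ℝ) ^ (N + 1) ≤
      ((Gam (sl S (⊤ : AddSubgroup G) (fun _ => 0)) (fun _ : Fin N => A')).card : ℝ) := by
    have h2 := card_le_card hsub
    rw [card_product, Fintype.card_piFinset, prod_const, card_univ, Fintype.card_fin, hcard] at h2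
    have h3 : A.card ^ (N + 1) ≤
        (Gam (sl S (⊤ : AddSubgroup G) (fun _ => 0)) (fun _ : Fin N => A')).card := by
      rw [pow_succ, mul_comm]
      exact h2
    exact_mod_cast h3
  have hlogG : ((N : ℝ) + 1) * log A.card ≤
      log ((Gam (sl S (⊤ : AddSubgroup G) (fun _ => 0)) (fun _ : Fin N => A')).card : ℝ) := by
    have h2 := log_le_log (pow_pos hAp (N + 1)) hGam
    rw [Real.log_pow] at h2
    push_cast at h2
    exact h2
  have hcT : Fintype.card (⊤ : AddSubgroup G) = Fintype.card G :=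
    Fintype.card_congr (AddSubgroup.topEquiv (G := G)).toEquiv
  have hM0 : (0 : ℝ) < M := by exact_mod_cast hM
  have hNM' : (N : ℝ) ≤ M := by exact_mod_cast hNM
  have hLA : 0 ≤ log (Fintype.card G) - log A.card := by
    have h2 : (A.card : ℝ) ≤ Fintype.card G := by exact_mod_cast card_le_univ A
    have := log_le_log hAp h2
    linarith
  unfold Vv
  have e0 : ∑ i : Fin N, log (((fun _ : Fin N => A') i).card : ℝ) = N * log A.card := by
    simp only [hcard]
    rw [sum_const, card_univ, Fintype.card_fin, nsmul_eq_mul]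
  rw [hcT, e0]
  have e1 : log (Fintype.card G) * (1 + (N : ℝ) / M) + (1 - 1 / (M : ℝ)) * (N * log A.card) -
      ((N : ℝ) + 1) * log A.card = (log (Fintype.card G) - log A.card) * (1 + (N : ℝ) / M) := by
    field_simp
    ring
  have e2 : (N : ℝ) / M ≤ 1 := by
    rw [div_le_one hM0]
    exact hNM'
  have e3 : (log (Fintype.card G) - log A.card) * (1 + (N : ℝ) / M) ≤
      (log (Fintype.card G) - log A.card) * 2 := mul_le_mul_of_nonneg_left (by linarith) hLA
  linarith

end Pool.Agent.BRQ
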