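import Pool.Agent.BRQ.Main
import Pool.Agent.BRQ.fN
import Pool.Agent.BRQ.fTop
import Pool.Agent.BRQ.fOne
import Pool.Agent.BRQ.Drop
import Pool.Agent.BRQ.Joint
import Pool.Agent.BRQ.StarC
import Pool.Agent.BRQ.Star
import Pool.Agent.BRQ.Trans
import Pool.Agent.BRQ.MinW
import Pool.Agent.BRQ.ClassD
import Pool.Agent.BRQ.DiagU
import Pool.Agent.BRQ.Incr
import Pool.Agent.BRQ.Grow
import Pool.Agent.BRQ.DGr
import Pool.Agent.BRQ.DFin

/-!
Assembly of part D: two summands, polynomial dependence.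
-/

set_option autoImplicit false

namespace Pool.Agent.BRQ

open Pool.Agent.BR

theorem dense : St_DFin := by
  have hDW : St_DW := thm_DW
  have hSt : St_Star := thm_Star thm_StarC
  have hTr : St_Trans := thm_Trans thm_fN
  have hC : St_ClassD := thm_ClassD sdpi (thm_Core hDW) (thm_Inv hDW) thm_Cond hDW
  have hMin : St_MinW := thm_MinW thm_fN thm_Joint hSt hTr
  have hI : St_Incr := thm_Incr thm_fN thm_Drop thm_Joint hSt hTr hC thm_DiagU
  exact thm_DFin (thm_DGr thm_fN (thm_fTop thm_fN) (thm_fOne thm_fN) hMin hI thm_Grow)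

end Pool.Agent.BRQ
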