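import Pool.Agent.BRQ.Defs
import Pool.Agent.DEN68.Stmts

/-!
BRQ (MP_68cffc_co): constant strong data processing, quadratic codimension, two summands: the
statements of the modules. Paper: `/team-store/BRQ_paper.md` (sections are quoted below).
`G` is a finite abelian group of exponent two (`h2`), `RL G` the random laws of `BRQ/Defs.lean`.
-/

set_option autoImplicit false

namespace Pool.Agent.BRQ

open Finset Real Pool.Agent.BR
open scoped Classical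

section defs

variable {G : Type} [AddCommGroup G] [Fintype G]

/-- The joint law of class and value. -/
def mR (R : RL G) (a : R.Ω × G) : ℝ := R.w a.1 * R.p a.1 a.2

/-- `(X, Y, B)`, independent. -/
def law3 (p q B : G → ℝ) (x : G × G × G) : ℝ := p x.1 * (q x.2.1 * B x.2.2)

/-- Two independent copies of class and value, and `B`. -/
def lawR (B : G → ℝ) (R : RL G) (x : ((R.Ω × G) × (R.Ω × G)) × G) : ℝ :=
  mR R x.1.1 * mR R x.1.2 * B x.2

/-- The average of `ent (conv t t) - ent t`, `t` the sum of two independent classes of `C R`. -/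
noncomputable def dR (R : RL G) : ℝ := ∑ a : R.C.Ω, ∑ b : R.C.Ω, R.C.w a * R.C.w b *
  (ent (conv (conv (R.C.p a) (R.C.p b)) (conv (R.C.p a) (R.C.p b))) -
    ent (conv (R.C.p a) (R.C.p b)))

end defs

/-- Data processing for functions (proved). -/
theorem dpi {Ω α β γ δ : Type} [Fintype Ω] {P : Ω → ℝ} (hP : IsLaw P) (U : Ω → α) (V : Ω → β)
    (f : α → γ) (g : β → δ) :
    H P (fun ω => f (U ω)) + H P (fun ω => g (V ω)) - H P (fun ω => (f (U ω), g (V ω))) ≤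
      H P U + H P V - H P (fun ω => (U ω, V ω)) := by
  have h1 := H_submod hP (U := U) (V := fun ω => (f (U ω), V ω)) (Z := fun ω => f (U ω))
    (fun ω ω' h => by rw [h]) (fun ω ω' h => (Prod.mk.inj h).1)
  have h2 := H_submod hP (U := V) (V := fun ω => (f (U ω), g (V ω))) (Z := fun ω => g (V ω))
    (fun ω ω' h => by rw [h]) (fun ω ω' h => (Prod.mk.inj h).2)
  have e1 : H P (fun ω => (U ω, (f (U ω), V ω))) = H P (fun ω => (U ω, V ω)) := by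
    refine H_eq fun ω ω' => ?_
    simp only [Prod.mk.injEq]
    exact ⟨fun h => ⟨h.1, h.2.2⟩, fun h => ⟨h.1, by rw [h.1], h.2⟩⟩
  have e2 : H P (fun ω => (V ω, (f (U ω), g (V ω)))) = H P (fun ω => (f (U ω), V ω)) := by
    refine H_eq fun ω ω' => ?_
    simp only [Prod.mk.injEq]
    exact ⟨fun h => ⟨h.2.1, h.1⟩, fun h => ⟨h.2, h.1, by rw [h.2]⟩⟩
  rw [e1] at h1
  rw [e2] at h2
  linarith

/-! ### Random laws (sections 1-4 of the paper) -/

/-- RLa. `aR R.C`: `St_FibEnt` (`thm_FibEnt`) for every pair of classes: the average of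
`Df (fib p q z)` is `Df p + Df q - Df (conv p q)`; sums over `R.C.Ω = (R.Ω × R.Ω) × G` with
`Fintype.sum_prod_type`; pairs of classes of weight zero contribute zero. `Df_conv_le`,
`Df_nonneg`, `Df_le`. `sR (RL.S R)` is the average of `Df (conv (conv p q) (conv p' q'))`. -/
def St_RLa : Prop := ∀ (G : Type) [AddCommGroup G] [Fintype G], (∀ x : G, x + x = 0) →
  ∀ R : RL G, aR R.C = 2 * aR R - sR R ∧ 0 ≤ sR R ∧ sR R ≤ aR R ∧
    aR R ≤ log (Fintype.card G) ∧ sR R.S ≤ sR R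

/-- RLi. `kR B R = 2 iR - iR R.C` is the average of `K2` (unfold; the weights sum to one);
`K2 ≥ 0` is the first half of `St_FibI` (`thm_FibI`), `iR ≥ 0` is `Ib_nonneg`. -/
def St_RLi : Prop := ∀ (G : Type) [AddCommGroup G] [Fintype G], (∀ x : G, x + x = 0) →
  ∀ (B : G → ℝ) (R : RL G), IsLaw B → 0 ≤ iR B R ∧ 0 ≤ kR B R ∧
    kR B R = ∑ a : R.Ω, ∑ b : R.Ω, R.w a * R.w b * K2 B (R.p a) (R.p b)

/-- LemT4: Lemma T for four laws (section 2). Exactly `Pool/Agent/BR/LemT.lean` with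
`M ζ = conv p q ζ.1 * conv p' q' ζ.2`, `ρ ζ a = fib p q ζ.1 a.1 * fib p' q' ζ.2 a.2`; in
`lemT_coord` the law is `law4 p q p' q'`; `lemT_V` becomes `ent (conv q p') + ent (conv p q')`,
`lemT_W` becomes `ent (conv p p') + ent (conv q q')`; `thm_FibConv` for `p q p' q'` (keep the
entropy `H (law4 p q p' q') ...` of `St_FibConv` as it is). Conclusion: the four submodularity
inequalities added. -/
def St_LemT4 : Prop := ∀ (G : Type) [AddCommGroup G] [Fintype G], (∀ x : G, x + x = 0) →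
  ∀ p q p' q' : G → ℝ, IsLaw p → IsLaw q → IsLaw p' → IsLaw q' →
  ∑ z, ∑ z', conv p q z * conv p' q' z' * ent (conv (conv (fib p q z) (fib p' q' z'))
      (conv (fib p q z) (fib p' q' z'))) ≤
    2 * (ent (conv q p') + ent (conv p q')) + 2 * (ent (conv p p') + ent (conv q q')) -
      3 * ent (conv (conv p q) (conv p' q')) - ent (conv p q) - ent (conv p' q') -
      2 * ∑ z, ∑ z', conv p q z * conv p' q' z' * ent (conv (fib p q z) (fib p' q' z'))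

/-- TR: (4) of the paper. Average `St_LemT4` over four independent classes `((a, b), (c, d))` of
`R` (weights `w a * w b * w c * w d`; `IsLaw` where the weight is not zero): with
`L = log |G|` the average of each `ent (conv p_i p_j)` is `L - sR R`, that of
`ent (conv (conv p q) (conv p' q'))` is `L - sR R.S`, that of `ent t` is `L - sR R.C`. Lower bound:
`ent_le_conv`. -/
def St_TR : Prop := ∀ (G : Type) [AddCommGroup G] [Fintype G], (∀ x : G, x + x = 0) →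
  ∀ R : RL G, 0 ≤ dR R ∧ dR R ≤ 3 * (sR R.S + sR R.C - 2 * sR R)

/-- K2Rep: `K2` is the mutual information of `X + B` and `Y + B`. `H(X+B, Y+B) = H(X+B, X+Y)`
(same level sets) `= ent (conv p q) + ∑ z, conv p q z * ent (conv (fib p q z) B)` (see the proof of
`thm_FibI` in `Pool/Agent/BR/Fib.lean`), and `thm_FibEnt`. -/
def St_K2Rep : Prop := ∀ (G : Type) [AddCommGroup G] [Fintype G], (∀ x : G, x + x = 0) →
  ∀ B p q : G → ℝ, IsLaw B → IsLaw p → IsLaw q →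
  K2 B p q = ent (conv p B) + ent (conv q B) -
    H (law3 p q B) (fun x => (x.1 + x.2.2, x.2.1 + x.2.2))

/-- K2mono: (5). Space `(x, r, y, s, b)` with the product law; `U = (x + b, r)`, `V = (y + b, s)`,
`f, g` = sum of the coordinates, `dpi`. `r, s` are independent of `(x, y, b)` (`H_prod`), so
`H U + H V - H (U, V) = K2 B p q` by `St_K2Rep`; `(x + b) + r` has the law
`conv (conv p r) B`; `H_push` to the space of `St_K2Rep` for `conv p r, conv q s` (the law of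
`x + r` is `conv p r`, `pr_sum`). -/
def St_K2mono : Prop := ∀ (G : Type) [AddCommGroup G] [Fintype G], (∀ x : G, x + x = 0) →
  ∀ B p q r s : G → ℝ, IsLaw B → IsLaw p → IsLaw q → IsLaw r → IsLaw s →
  K2 B (conv p r) (conv q s) ≤ K2 B p q

/-- K1: (7). `kR B R.C` is an average of `K2 B f f'` (`St_RLi`), `K2 B f f' ≥ K2 B t t` for
`t = conv f f'` (`St_K2mono` with `conv f f'` and `conv f' f = conv f f'`, `conv_comm`),
`K2 B t t ≥ Ib B t - (ent (conv t t) - ent t)` (second half of `thm_FibI`, `p = q = t`), and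
`St_ThmA` with `p = q = t`: `3/4 * Df t ≤ Ib B t + 6 * (ent (conv t t) - ent t)`. The average of
`Df t` is `sR R.C` (`= aR R.C.S`, unfold), the average of `ent (conv t t) - ent t` is `dR R`. -/
def St_K1 : Prop := ∀ (G : Type) [AddCommGroup G] [Fintype G], (∀ x : G, x + x = 0) →
  ∀ (B : G → ℝ) (R : RL G), IsLaw B → Spread B →
  3 / 4 * sR R.C - 21 * (sR R.S + sR R.C - 2 * sR R) ≤ kR B R.C

/-- GbS: (8), (9). `Z = R.Ω × G`, `ζ (b, y) = w b * p b y`, `α (a, (b, y)) = (a, b)`, `β = y`;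
`conv_comm`. Transitivity: `Z = Z₁ × Z₂`, `α (ω, (z₁, z₂)) = α₂ (α₁ (ω, z₁), z₂)`,
`β (ω, (z₁, z₂)) = β₁ (ω, z₁) + β₂ (α₁ (ω, z₁), z₂)`. -/
def St_GbS : Prop := ∀ (G : Type) [AddCommGroup G] [Fintype G], (∀ x : G, x + x = 0) →
  ∀ R Q T : RL G, Gb R R.S ∧ (Gb R Q → Gb Q T → Gb R T)

/-- GbC: (10). `Z = Z₁ × Z₁`, `ζ (z, z') = ζ₁ z * ζ₁ z'`,
`α (((a, b), u), (z, z')) = ((α₁ (a, z), α₁ (b, z')), u + β₁ (a, z) + β₁ (b, z'))`,
`β (((a, b), u), (z, z')) = β₁ (a, z)`. `conv_mul_fib` on both sides. -/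
def St_GbC : Prop := ∀ (G : Type) [AddCommGroup G] [Fintype G], (∀ x : G, x + x = 0) →
  ∀ R Q : RL G, Gb R Q → Gb R.C Q.C

/-- KRep: `kR` as a mutual information. `St_RLi` and `St_K2Rep`; with
`V₁ = (ω₁, x₁ + b)`, `V₂ = (ω₂, x₂ + b)`: `H V₁ = ent w + ∑ w ω * ent (conv (p ω) B)` and
`H (V₁, V₂) = 2 ent w + ∑∑ w ω₁ * w ω₂ * H (law3 (p ω₁) (p ω₂) B) (x + b, y + b)`
(`lemT_H_kern` in `Pool/Agent/BR/LemT.lean` with `Z` the classes, `H_equiv` to reorder the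
coordinates). -/
def St_KRep : Prop := ∀ (G : Type) [AddCommGroup G] [Fintype G], (∀ x : G, x + x = 0) →
  ∀ (B : G → ℝ) (R : RL G), IsLaw B → kR B R =
    H (lawR B R) (fun x => (x.1.1.1, x.1.1.2 + x.2)) +
    H (lawR B R) (fun x => (x.1.2.1, x.1.2.2 + x.2)) -
    H (lawR B R) (fun x => ((x.1.1.1, x.1.1.2 + x.2), (x.1.2.1, x.1.2.2 + x.2)))

/-- GbK: (11). Space `(((ω₁, z₁), x₁), ((ω₂, z₂), x₂)), b` with law
`w ω₁ ζ z₁ p ω₁ x₁ w ω₂ ζ z₂ p ω₂ x₂ B b`. `U_i = ((ω_i, z_i), x_i + β (ω_i, z_i) + b)` has the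
level sets of `((ω_i, x_i + b), z_i)`; `(z₁, z₂)` is independent of the rest, so
`H U₁ + H U₂ - H (U₁, U₂) = kR B R` (`St_KRep`, `H_prod`). `dpi` with `(α, id)`. The pair
`(α (ω_i, z_i), x_i + β (ω_i, z_i))` has the law `mR Q` (definition of `Gb`), so `H_push` to
`lawR B Q` and `St_KRep` give `kR B Q` (`x + β + b = (x + β) + b`). -/
def St_GbK : Prop := ∀ (G : Type) [AddCommGroup G] [Fintype G], (∀ x : G, x + x = 0) →
  ∀ (B : G → ℝ) (R Q : RL G), IsLaw B → Gb R Q → kR B Q ≤ kR B R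

/-! ### Climbing and Theorem SDPI (sections 5, 6) -/

/-- NumF. `x = sg / s`, `r = s / a`. First: if `x ≥ r + 27/4000`, Bernoulli
(`one_add_mul_le_pow`) gives `x ^ 200 ≥ r ^ 200 * (1 + 27/(4000 r)) ^ 200 ≥
r ^ 200 * (1 + 27/(20 r)) > 27/20 * r ^ 199`, a contradiction. Second: `y = sC / (2 a - s)`; if
`y ≥ r * (1 + 17/(2000 (2 - r)))` then `(2 - r) * y ^ 200 ≥ r ^ 200 * (2 - r + 17/10) ≥
27/10 * r ^ 200`, a contradiction. So `sg ≤ s * (r + 27/4000)`, `sC ≤ s * (2 - r + 17/2000)`,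
`sC ≥ 2 s - sg ≥ s`. -/
def St_NumF : Prop := ∀ a s sg sC : ℝ, 0 < s → s ≤ a → 0 ≤ sg → sg ≤ s → 2 * s - sg ≤ sC →
  s * (sg / s) ^ 200 < 27 / 20 * (a * (s / a) ^ 200) →
  (2 * a - s) * (sC / (2 * a - s)) ^ 200 < 27 / 10 * (a * (s / a) ^ 200) →
  1 / 4 * (a * (s / a) ^ 200) ≤ 3 / 4 * sC - 21 * (sg + sC - 2 * s)

/-- Find: section 5, induction on `n` (generalising `A`, `P`). Uses `St_RLa`, `St_TR`
(`0 ≤ dR R ≤ 3 (...)` gives `2 s - sg ≤ sC`), `St_K1`, `St_GbS`, `St_GbC`, `St_GbK`, `St_NumF`;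
`Function.iterate_succ_apply`. -/
def St_Find : Prop := ∀ (G : Type) [AddCommGroup G] [Fintype G], (∀ x : G, x + x = 0) →
  ∀ B : G → ℝ, IsLaw B → Spread B → ∀ (n : ℕ) (A : ℝ) (P : RL G), 0 < aR P → aR P ≤ A →
  A * (20 / 27) ^ n ≤ aR P * (sR P / aR P) ^ 200 → ∃ j ≤ n, ∀ Q : RL G, Gb Q P →
    1 / 4 * 2 ^ j * (aR P * (sR P / aR P) ^ 200) ≤ kR B ((RL.C : RL G → RL G)^[j + 1] Q)

/-- Seq: section 6, first paragraph. -/
def St_Seq : Prop := ∀ (s k : ℕ → ℝ) (a0 i0 L c1 c2 : ℝ) (N : ℕ), 0 < c1 → c1 ≤ 1 → 0 < c2 →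
  0 ≤ L → (∀ n, 0 ≤ s n) → (∀ n, s n ≤ L) → (∀ n, 0 ≤ k n) →
  (∀ K : ℕ, ∑ n ∈ range K, k n / 2 ^ (n + 1) ≤ i0) →
  (∀ K : ℕ, a0 ≤ L / 2 ^ K + ∑ n ∈ range K, s n / 2 ^ (n + 1)) →
  (∀ n, (∃ j ≤ N, c2 * 2 ^ j * s n ≤ k (n + j)) ∨ (2 + c1) * s n ≤ s (n + 1)) →
  a0 ≤ 3 * (N + 1) / (c1 * c2) * i0

/-- SDPI: constant strong data processing. Section 6: `St_Find`, `St_Seq`, `St_RLa`, `St_RLi`,
`St_TR`, `St_K1`, `Gb R R.S`. `RL.one p hp` has `aR = Df p`, `iR = Ib B p`. -/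
def St_SDPI : Prop := ∃ c : ℝ, 0 < c ∧
  ∀ (G : Type) [AddCommGroup G] [Fintype G], (∀ x : G, x + x = 0) →
  ∀ B p : G → ℝ, IsLaw B → Spread B → IsLaw p → c * Df p ≤ Ib B p

/-! ### Quadratic codimension (section 7) -/

/-- OV2: `Pool/Agent/BR/OV.lean` with the linear inequality (no Jensen). -/
def St_OV2 : Prop := ∃ c : ℝ, 0 < c ∧ c ≤ 1 ∧
  ∀ (G : Type) [AddCommGroup G] [Fintype G], (∀ x : G, x + x = 0) →
  ∀ (K : ℝ) (N : ℕ) (g q : G → ℝ), 0 < K → 1 ≤ N → (∀ x, 0 ≤ g x) → (∀ x, g x ≤ 1) → IsLaw q →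
  ∃ W : AddSubgroup G, cod W ≤ 8 * N * Df q + 8 * log 2 ∧
  c * DW W (gib K (av g q)) ≤ K ^ 2 / N

/-- Choose2: the average over `x ~ p`, `y ~ q` of `avv + a (Df + Df)` is
`avv g p q + a (DW W p + DW W q)` (identity `hid` in `thm_Choose`, `Pool/Agent/BR/DW.lean`), so
some pair with `p x ≠ 0`, `q y ≠ 0` is at most the average. -/
def St_Choose2 : Prop := ∀ (G : Type) [AddCommGroup G] [Fintype G], (∀ x : G, x + x = 0) →
  ∀ (W : AddSubgroup G) (g p q : G → ℝ) (a : ℝ), IsLaw p → IsLaw q →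
  ∃ x y : G, IsLaw (fw W p x) ∧ IsLaw (fw W q y) ∧
    avv (fun w : W => g (x + y + w)) (fw W p x) (fw W q y) +
      a * (Df (fw W p x) + Df (fw W q y)) ≤ avv g p q + a * (DW W p + DW W q)

/-- Step2: section 7 (compare `Pool/Agent/BR/Step.lean`; `Step_avv_comm`, `Step_cod_inf` there). -/
def St_Step2 : Prop := ∃ C : ℝ, 0 < C ∧
  ∀ (G : Type) [AddCommGroup G] [Fintype G] (g : G → ℝ) (l e xi : ℝ), State G g l e →
  1 / 16 ≤ l → 0 ≤ e → e ≤ 1 → 0 < xi → xi ≤ 1 →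
  ∃ (W : AddSubgroup G) (c : G), State W (fun w => g (c + w)) (l / 4) (e + 2 * xi) ∧
    cod W ≤ C * l ^ 2 / xi ^ 4

/-- Iter: section 7, induction on `m` (generalising `G`, `g`, `e`, `xi`); base: `W = ⊤` (transport
of laws along `⊤ ≃ G`, or the pieces `fw ⊤ p 0`); composition of subgroups as `ThmM_sub` in
`Pool/Agent/BR/ThmM.lean`. -/
def St_Iter : Prop := ∃ C : ℝ, 0 < C ∧
  ∀ (m : ℕ) (G : Type) [AddCommGroup G] [Fintype G] (g : G → ℝ) (e xi : ℝ),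
  State G g (4 ^ m / 16) e → 0 ≤ e → 0 < xi → e + 6 * xi ≤ 1 →
  ∃ (W : AddSubgroup G) (c : G), State W (fun w => g (c + w)) (1 / 16) (e + 6 * xi) ∧
    cod W ≤ C * 16 ^ m / xi ^ 4

/-- Quad: `St_Iter` with `xi = 1/48`, `e = 0`, `4 ^ m` between `16 l` and `64 l`; `St_End`;
then as `thm_Final` (`fin_state`, `fin_four`). -/
def St_Quad : Prop := ∃ C : ℝ, 0 < C ∧
  ∀ (n : ℕ) (A : Finset (Fin n → ZMod 2)) (al : ℝ), 0 < al → al ≤ 1 →
  al * 2 ^ n ≤ (A.card : ℝ) →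
  ∃ V : Submodule (ZMod 2) (Fin n → ZMod 2),
    (∀ v ∈ V, ∃ a ∈ A, ∃ b ∈ A, ∃ c ∈ A, ∃ d ∈ A, v = a + b - c - d) ∧
    (n : ℝ) - Module.finrank (ZMod 2) V ≤ C * log (2 / al) ^ 2

/-! ### Two summands (section 8) -/

/-- CLS2: `Pool/Agent/DEN68/CLS.lean` with the conclusion `u + c₀ ∈ A + A` for `u ∈ T`. -/
def St_CLS2 : Prop := ∀ (G : Type) [AddCommGroup G] [Fintype G], (∀ x : G, x + x = 0) →
  ∀ (A : Finset G) (l : ℝ) (J : ℕ), A.Nonempty → 0 < l → 1 ≤ J →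
  log (Fintype.card G) - log A.card ≤ l →
  ∃ (B ps : G → ℝ) (T : Finset G) (c : G), IsLaw B ∧ IsLaw ps ∧ (∀ x, 0 < ps x) ∧ T.Nonempty ∧
    (∀ u ∈ T, ∃ a ∈ A, ∃ b ∈ A, u + c = a + b) ∧
    Df B ≤ 2 * (2 ^ J + 1) * l + 2 * log 2 ∧
    log (Fintype.card G) - log T.card ≤ 4 * l ∧
    ∀ t, B t ≠ 0 → KL (DEN68.un T) (sh t ps) ≤ 16 * l / J

/-- FBC2: `Pool/Agent/DEN68/FBC.lean` with the conclusion for two summands. -/
def St_FBC2 : Prop := ∀ (G : Type) [AddCommGroup G] [Fintype G], (∀ x : G, x + x = 0) →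
  ∀ (A : Finset G) (l : ℝ) (J : ℕ), A.Nonempty → 0 < l → 1 ≤ J →
  log (Fintype.card G) - log A.card ≤ l →
  ∃ (W : AddSubgroup G) (B p : W → ℝ) (c : G), IsLaw B ∧ Spread B ∧ IsLaw p ∧
    cod W ≤ 4 * (2 * (2 ^ J + 1) * l + 2 * log 2) ∧ Ib B p ≤ 48 * l / J ∧
    ∀ u : W, p u ≠ 0 → ∃ a ∈ A, ∃ b ∈ A, c + u = a + b

/-- DNF2: two summands, final. `St_SDPI` with `c`, `J = ⌈48/(c eps)⌉` in `St_FBC2`:
`Df p ≤ 48 l / (c J) ≤ eps l`, `DNG_supp` (`Pool/Agent/DEN68/DNG.lean`);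
`2 ^ J ≤ 2 * exp (48 log 2 / (c eps))`, `8 (2^J + 1) l + 8 log 2 ≤ exp (C/eps) l log 2` as
`l ≥ log 2`, `eps ≤ 1`. -/
def St_DNF2 : Prop := ∃ C : ℝ, 0 < C ∧
  ∀ (eps : ℝ) (n : ℕ) (A : Finset (Fin n → ZMod 2)) (al : ℝ), 0 < eps → eps ≤ 1 →
  0 < al → al ≤ 1 / 2 → al * 2 ^ n ≤ (A.card : ℝ) →
  ∃ (V : Submodule (ZMod 2) (Fin n → ZMod 2)) (c : Fin n → ZMod 2),
    (n : ℝ) - Module.finrank (ZMod 2) V ≤ exp (C / eps) * log (1 / al) ∧
    al ^ eps * (Nat.card V : ℝ) ≤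
      (Nat.card {v : Fin n → ZMod 2 // v ∈ V ∧ ∃ a ∈ A, ∃ b ∈ A, c + v = a + b} : ℝ)

end Pool.Agent.BRQ
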