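import Pool.Agent.BRQ.St

/-!
BRQ (MP_68cffc_co), part D: two summands with polynomial dependence. Paper:
`/team-store/BRQ_paper.md`, section 9. The statements of the modules.
-/

set_option autoImplicit false

namespace Pool.Agent.BRQ

open Finset Real Pool.Agent.BR
open Pool.Agent.DEN68 (un)
open scoped Classical

section defs

variable {G : Type} [AddCommGroup G] [Fintype G]

/-- The configurations: pairs `(x, y)` with `y i ∈ Q i` and `x + y i ∈ K i` for all `i`. -/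
noncomputable def Gam {N : ℕ} (K Q : Fin N → Finset G) : Finset (G × (Fin N → G)) :=
  univ.filter fun a => ∀ i, a.2 i ∈ Q i ∧ a.1 + a.2 i ∈ K i

/-- The points `x` with `x + y i ∈ K i` for all `i`. -/
noncomputable def Tt {N : ℕ} (K : Fin N → Finset G) (y : Fin N → G) : Finset G :=
  univ.filter fun x => ∀ i, x + y i ∈ K i

/-- The law of `x` for `(x, y)` uniform on `Gam K Q`. -/
noncomputable def px {N : ℕ} (K Q : Fin N → Finset G) (x : G) : ℝ :=
  ((univ.filter fun y : Fin N → G => (x, y) ∈ Gam K Q).card : ℝ) / ((Gam K Q).card : ℝ)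

/-- The law of `y` for `(x, y)` uniform on `Gam K Q`. -/
noncomputable def Ry {N : ℕ} (K Q : Fin N → Finset G) (y : Fin N → G) : ℝ :=
  ((univ.filter fun x : G => (x, y) ∈ Gam K Q).card : ℝ) / ((Gam K Q).card : ℝ)

/-- The value of `(K, Q)`:
`-log P(x + y i ∈ K i for all i) + (1 / M) ∑ log (|G| / |Q i|)`, `x ∈ G`, `y i ∈ Q i` uniform. -/
noncomputable def Vv (M : ℕ) {N : ℕ} (K Q : Fin N → Finset G) : ℝ :=
  log (Fintype.card G) * (1 + (N : ℝ) / M) + (1 - 1 / (M : ℝ)) * ∑ i, log ((Q i).card : ℝ) -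
    log ((Gam K Q).card : ℝ)

/-- The part of `S` in the coset of `z`, moved into `W`. -/
noncomputable def slice (S : Finset G) (W : AddSubgroup G) (z : G) : Finset W :=
  univ.filter fun w : W => z + (w : G) ∈ S

/-- The parts of `S` in the cosets of `z i`. -/
noncomputable def sl (S : Finset G) (W : AddSubgroup G) {N : ℕ} (z : Fin N → G) :
    Fin N → Finset W := fun i => slice S W (z i)

/-- The least value of a configuration in cosets of `W`. -/
noncomputable def fN (M : ℕ) (S : Finset G) (W : AddSubgroup G) (N : ℕ) : ℝ :=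
  sInf {v : ℝ | ∃ (z : Fin N → G) (Q : Fin N → Finset W), (Gam (sl S W z) Q).Nonempty ∧
    v = Vv M (sl S W z) Q}

end defs

/-- fN: the infimum is attained. The set is finite (the image of a finite type) and not empty:
`s ∈ S`, `z i = s`, `Q i = {0}`, `x = 0`, `y = 0`. `Set.Nonempty.csInf_mem`, `csInf_le`. -/
def St_fN : Prop := ∀ (G : Type) [AddCommGroup G] [Fintype G] (M N : ℕ) (S : Finset G)
  (W : AddSubgroup G), S.Nonempty →
  (∀ (z : Fin N → G) (Q : Fin N → Finset W), (Gam (sl S W z) Q).Nonempty →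
    fN M S W N ≤ Vv M (sl S W z) Q) ∧
  ∃ (z : Fin N → G) (Q : Fin N → Finset W), (Gam (sl S W z) Q).Nonempty ∧
    fN M S W N = Vv M (sl S W z) Q

/-- fTop: `W = ⊤`, `z = 0`, `Q i = slice A ⊤ 0` (a copy of `A`), `Gam` contains a copy of
`A × A ^ N`, so the value is at most `(log |G| - log |A|) (1 + N / M) ≤ 2 l`. -/
def St_fTop : Prop := ∀ (G : Type) [AddCommGroup G] [Fintype G] (M N : ℕ) (S A : Finset G)
  (l : ℝ), A.Nonempty → (∀ a ∈ A, ∀ b ∈ A, a + b ∈ S) → 1 ≤ M → N ≤ M →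
  log (Fintype.card G) - log A.card ≤ l → fN M S ⊤ N ≤ 2 * l

/-- fOne: for a minimiser `(z, Q)` with `N = 1`: `|Gam| = |Q 0| |slice S W (z 0)|` (for each
`y ∈ Q 0` translate `x`), so the value is
`log |W| - log |slice| + (1 / M) (log |W| - log |Q 0|)`. -/
def St_fOne : Prop := ∀ (G : Type) [AddCommGroup G] [Fintype G] (M : ℕ) (S : Finset G)
  (W : AddSubgroup G), S.Nonempty → 1 ≤ M →
  ∃ z : G, (slice S W z).Nonempty ∧
    log (Nat.card W) - log ((slice S W z).card : ℝ) ≤ fN M S W 1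

/-- Drop: dropping one coordinate. `r i x = |{y ∈ Q i | x + y ∈ K i}|`, `|Gam| = ∑ x, ∏ i, r i x`,
`px x = (∏ i, r i x) / |Gam|`, `|Gam_i| = ∑ x, ∏_{j ≠ i} r j x` for the dropped pair. Gibbs'
inequality (`gibbs` in `Pool/Agent/BR/Base.lean`) for `px` and `(∏_{j ≠ i} r j x) / |Gam_i|`:
`log |Gam_i| ≥ log |Gam| - ∑ px x log (r i x)`. Sum over `i`, with
`∑ i, log (r i x) = log |Gam| + log (px x)` on the support, `ent (px) = - ∑ px log px`. -/
def St_Drop : Prop := ∀ (G : Type) [AddCommGroup G] [Fintype G] (M n : ℕ)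
  (K Q : Fin (n + 1) → Finset G), 1 ≤ M → (Gam K Q).Nonempty →
  (∀ i : Fin (n + 1), (Gam (fun j => K (i.succAbove j)) (fun j => Q (i.succAbove j))).Nonempty) ∧
  ∑ i : Fin (n + 1), Vv M (fun j => K (i.succAbove j)) (fun j => Q (i.succAbove j)) ≤
    n * Vv M K Q + Df (px K Q)

/-- Joint: with `T y = Tt K y`, `R = Ry K Q`, `p = px K Q`, `D = Vv - Df p`:
`R y = |T y| / |Gam|` if all `y i ∈ Q i`, else `0`; `∑ y, R y un (T y) x = p x`;
`E log |T| = log |Gam| - ent R`; so `I = ∑ R KL (un T) p = ent R + ent p - log |Gam| ≥ 0`,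
`∑ R (log |G| - log |T|) = Df p + I`;
`D - I = (1/M)(N log |G| - ∑ log |Q i|) + (∑ log |Q i| - ent R) ≥ 0` (`ent R ≤ ∑ log |Q i|`:
support), and `M D ≥ M (D - I) ≥ N log |G| - ent R`. -/
def St_Joint : Prop := ∀ (G : Type) [AddCommGroup G] [Fintype G] (M N : ℕ)
  (K Q : Fin N → Finset G), 1 ≤ M → (Gam K Q).Nonempty →
  IsLaw (px K Q) ∧ IsLaw (Ry K Q) ∧
  (∀ y, Ry K Q y ≠ 0 → (Tt K y).Nonempty ∧ ∀ x ∈ Tt K y, px K Q x ≠ 0) ∧
  0 ≤ ∑ y, Ry K Q y * KL (un (Tt K y)) (px K Q) ∧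
  ∑ y, Ry K Q y * KL (un (Tt K y)) (px K Q) ≤ Vv M K Q - Df (px K Q) ∧
  Df (px K Q) ≤ ∑ y, Ry K Q y * (log (Fintype.card G) - log ((Tt K y).card : ℝ)) ∧
  log (Fintype.card (Fin N → G)) - ent (Ry K Q) ≤ M * (Vv M K Q - Df (px K Q))

/-- StarC: the counting inequality for Gibbs. `gam ω = |{h | ω + h ∈ Gm}|` is invariant under
`H ^ (N + 1)`; for invariant `u`: `∑_{ω ∈ Gm} u ω / gam ω = |H|^{-(N+1)} ∑_{gam ω > 0} u ω`
(write `gam` as a sum over `h` and translate `ω`). So the left side is at most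
`(∑ x, m x / |H|) * ∏ i, ∑ y, (1/|H|) (|H|/|G|)^(1/M) (q i y / |Q i|)^(1 - 1/M)`, `m x` = mass of
the coset of `x`, `q i y = |Q i ∩ (y + H)|`; `∑ x, m x = |H|`; by the weighted AM-GM inequality
(`Real.geom_mean_le_arith_mean2_weighted`) and `∑ y, q i y = |H| |Q i|` each factor is at most
`1/M + (1 - 1/M) = 1`. -/
def St_StarC : Prop := ∀ (G : Type) [AddCommGroup G] [Fintype G] (M N : ℕ)
  (Gm : Finset (G × (Fin N → G))) (Q : Fin N → Finset G) (H : AddSubgroup G) (p : G → ℝ),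
  1 ≤ M → (∀ i, (Q i).Nonempty) → IsLaw p →
  ∑ w ∈ Gm, (∑ h : H, p (w.1 + h)) /
      ((univ.filter fun h : H × (Fin N → H) =>
        (w.1 + (h.1 : G), fun i => w.2 i + (h.2 i : G)) ∈ Gm).card : ℝ) *
      ∏ i, (((Nat.card H : ℝ) / Fintype.card G) ^ (1 / (M : ℝ)) *
        (((slice (Q i) H (w.2 i)).card : ℝ) / (Q i).card) ^ (1 - 1 / (M : ℝ))) ≤ 1

/-- Star: restriction to cosets of `H` with a competitor law. `P (x, y) = p x / r x` on `Gam K Q`
(`r x` = number of `y`), so `ent P = ent p + ∑ p x log (r x) = log |Gam| - KL p (px K Q)`.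
Gibbs (`gibbs`) with the weights of `St_StarC` on `Gam K Q`:
`ent P ≤ ∑ P (log gam - log m + ∑ i ((1/M) log (|G|/|H|) + (1 - 1/M) log (|Q i| / q i)))`, and
`- ∑ P log m = H (x mod H) = cod H - Df (prq H p)` (`prq H p` of the class of `x` is `m x`). Hence
the average over `P` of
`V(x, y) = log |H| (1 + N/M) + (1 - 1/M) ∑ log (q i) - log gam` is at most
`Vv M K Q + KL p (px K Q) - Df (prq H p)`; take `(a, b) = (x, y)` in the support of `P` with
`V (x, y)` at most the average; `gam (x, y)` is the cardinality of the new `Gam` (bijection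
`h ↦ (h.1, h.2)`). -/
def St_Star : Prop := ∀ (G : Type) [AddCommGroup G] [Fintype G] (M N : ℕ)
  (K Q : Fin N → Finset G) (H : AddSubgroup G) (p : G → ℝ), 1 ≤ M → (Gam K Q).Nonempty →
  IsLaw p → (∀ x, p x ≠ 0 → px K Q x ≠ 0) →
  ∃ (a : G) (b : Fin N → G),
    (Gam (fun i => slice (K i) H (a + b i)) (fun i => slice (Q i) H (b i))).Nonempty ∧
    Vv M (fun i => slice (K i) H (a + b i)) (fun i => slice (Q i) H (b i)) ≤
      Vv M K Q + KL p (px K Q) - Df (prq H p)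

/-- Trans: a subgroup `H` of `W` as a subgroup of `G`: `H.map W.subtype` is isomorphic to `H`
(`AddSubgroup.equivMapOfInjective`), the configuration moves to `z i + a i`, values are equal;
`St_fN`. Codimensions as in `ThmM_sub` (`Pool/Agent/BR/ThmM.lean`). -/
def St_Trans : Prop := ∀ (G : Type) [AddCommGroup G] [Fintype G] (M N : ℕ) (S : Finset G)
  (W : AddSubgroup G) (H : AddSubgroup W), S.Nonempty →
  cod (H.map W.subtype) = cod W + cod H ∧
  ∀ (z : Fin N → G) (a : Fin N → W) (Q : Fin N → Finset H),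
    (Gam (fun i => slice (slice S W (z i)) H (a i)) Q).Nonempty →
    fN M S (H.map W.subtype) N ≤ Vv M (fun i => slice (slice S W (z i)) H (a i)) Q

/-- MinW: `W` minimises `∑_{N ∈ [1, M]} fN M S W N + cod W / M` over all subgroups of `G`
(finitely many). Monotonicity `fN M S (H.map W.subtype) N ≤ fN M S W N`: `St_Star` for the group
`W`, the minimiser (`St_fN`), `p = px` (`KL p p = 0`, `Df ≥ 0`), `St_Trans`
(`slice (sl S W z i) H (a + b i)`). All values are `≥ 0` (`St_Joint`: `Vv - Df px ≥ 0`). For a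
subgroup `W` of `G = ⊤` use `W.addSubgroupOf ⊤` or `W.comap (⊤ : AddSubgroup G).subtype`, whose
image is `W`. -/
def St_MinW : Prop := ∀ (G : Type) [AddCommGroup G] [Fintype G] (M : ℕ) (S : Finset G),
  S.Nonempty → 1 ≤ M → ∃ W : AddSubgroup G,
  (∀ N, 1 ≤ N → N ≤ M → ∀ H : AddSubgroup W,
    fN M S W N ≤ fN M S (H.map W.subtype) N + cod H / M) ∧
  (∀ N, 1 ≤ N → N ≤ M → fN M S W N ≤ fN M S ⊤ N) ∧
  cod W / M ≤ ∑ N ∈ Icc 1 M, fN M S ⊤ N

/-- ClassD: the inequality of a class. `k t = KL (un (T t)) p ≥ 0` for `B t ≠ 0`,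
`T t = Tt K (c + t)` = translate of `T = Tt K c`; `kb = ∑ B t k t`. Good `t`: `B t ≠ 0`,
`k t ≤ 2 kb`; their mass is `≥ 1/2` (Markov; if `kb = 0` all `t` are good). `St_Cond`: a law `Q` on
the good `t` with `Df Q ≤ 2 Df B + 2 log 2`; `St_Core`: `H`, `b`, `cod H ≤ 4 Df Q`. For `th > 0`:
`ps = exp (-th) p + (1 - exp (-th)) / |G|`, `KL (un (T t)) ps ≤ k t + th`. `St_Inv` with
`ph = un T`, `e = 2 kb + th` (`KL (un T) (sh (b + w) ps) = KL (un (T (b + w))) ps`, compare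
`CLS_KL`, `CLS_un` in `Pool/Agent/DEN68/CLS.lean`), `St_SDPI` on `H`:
`c DW H (un T) ≤ 2 kb + th`. And `log |G| - log |T| = Df (un T) = DW H (un T) + Df (prq H (un T))`
(`St_DW`), `Df (prq H (un T)) = Df (prq H (un (T t)))` (translation)
`≤ eta cod H + k t` for some `t` with `B t ≠ 0`, `k t ≤ kb`. `th → 0`. `C = 1 + 2 / c`. -/
def St_ClassD : Prop := ∃ C : ℝ, 1 ≤ C ∧
  ∀ (G : Type) [AddCommGroup G] [Fintype G], (∀ x : G, x + x = 0) →
  ∀ (N : ℕ) (K : Fin N → Finset G) (c : Fin N → G) (B p : G → ℝ) (eta : ℝ), IsLaw B → IsLaw p →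
  0 ≤ eta →
  (∀ t, B t ≠ 0 → (Tt K (fun i => c i + t)).Nonempty ∧
    ∀ x ∈ Tt K (fun i => c i + t), p x ≠ 0) →
  (∀ (H : AddSubgroup G) (t : G), B t ≠ 0 → Df (prq H (un (Tt K (fun i => c i + t)))) ≤
    eta * cod H + KL (un (Tt K (fun i => c i + t))) p) →
  log (Fintype.card G) - log ((Tt K c).card : ℝ) ≤ eta * (8 * Df B + 8 * log 2) +
    C * ∑ t, B t * KL (un (Tt K (fun i => c i + t))) p

/-- DiagU: splitting off the diagonal with a function. As `thm_Diag`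
(`Pool/Agent/BR/Cond.lean`): the average over the classes of differences (with their mass) of
`∑ t, B t * u (c + t) + lam * Df B` is at most the right side. -/
def St_DiagU : Prop := ∀ (G : Type) [AddCommGroup G] [Fintype G], (∀ x : G, x + x = 0) →
  ∀ (N : ℕ) (Q u : (Fin N → G) → ℝ) (lam : ℝ), 1 ≤ N → IsLaw Q → 0 ≤ lam →
  ∃ (c : Fin N → G) (B : G → ℝ), IsLaw B ∧ (∀ t, B t ≠ 0 → Q (fun i => c i + t) ≠ 0) ∧
  ∑ t, B t * u (fun i => c i + t) + lam * Df B ≤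
    ∑ y, Q y * u y + lam * (log (Fintype.card (Fin N → G)) - ent Q)

/-- Incr: the increment for a minimal `W` (section 9 of the paper). `N = n + 1`, minimiser
`(z, Q)` in `W` (`St_fN`), `K = sl S W z`, `V = fN M S W N`, `D = V - Df (px K Q) ≥ 0`.
`St_Drop` and `St_fN` (each dropped value is `≥ fN M S W n`): `(n+1) (V - fN M S W n) ≥ D`.
`St_DiagU` for the group `W`, the law `Ry K Q`, `u y = C KL (un (Tt K y)) (px) -
(log |W| - log |Tt K y|)`, `lam = 8 / M`: a class `c, B` with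
`C ∑ B KL - d_c + (8/M) Df B ≤ C D - Df (px) + (8/M) M D` (`|Tt K (c + t)| = |Tt K c|`).
`St_ClassD` with `eta = 1/M`; its second hypothesis: `St_Star` with `p = un (Tt K (c + t))`,
`St_Trans` and minimality: `V ≤ fN (H.map) + cod H / M ≤ V + KL - Df (prq H p) + cod H / M`.
Together `V - D = Df (px) ≤ (C + 8) D + 8 log 2 / M`. Constant `C + 9`. -/
def St_Incr : Prop := ∃ C : ℝ, 1 ≤ C ∧
  ∀ (G : Type) [AddCommGroup G] [Fintype G], (∀ x : G, x + x = 0) →
  ∀ (M : ℕ) (S : Finset G) (W : AddSubgroup G), S.Nonempty → 1 ≤ M →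
  (∀ N, 1 ≤ N → N ≤ M → ∀ H : AddSubgroup W,
    fN M S W N ≤ fN M S (H.map W.subtype) N + cod H / M) →
  ∀ n : ℕ, n + 1 ≤ M → fN M S W n ≤ fN M S W (n + 1) ∧
    fN M S W (n + 1) ≤ C * (n + 1) * (fN M S W (n + 1) - fN M S W n) + 8 * log 2 / M

/-- Grow: pure sequences. Suppose `f 1 > eps l`. Then `f n ≥ eps l ≥ 16 log 2 / M` for `n ≥ 1`, so
`f (n+1) ≤ 2 C (n+1) (f (n+1) - f n)`, `f (n+1) ≥ f n (1 + a / (n+1))`, `a = 1 / (2 C)`,
`1 + a / (n+1) ≥ ((n+2)/(n+1))^a` (`Real.rpow_one_add_le_one_add_mul_self`), hence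
`f M > eps l ((M+1)/2)^a ≥ 2 l`. -/
def St_Grow : Prop := ∀ (C eps l : ℝ) (M : ℕ) (f : ℕ → ℝ), 1 ≤ C → 0 < eps → eps ≤ 1 →
  log 2 ≤ l → 16 * (2 / eps) ^ (2 * C) ≤ M →
  (∀ n : ℕ, n + 1 ≤ M → f n ≤ f (n + 1) ∧
    f (n + 1) ≤ C * (n + 1) * (f (n + 1) - f n) + 8 * log 2 / M) →
  f M ≤ 2 * l → f 1 ≤ eps * l

/-- DGr: the theorem for groups. `S` = the set of sums, `M = ⌈16 (2/eps)^(2C)⌉`, `St_MinW`,
`St_Incr`, `St_fTop`, `St_Grow`, `St_fOne`; `cod W ≤ M * M * 2 l`. -/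
def St_DGr : Prop := ∃ C : ℝ, 1 ≤ C ∧
  ∀ (G : Type) [AddCommGroup G] [Fintype G], (∀ x : G, x + x = 0) →
  ∀ (A : Finset G) (l eps : ℝ), A.Nonempty → log (Fintype.card G) - log A.card ≤ l →
  log 2 ≤ l → 0 < eps → eps ≤ 1 →
  ∃ (W : AddSubgroup G) (z : G), cod W ≤ C * (1 / eps) ^ C * l ∧
    exp (-(eps * l)) * (Nat.card W : ℝ) ≤
      ((slice (univ.filter fun x : G => ∃ a ∈ A, ∃ b ∈ A, x = a + b) W z).card : ℝ)

/-- DFin: the final statement. `St_DGr` for `G = Fin n → ZMod 2`, `l = log (1 / al)`; passage to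
submodules as in `Pool/Agent/BRQ/DNF2.lean` or `Pool/Agent/DEN68/DNF.lean`. -/
def St_DFin : Prop := ∃ C : ℝ, 1 ≤ C ∧
  ∀ (eps : ℝ) (n : ℕ) (A : Finset (Fin n → ZMod 2)) (al : ℝ), 0 < eps → eps ≤ 1 →
  0 < al → al ≤ 1 / 2 → al * 2 ^ n ≤ (A.card : ℝ) →
  ∃ (V : Submodule (ZMod 2) (Fin n → ZMod 2)) (c : Fin n → ZMod 2),
    (n : ℝ) - Module.finrank (ZMod 2) V ≤ C * (1 / eps) ^ C * log (1 / al) ∧
    al ^ eps * (Nat.card V : ℝ) ≤
      (Nat.card {v : Fin n → ZMod 2 // v ∈ V ∧ ∃ a ∈ A, ∃ b ∈ A, c + v = a + b} : ℝ)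

end Pool.Agent.BRQ
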